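import Pool.Agent.N890.DU.Stm

/-!
Project DU (helper890), part ASM (helper835): the union bound S_COUNT.
-/

set_option autoImplicit false

namespace Pool.Agent.N890.DU.ASM

open NumberField WeierstrassCurve IsDedekindDomain Pool.Agent.TH942 Pool.Agent.TH954
open Pool.Agent.H901R3.MS Pool.Agent.N89.CI Pool.Agent.N890.FD Pool.Agent.N890.US
open Pool.Agent.N890.DU

open scoped LinearAlgebra.Projectivization

theorem rep_ne {F : Type} [Field F] {a b : F} (P : Pt a b) : rep P ≠ 0 := by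
  intro h
  rcases P with _ | ⟨x, y, hxy⟩
  · have := congrFun h 1
    simp [rep] at this
  · have := congrFun h 2
    simp [rep] at this

theorem rep_prop {F : Type} [Field F] {a b : F} {P Q : Pt a b} {u : F}
    (h : ∀ x, rep Q x = u * rep P x) : P = Q := by
  rcases P with _ | ⟨x, y, hxy⟩
  · rcases Q with _ | ⟨x', y', hxy'⟩
    · rfl
    · have := h 2
      simp [rep] at this
  · rcases Q with _ | ⟨x', y', hxy'⟩
    · have h2 := h 2
      have h1 := h 1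
      simp [rep] at h1 h2
      rw [← h2, zero_mul] at h1
      exact absurd h1 one_ne_zero
    · have h2 := h 2
      have h1 := h 1
      have h0 := h 0
      simp [rep] at h0 h1 h2
      rw [← h2, one_mul] at h0 h1
      subst h0 h1
      rfl

theorem few_mono {K : Type} [Field K] [NumberField K] {r m : ℕ} {L' : Type} {p κ : ℕ} {B B1 : ℝ}
    {D : ℕ} {a b : Fin r → ℤ} {Φ : L' → Pol0 (𝓞 K) r m} (hB : B ≤ B1) (h : Few p κ B D a b Φ) :
    Few p κ B1 D a b Φ := by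
  intro k _ _ _ hk χ V hV
  refine (h k hk χ V hV).trans ?_
  exact mul_le_mul_of_nonneg_right hB (by positivity)

/-- union bound over a finite type -/
theorem ub_type {α β : Type} [Finite α] [Finite β] (F : α → Set β) (N C : ℝ)
    (hN : (Nat.card α : ℝ) ≤ N) (hC : 0 ≤ C) (h : ∀ x, (((F x).ncard : ℕ) : ℝ) ≤ C) :
    (({y : β | ∃ x, y ∈ F x}.ncard : ℕ) : ℝ) ≤ N * C := by
  have h1 := union_bound (Set.univ : Set α) Set.finite_univ F C fun x _ => h x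
  rw [Set.ncard_univ] at h1
  have e : {y : β | ∃ x ∈ (Set.univ : Set α), y ∈ F x} = {y : β | ∃ x, y ∈ F x} := by
    ext y; simp
  rw [e] at h1
  exact h1.trans (mul_le_mul_of_nonneg_right hN hC)

/-- union bound over a finite set -/
theorem ub_set {α β : Type} [Finite β] (S : Set α) (hS : S.Finite) (F : α → Set β) (N C : ℝ)
    (hN : ((S.ncard : ℕ) : ℝ) ≤ N) (hC : 0 ≤ C) (h : ∀ x ∈ S, (((F x).ncard : ℕ) : ℝ) ≤ C) :
    (({y : β | ∃ x ∈ S, y ∈ F x}.ncard : ℕ) : ℝ) ≤ N * C :=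
  (union_bound S hS F C h).trans (mul_le_mul_of_nonneg_right hN hC)

open scoped Classical in
/-- the families of points on the product -/
def SV {r : ℕ} (a b : Fin r → ℤ) (p : ℕ) [Fact p.Prime] (k : Type) [Field k] [Algebra (ZMod p) k]
    {n : ℕ} (π : Equiv.Perm (Fin n)) (w : Fin n → ℕ)
    (Ks : ∀ i, Set (Pt (a i : ZMod p) (b i : ZMod p))) :
    Set (Fin n → ∀ i, Pt (a i : k) (b i : k)) :=
  {V | ∀ i, (∀ j s, rep (V (π j) i) s = rep (V j i) s ^ p) ∧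
    ∃ R ∈ Ks i, ∀ s, rep (∑ j, w j • V j i) s = algebraMap (ZMod p) k (rep R s)}

open scoped Classical in
theorem SV_card {r : ℕ} (a b : Fin r → ℤ) (p : ℕ) [Fact p.Prime] (k : Type) [Field k]
    [Algebra (ZMod p) k] {n : ℕ} (π : Equiv.Perm (Fin n)) (w : Fin n → ℕ)
    (Ks : ∀ i, Set (Pt (a i : ZMod p) (b i : ZMod p))) (C : ℝ)
    (h : ∀ i, {v : Fin n → Pt (a i : k) (b i : k) | (∀ j s, rep (v (π j)) s = rep (v j) s ^ p) ∧
      ∃ R ∈ Ks i, ∀ s, rep (∑ j, w j • v j) s = algebraMap (ZMod p) k (rep R s)}.Finite ∧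
      (({v : Fin n → Pt (a i : k) (b i : k) | (∀ j s, rep (v (π j)) s = rep (v j) s ^ p) ∧
      ∃ R ∈ Ks i, ∀ s, rep (∑ j, w j • v j) s = algebraMap (ZMod p) k (rep R s)}.ncard : ℕ) : ℝ) ≤
        C * (Ks i).ncard) :
    (SV a b p k π w Ks).Finite ∧
      (((SV a b p k π w Ks).ncard : ℕ) : ℝ) ≤ C ^ r * ∏ i, ((Ks i).ncard : ℝ) := by
  set T : ∀ i : Fin r, Set (Fin n → Pt (a i : k) (b i : k)) := fun i =>
    {v : Fin n → Pt (a i : k) (b i : k) | (∀ j s, rep (v (π j)) s = rep (v j) s ^ p) ∧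
      ∃ R ∈ Ks i, ∀ s, rep (∑ j, w j • v j) s = algebraMap (ZMod p) k (rep R s)} with hT
  have e : SV a b p k π w Ks ≃ ∀ i, T i :=
    { toFun := fun V i => ⟨fun j => V.1 j i, V.2 i⟩
      invFun := fun x => ⟨fun j i => (x i).1 j, fun i => (x i).2⟩
      left_inv := fun V => rfl
      right_inv := fun x => rfl }
  have hfin : ∀ i, Finite (T i) := fun i => (h i).1.to_subtype
  have hfin2 : Finite (∀ i, T i) := inferInstance
  have hfin3 : Finite (SV a b p k π w Ks) := Finite.of_equiv _ e.symm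
  refine ⟨Set.toFinite _, ?_⟩
  have h1 : (SV a b p k π w Ks).ncard = ∏ i, (T i).ncard := by
    rw [← Nat.card_coe_set_eq, Nat.card_congr e, Nat.card_pi]
    exact Finset.prod_congr rfl fun i _ => Nat.card_coe_set_eq _
  rw [h1]
  push_cast
  calc ∏ i, ((T i).ncard : ℝ) ≤ ∏ i, (C * ((Ks i).ncard : ℝ)) :=
        Finset.prod_le_prod (fun i _ => Nat.cast_nonneg _) fun i _ => (h i).2
    _ = C ^ r * ∏ i, ((Ks i).ncard : ℝ) := by
        rw [Finset.prod_mul_distrib, Finset.prod_const, Finset.card_univ, Fintype.card_fin]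

/-- the points of the projective space -/
def ST {K : Type} [Field K] [NumberField K] {r m : ℕ} {L' : Type} {a b : Fin r → ℤ}
    (Φ : L' → Pol0 (𝓞 K) r m) (p : ℕ) (k : Type) [Field k] {n : ℕ} (π : Equiv.Perm (Fin n))
    (χ : Fin n → (𝓞 K →+* k)) (V : Fin n → ∀ i, Pt (a i : k) (b i : k)) :
    Set (Fin n → ℙ k (Fin (m + 1) → k)) :=
  {τ | (∀ j, ∃ u : k, u ≠ 0 ∧ ∀ s, (τ (π j)).rep s = u * (τ j).rep s ^ p) ∧
    ∀ j l, val0 (χ j) (Φ l) (fun i => rep (V j i)) (τ j).rep = 0}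

/-- the coefficients -/
def SC {K : Type} [Field K] [NumberField K] {r m s n₀ : ℕ} {a b : Fin r → ℤ}
    (d : Fin s → Fin r → ℕ) (e : Fin s → ℕ) (ω : Fin n₀ → 𝓞 K) (p : ℕ)
    (k : Type) [Field k] [Algebra (ZMod p) k] {n : ℕ}
    (χ : Fin n → (𝓞 K →+* k)) (V : Fin n → ∀ i, Pt (a i : k) (b i : k))
    (τ : Fin n → ℙ k (Fin (m + 1) → k)) : Set (Idx m d e × Fin n₀ → ZMod p) :=
  {c | Diff a b k n χ V (fun j => (τ j).rep) ∧ ∀ (l : Fin s) (j : Fin n),
    valP (χ j) (gen (𝓞 K) m d e l) (fun i => rep (V j i)) (τ j).rep (par (χ j) ω c) = 0}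

theorem SC_card (hI : S_IND) {K : Type} [Field K] [NumberField K] {r m s n₀ : ℕ} {a b : Fin r → ℤ}
    (d : Fin s → Fin r → ℕ) (e : Fin s → ℕ) (ω : Module.Basis (Fin n₀) ℤ (𝓞 K)) (p : ℕ)
    [Fact p.Prime] (k : Type) [Field k] [Algebra (ZMod p) k] [Infinite k] {n : ℕ}
    (hd : ∀ j i, n ≤ d j i + 1) (he : ∀ j, n ≤ e j + 1)
    (χ : Fin n → (𝓞 K →+* k)) (V : Fin n → ∀ i, Pt (a i : k) (b i : k))
    (τ : Fin n → ℙ k (Fin (m + 1) → k)) :
    (((SC d e ω p k χ V τ).ncard : ℕ) : ℝ) ≤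
      (p : ℝ) ^ (Fintype.card (Idx m d e) * n₀) / (p : ℝ) ^ (s * n) := by
  have hp : (0 : ℝ) < p := by exact_mod_cast (Fact.out : p.Prime).pos
  by_cases hD : Diff a b k n χ V (fun j => (τ j).rep)
  · have h := hI K r m s n n₀ p d e hd he ω k χ (fun j i => rep (V j i)) (fun j => (τ j).rep)
      (fun j i => rep_ne _) (fun j => (τ j).rep_nonzero) (by
        intro j j' hjj' hχ hV
        refine hD j j' hjj' hχ ?_
        funext i
        obtain ⟨u, hu⟩ := hV i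
        exact rep_prop hu)
    have h2 : SC d e ω p k χ V τ = {c : Idx m d e × Fin n₀ → ZMod p | ∀ (l : Fin s) (j : Fin n),
        valP (χ j) (gen (𝓞 K) m d e l) (fun i => rep (V j i)) (τ j).rep (par (χ j) ω c) = 0} := by
      ext c
      exact ⟨fun hc => hc.2, fun hc => ⟨hD, hc⟩⟩
    rw [h2, le_div_iff₀ (by positivity)]
    exact_mod_cast h
  · have h2 : SC d e ω p k χ V τ = ∅ := by
      rw [Set.eq_empty_iff_forall_notMem]
      intro c hc
      exact hD hc.1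
    rw [h2, Set.ncard_empty, Nat.cast_zero]
    positivity

/-- the parameters of the union bound: permutation, multiplicities, homomorphisms -/
abbrev Prm (K : Type) [Field K] [NumberField K] (k : Type) [Field k] (D n : ℕ) : Type :=
  Equiv.Perm (Fin n) × (Fin n → Fin (D + 1)) × (Fin n → (𝓞 K →+* k))

open scoped Classical in
/-- the union for fixed `n` -/
def Un {K : Type} [Field K] [NumberField K] {r m s n₀ : ℕ} {L' : Type} (a b : Fin r → ℤ)
    (Φ : L' → Pol0 (𝓞 K) r m) (D : ℕ)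
    (d : Fin s → Fin r → ℕ) (e : Fin s → ℕ) (ω : Fin n₀ → 𝓞 K) (p : ℕ) [Fact p.Prime]
    (k : Type) [Field k] [Algebra (ZMod p) k]
    (Ks : ∀ i, Set (Pt (a i : ZMod p) (b i : ZMod p))) (n : ℕ) :
    Set (Idx m d e × Fin n₀ → ZMod p) :=
  {c | ∃ x : Prm K k D n, c ∈ {c | ((∀ j, 1 ≤ (x.2.1 j : ℕ)) ∧ ∑ j, (x.2.1 j : ℕ) ≤ D ∧
    ∀ j y, x.2.2 (x.1 j) y = x.2.2 j y ^ p) ∧
    ∃ V ∈ SV a b p k x.1 (fun j => (x.2.1 j : ℕ)) Ks,
      c ∈ {c | ∃ τ ∈ ST Φ p k x.1 x.2.2 V, c ∈ SC d e ω p k x.2.2 V τ}}}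

open scoped Classical in
theorem Un_card (hI : S_IND) (hT : S_EQT) (hχc : S_CHI) {K : Type} [Field K] [NumberField K]
    {r m κ s D n₀ : ℕ} {L' : Type} {a b : Fin r → ℤ} {Φ : L' → Pol0 (𝓞 K) r m}
    {d' : L' → Fin r → ℕ} {e' : L' → ℕ} (hΦ : ∀ l, MHomog0 (Φ l) (d' l) (e' l))
    (ω : Module.Basis (Fin n₀) ℤ (𝓞 K)) (d : Fin s → Fin r → ℕ) (e : Fin s → ℕ)
    (hd : ∀ j i, D ≤ d j i + 1) (he : ∀ j, D ≤ e j + 1) {B1 C0 : ℝ} (hB1 : 1 ≤ B1) (hC0 : 1 ≤ C0)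
    (p : ℕ) [Fact p.Prime] (hFew : Few p κ B1 D a b Φ)
    (k : Type) [Field k] [Algebra (ZMod p) k] [Infinite k]
    (Ks : ∀ i, Set (Pt (a i : ZMod p) (b i : ZMod p))) {n : ℕ} (_ : 1 ≤ n) (hnD : n ≤ D)
    (hV : ∀ (π : Equiv.Perm (Fin n)) (w : Fin n → ℕ), (∀ j, 1 ≤ w j) → ∑ j, w j ≤ D →
      ∀ i, {v : Fin n → Pt (a i : k) (b i : k) | (∀ j s, rep (v (π j)) s = rep (v j) s ^ p) ∧
      ∃ R ∈ Ks i, ∀ s, rep (∑ j, w j • v j) s = algebraMap (ZMod p) k (rep R s)}.Finite ∧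
      (({v : Fin n → Pt (a i : k) (b i : k) | (∀ j s, rep (v (π j)) s = rep (v j) s ^ p) ∧
      ∃ R ∈ Ks i, ∀ s, rep (∑ j, w j • v j) s = algebraMap (ZMod p) k (rep R s)}.ncard : ℕ) : ℝ) ≤
        C0 * ((p : ℝ) ^ n / p) * (Ks i).ncard) :
    (((Un a b Φ D d e ω p k Ks n).ncard : ℕ) : ℝ) ≤
      (D.factorial * ((D + 1 : ℕ) : ℝ) ^ D * ((n₀ + 1 : ℕ) : ℝ) ^ D) *
        ((C0 * ((p : ℝ) ^ n / p)) ^ r * (∏ i, ((Ks i).ncard : ℝ)) *
          (B1 ^ n * (p : ℝ) ^ (κ * n) *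
            ((p : ℝ) ^ (Fintype.card (Idx m d e) * n₀) / (p : ℝ) ^ (s * n)))) := by
  have hp : (0 : ℝ) < p := by exact_mod_cast (Fact.out : p.Prime).pos
  obtain ⟨hfinχ, hcardχ⟩ := hχc K n₀ ω k
  have hprod0 : (0 : ℝ) ≤ ∏ i, ((Ks i).ncard : ℝ) := Finset.prod_nonneg fun i _ => Nat.cast_nonneg _
  have hB0 : (0 : ℝ) < B1 := by linarith
  have hC00 : (0 : ℝ) < C0 := by linarith
  refine ub_type _ _ _ ?_ (by positivity) ?_
  · -- the number of the parameters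
    have e1 : Nat.card (Prm K k D n) =
        n.factorial * ((D + 1) ^ n * Nat.card (𝓞 K →+* k) ^ n) := by
      rw [Nat.card_prod, Nat.card_prod, Nat.card_fun, Nat.card_fun, Nat.card_perm]
      simp
    rw [e1]
    push_cast
    have g1 : (n.factorial : ℝ) ≤ D.factorial := by exact_mod_cast Nat.factorial_le hnD
    have g2 : ((D : ℝ) + 1) ^ n ≤ ((D : ℝ) + 1) ^ D :=
      pow_le_pow_right₀ (by linarith [(Nat.cast_nonneg D : (0 : ℝ) ≤ D)]) hnD
    have g3 : (Nat.card (𝓞 K →+* k) : ℝ) ^ n ≤ ((n₀ : ℝ) + 1) ^ D := by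
      have g4 : (Nat.card (𝓞 K →+* k) : ℝ) ≤ (n₀ : ℝ) + 1 := by
        have : (Nat.card (𝓞 K →+* k) : ℝ) ≤ n₀ := by exact_mod_cast hcardχ
        linarith
      calc (Nat.card (𝓞 K →+* k) : ℝ) ^ n ≤ ((n₀ : ℝ) + 1) ^ n :=
            pow_le_pow_left₀ (Nat.cast_nonneg _) g4 n
        _ ≤ ((n₀ : ℝ) + 1) ^ D :=
            pow_le_pow_right₀ (by linarith [(Nat.cast_nonneg n₀ : (0 : ℝ) ≤ n₀)]) hnD
    calc (n.factorial : ℝ) * (((D : ℝ) + 1) ^ n * (Nat.card (𝓞 K →+* k) : ℝ) ^ n) ≤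
        D.factorial * (((D : ℝ) + 1) ^ D * ((n₀ : ℝ) + 1) ^ D) := by gcongr
      _ = _ := by ring
  · intro x
    by_cases hx : (∀ j, 1 ≤ (x.2.1 j : ℕ)) ∧ ∑ j, (x.2.1 j : ℕ) ≤ D ∧
        ∀ j y, x.2.2 (x.1 j) y = x.2.2 j y ^ p
    · have e1 : {c : Idx m d e × Fin n₀ → ZMod p | ((∀ j, 1 ≤ (x.2.1 j : ℕ)) ∧
          ∑ j, (x.2.1 j : ℕ) ≤ D ∧ ∀ j y, x.2.2 (x.1 j) y = x.2.2 j y ^ p) ∧
          ∃ V ∈ SV a b p k x.1 (fun j => (x.2.1 j : ℕ)) Ks,
            c ∈ {c | ∃ τ ∈ ST Φ p k x.1 x.2.2 V, c ∈ SC d e ω p k x.2.2 V τ}} =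
          {c | ∃ V ∈ SV a b p k x.1 (fun j => (x.2.1 j : ℕ)) Ks,
            c ∈ {c | ∃ τ ∈ ST Φ p k x.1 x.2.2 V, c ∈ SC d e ω p k x.2.2 V τ}} := by
        ext c
        exact ⟨fun h => h.2, fun h => ⟨hx, h⟩⟩
      rw [e1]
      obtain ⟨hf, hc⟩ := SV_card a b p k x.1 (fun j => (x.2.1 j : ℕ)) Ks _
        (hV x.1 (fun j => (x.2.1 j : ℕ)) hx.1 hx.2.1)
      refine ub_set _ hf _ _ _ hc (by positivity) fun V hVm => ?_
      obtain ⟨hf2, hc2⟩ := hT K D r m κ p L' a b Φ d' e' hΦ B1 hB1 hFew k n hnD x.1 x.2.2 V hx.2.2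
        (fun j i s => (hVm i).1 j s)
      exact ub_set _ hf2 _ _ _ hc2 (by positivity) fun τ _ =>
        SC_card hI d e ω p k (fun j i => hnD.trans (hd j i)) (fun j => hnD.trans (he j)) x.2.2 V τ
    · have e1 : {c : Idx m d e × Fin n₀ → ZMod p | ((∀ j, 1 ≤ (x.2.1 j : ℕ)) ∧
          ∑ j, (x.2.1 j : ℕ) ≤ D ∧ ∀ j y, x.2.2 (x.1 j) y = x.2.2 j y ^ p) ∧
          ∃ V ∈ SV a b p k x.1 (fun j => (x.2.1 j : ℕ)) Ks,
            c ∈ {c | ∃ τ ∈ ST Φ p k x.1 x.2.2 V, c ∈ SC d e ω p k x.2.2 V τ}} = ∅ := by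
        rw [Set.eq_empty_iff_forall_notMem]
        intro c hc
        exact hx hc.1
      rw [e1, Set.ncard_empty]
      push_cast
      positivity

open scoped Classical in
/-- the set of S_COUNT is contained in the union -/
theorem sub_union (hQ : S_QUO) {K : Type} [Field K] [NumberField K]
    {r m s D n₀ : ℕ} {L' : Type} {a b : Fin r → ℤ} {Φ : L' → Pol0 (𝓞 K) r m}
    {d' : L' → Fin r → ℕ} {e' : L' → ℕ} (hΦ : ∀ l, MHomog0 (Φ l) (d' l) (e' l))
    (ω : Fin n₀ → 𝓞 K) (d : Fin s → Fin r → ℕ) (e : Fin s → ℕ)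
    (p : ℕ) [Fact p.Prime] (k : Type) [Field k] [Algebra (ZMod p) k]
    (Ks : ∀ i, Set (Pt (a i : ZMod p) (b i : ZMod p))) (c : Idx m d e × Fin n₀ → ZMod p)
    (R : ∀ i, Pt (a i : ZMod p) (b i : ZMod p)) (hR : ∀ i, R i ∈ Ks i)
    (hc : KD a b (Sum.elim (fun l => lift0 (Idx m d e) (Φ l)) (gen (𝓞 K) m d e)) ω D p k c R) :
    ∃ n ∈ (Finset.Icc 1 D : Set ℕ), c ∈ Un a b Φ D d e ω p k Ks n := by
  have hchar : CharP k p := charP_of_injective_algebraMap (algebraMap (ZMod p) k).injective p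
  obtain ⟨n, hn1, hnD, π, χ, V, T, hconf, heq, hsum⟩ := hc
  obtain ⟨n', hn1', hn', f, g, π', hfg, hconf', hdiff, hfib⟩ :=
    hQ K r m p a b k n (Fact.out) hn1 π χ V T hconf
  have hw1 : ∀ j', (Finset.univ.filter fun j => f j = j').card ≤ n := by
    intro j'
    calc _ ≤ (Finset.univ : Finset (Fin n)).card := Finset.card_filter_le _ _
      _ = n := by simp
  refine ⟨n', by simpa using ⟨hn1', hn'.trans hnD⟩, ⟨π', fun j' =>
    ⟨(Finset.univ.filter fun j => f j = j').card, by have := hw1 j'; omega⟩, χ ∘ g⟩, ?_, ?_⟩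
  · refine ⟨fun j' => ?_, ?_, hconf'.2.1⟩
    · show 1 ≤ (Finset.univ.filter fun j => f j = j').card
      rw [Nat.one_le_iff_ne_zero, ← Nat.pos_iff_ne_zero, Finset.card_pos]
      exact ⟨g j', by simp [hfg j']⟩
    · show ∑ j', (Finset.univ.filter fun j => f j = j').card ≤ D
      rw [← Finset.card_eq_sum_card_fiberwise (f := f) (s := Finset.univ) (t := Finset.univ)
        (fun _ _ => Finset.mem_coe.2 (Finset.mem_univ _))]
      simpa using hnD
  · have hu : ∀ j', ∃ u : kˣ, (u : k) • (T (g j')) =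
        (Projectivization.mk k (T (g j')) (hconf'.1 j')).rep := fun j' =>
      Projectivization.exists_smul_eq_mk_rep k (T (g j')) (hconf'.1 j')
    choose u hu using hu
    refine ⟨V ∘ g, fun i => ⟨fun j' x => hconf'.2.2.1 j' i x, R i, hR i, ?_⟩,
      fun j' => Projectivization.mk k (T (g j')) (hconf'.1 j'), ⟨?_, ?_⟩, ⟨?_, ?_⟩⟩
    · -- the sum
      intro x
      have hs : ∑ j', (Finset.univ.filter fun j => f j = j').card • V (g j') i = ∑ j, V j i := by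
        rw [← Finset.sum_fiberwise (s := Finset.univ) (g := f) (f := fun j => V j i)]
        refine Finset.sum_congr rfl fun j' _ => ?_
        rw [← Finset.sum_const]
        refine Finset.sum_congr rfl fun j hj => ?_
        rw [Finset.mem_filter] at hj
        rw [← hj.2, (hfib j).2]
      rw [← hsum i x, ← hs]
      rfl
    · -- Frobenius
      intro j'
      obtain ⟨v, hv0, hv⟩ := hconf'.2.2.2 j'
      refine ⟨(u (π' j') : k) * v * ((u j' : k) ^ p)⁻¹, ?_, fun x => ?_⟩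
      · have h1 := (u (π' j')).ne_zero
        have h2 := (u j').ne_zero
        exact mul_ne_zero (mul_ne_zero h1 hv0) (inv_ne_zero (pow_ne_zero _ h2))
      · have h1 := hv x
        simp only [Function.comp] at h1
        rw [← hu (π' j'), ← hu j', Pi.smul_apply, Pi.smul_apply, smul_eq_mul, smul_eq_mul, h1,
          mul_pow]
        have h2 : (u j' : k) ^ p ≠ 0 := pow_ne_zero _ (u j').ne_zero
        field_simp
    · -- the equations of the family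
      intro j' l
      have h2 := heq (g j') (Sum.inl l)
      simp only [Sum.elim_inl] at h2
      rw [valP_lift0] at h2
      show val0 (χ (g j')) (Φ l) (fun i => rep (V (g j') i)) _ = 0
      rw [← hu j', val0_smul (χ (g j')) (Φ l) (d' l) (e' l) (hΦ l), h2, mul_zero]
    · -- the points are different
      intro j j' hjj' hχ hV v hv
      refine hdiff j j' hjj' hχ hV ((u j' : k)⁻¹ * v * (u j : k)) fun x => ?_
      have h1 := hv x
      simp only [] at h1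
      rw [← hu j, ← hu j', Pi.smul_apply, Pi.smul_apply, smul_eq_mul, smul_eq_mul] at h1
      have h2 : (u j' : k) ≠ 0 := (u j').ne_zero
      show T (g j') x = _ * T (g j) x
      calc T (g j') x = (u j' : k)⁻¹ * ((u j' : k) * T (g j') x) := by field_simp
        _ = (u j' : k)⁻¹ * (v * ((u j : k) * T (g j) x)) := by rw [h1]
        _ = _ := by ring
    · intro l j'
      have h2 := heq (g j') (Sum.inr l)
      simp only [Sum.elim_inr] at h2
      rw [valP_gen] at h2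
      show valP (χ (g j')) (gen (𝓞 K) m d e l) (fun i => rep (V (g j') i)) _
        (par (χ (g j')) ω c) = 0
      rw [valP_gen, ← hu j', form_smul, h2, mul_zero]

theorem t_COUNT : S_QUO → S_IND → S_EQV → S_EQT → S_CHI → S_COUNT := by
  classical
  intro hQ hI hV hT hχ K _ _ r m κ s D n₀ hD1 hs L' a b Φ d' e' hΦ ω d e hd he B
  obtain ⟨C0, p₁, hC0, hV⟩ := hV D
  set B1 : ℝ := max B 1 with hB1
  have hB11 : 1 ≤ B1 := le_max_right _ _
  set C1 : ℝ := D.factorial * ((D + 1 : ℕ) : ℝ) ^ D * ((n₀ + 1 : ℕ) : ℝ) ^ D with hC1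
  have hC11 : 1 ≤ C1 := by
    have h1 : (1 : ℝ) ≤ D.factorial := by exact_mod_cast Nat.factorial_pos D
    have h2 : (1 : ℝ) ≤ ((D + 1 : ℕ) : ℝ) ^ D := one_le_pow₀ (by push_cast; linarith [(Nat.cast_nonneg D : (0 : ℝ) ≤ D)])
    have h3 : (1 : ℝ) ≤ ((n₀ + 1 : ℕ) : ℝ) ^ D := one_le_pow₀ (by push_cast; linarith [(Nat.cast_nonneg n₀ : (0 : ℝ) ≤ n₀)])
    rw [hC1]
    nlinarith [mul_le_mul h1 h2 zero_le_one (by linarith)]
  have hD1' : (1 : ℝ) ≤ D := by exact_mod_cast hD1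
  refine ⟨D * (C1 * (C0 ^ r * B1 ^ D)), p₁, ?_, ?_⟩
  · have h1 : (1 : ℝ) ≤ C0 ^ r := one_le_pow₀ hC0
    have h2 : (1 : ℝ) ≤ B1 ^ D := one_le_pow₀ hB11
    have h3 : (1 : ℝ) ≤ C0 ^ r * B1 ^ D := one_le_mul_of_one_le_of_one_le h1 h2
    have h4 : (1 : ℝ) ≤ C1 * (C0 ^ r * B1 ^ D) := one_le_mul_of_one_le_of_one_le hC11 h3
    exact one_le_mul_of_one_le_of_one_le hD1' h4
  intro p hpf hp1 hdisc hcard hFew k _ _ _ Ks
  have hp : (1 : ℝ) ≤ p := by exact_mod_cast hpf.out.one_lt.le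
  have hp0 : (0 : ℝ) < p := by linarith
  have hprod0 : (0 : ℝ) ≤ ∏ i, ((Ks i).ncard : ℝ) := Finset.prod_nonneg fun i _ => Nat.cast_nonneg _
  set Tt : ℝ := ((p : ℝ) ^ (Fintype.card (Idx m d e) * n₀) * (p : ℝ) ^ (D * (r + κ - s)) /
    (p : ℝ) ^ r) * ∏ i, ((Ks i).ncard : ℝ) with hTt
  have hsub : {c : Idx m d e × Fin n₀ → ZMod p | ∃ R : ∀ i, Pt (a i : ZMod p) (b i : ZMod p),
      (∀ i, R i ∈ Ks i) ∧ KD a b (Sum.elim (fun l => lift0 (Idx m d e) (Φ l)) (gen (𝓞 K) m d e))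
      ω D p k c R} ⊆ {c | ∃ n ∈ (Finset.Icc 1 D : Set ℕ), c ∈ Un a b Φ D d e ω p k Ks n} := by
    rintro c ⟨R, hR, hc⟩
    exact sub_union hQ hΦ ω d e p k Ks c R hR hc
  refine (Nat.cast_le.2 (Set.ncard_le_ncard hsub (Set.toFinite _))).trans ?_
  have hCr : (0 : ℝ) ≤ C1 * (C0 ^ r * B1 ^ D) := by
    have : (0 : ℝ) ≤ C0 := by linarith
    have : (0 : ℝ) ≤ B1 := by linarith
    positivity
  have hub := ub_set (Finset.Icc 1 D : Set ℕ) (Finset.finite_toSet _)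
    (fun n => Un a b Φ D d e ω p k Ks n) D (C1 * (C0 ^ r * B1 ^ D) * Tt) (by
      rw [Set.ncard_coe_finset]; simp) (by positivity) (by
    intro n hn
    have hn' : 1 ≤ n ∧ n ≤ D := by simpa using hn
    refine (Un_card hI hT hχ hΦ ω d e hd he hB11 hC0 p (few_mono (le_max_left _ _) hFew) k Ks
      hn'.1 hn'.2 (fun π w hw1 hw2 i => hV p hp1 k (a i) (b i) (hdisc i) (hcard i) n hn'.1 hn'.2
        π w hw1 hw2 (Ks i))).trans ?_
    have hC00 : (0 : ℝ) ≤ C0 := by linarith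
    have hB0 : (0 : ℝ) ≤ B1 := by linarith
    have hC10 : (0 : ℝ) ≤ C1 := by linarith
    have hBn : B1 ^ n ≤ B1 ^ D := pow_le_pow_right₀ hB11 hn'.2
    have key : ((p : ℝ) ^ n / p) ^ r * ((p : ℝ) ^ (κ * n) *
        ((p : ℝ) ^ (Fintype.card (Idx m d e) * n₀) / (p : ℝ) ^ (s * n))) ≤
        (p : ℝ) ^ (Fintype.card (Idx m d e) * n₀) * (p : ℝ) ^ (D * (r + κ - s)) /
          (p : ℝ) ^ r := by
      have e1 : ((p : ℝ) ^ n / p) ^ r * ((p : ℝ) ^ (κ * n) *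
        ((p : ℝ) ^ (Fintype.card (Idx m d e) * n₀) / (p : ℝ) ^ (s * n))) =
        (p : ℝ) ^ (Fintype.card (Idx m d e) * n₀) * (p : ℝ) ^ (n * (r + κ - s)) /
          (p : ℝ) ^ r := by
        rw [div_pow, ← pow_mul]
        have e2 : (p : ℝ) ^ (n * r) * (p : ℝ) ^ (κ * n) =
            (p : ℝ) ^ (n * (r + κ - s)) * (p : ℝ) ^ (s * n) := by
          rw [← pow_add, ← pow_add]
          congr 1
          obtain ⟨q, hq⟩ := Nat.exists_eq_add_of_le hs
          rw [hq, Nat.add_sub_cancel_left]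
          calc n * r + κ * n = n * (r + κ) := by ring
            _ = n * (s + q) := by rw [hq]
            _ = n * q + s * n := by ring
        have h5 : (p : ℝ) ^ (s * n) ≠ 0 := by positivity
        have h6 : (p : ℝ) ^ r ≠ 0 := by positivity
        field_simp
        linear_combination e2
      rw [e1]
      have h7 : (p : ℝ) ^ (n * (r + κ - s)) ≤ (p : ℝ) ^ (D * (r + κ - s)) :=
        pow_le_pow_right₀ hp (Nat.mul_le_mul_right _ hn'.2)
      gcongr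
    calc C1 * ((C0 * ((p : ℝ) ^ n / p)) ^ r * (∏ i, ((Ks i).ncard : ℝ)) *
          (B1 ^ n * (p : ℝ) ^ (κ * n) *
            ((p : ℝ) ^ (Fintype.card (Idx m d e) * n₀) / (p : ℝ) ^ (s * n)))) =
        C1 * (C0 ^ r * B1 ^ n) * ((((p : ℝ) ^ n / p) ^ r * ((p : ℝ) ^ (κ * n) *
        ((p : ℝ) ^ (Fintype.card (Idx m d e) * n₀) / (p : ℝ) ^ (s * n)))) *
          ∏ i, ((Ks i).ncard : ℝ)) := by rw [mul_pow]; ring
      _ ≤ C1 * (C0 ^ r * B1 ^ D) * Tt := by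
          rw [hTt]
          gcongr)
  refine hub.trans (le_of_eq ?_)
  rw [hTt]
  ring

end Pool.Agent.N890.DU.ASM
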