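import Pool.Agent.N890.DU.Stm
import Pool.Agent.W659.FD.Geo1

/-!
# Project DU (helper890), EQT (helper891): the number of the points of the projective space which are
permuted by Frobenius
-/

set_option autoImplicit false

namespace Pool.Agent.N890.DU.EQT

open NumberField WeierstrassCurve MvPolynomial Function
open Pool.Agent.H901R3.MS Pool.Agent.N89.CI Pool.Agent.N890.DU

open scoped LinearAlgebra.Projectivization

/-! ### Polynomials -/

lemma val0_scale {R A : Type} [CommRing R] [CommRing A] (φ : R →+* A) {r m : ℕ}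
    {F : Pol0 R r m} {d : Fin r → ℕ} {e : ℕ} (hF : MHomog0 F d e) (V : Fin r → Fin 3 → A)
    (T : Fin (m + 1) → A) (c : A) :
    val0 φ F V (fun s => c * T s) = c ^ e * val0 φ F V T := by
  unfold val0
  rw [eval₂_eq', eval₂_eq', Finset.mul_sum]
  refine Finset.sum_congr rfl fun x hx => ?_
  rw [Fintype.prod_sum_type, Fintype.prod_sum_type]
  simp only [Sum.elim_inl, Sum.elim_inr, mul_pow]
  rw [Finset.prod_mul_distrib, Finset.prod_pow_eq_pow_sum, (hF x hx).2]
  ring

lemma val0_map {R A A' : Type} [CommRing R] [CommRing A] [CommRing A'] (φ : R →+* A)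
    (g : A →+* A') {r m : ℕ} (F : Pol0 R r m) (V : Fin r → Fin 3 → A) (T : Fin (m + 1) → A) :
    g (val0 φ F V T) = val0 (g.comp φ) F (fun i j => g (V i j)) (fun s => g (T s)) := by
  unfold val0
  rw [eval₂_comp_left]
  congr 1
  funext x
  rcases x with x | x <;> rfl

/-! ### Cycles -/

section cycles

variable {n : ℕ} (π : Equiv.Perm (Fin n))

/-- the least elements of the cycles -/
noncomputable def reps : Finset (Fin n) := by
  classical exact Finset.univ.filter fun j => ∀ l : ℕ, j ≤ (⇑π)^[l] j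

lemma mem_reps {j : Fin n} : j ∈ reps π ↔ ∀ l : ℕ, j ≤ (⇑π)^[l] j := by
  classical
  unfold reps
  simp

lemma per_pos (j : Fin n) : 0 < minimalPeriod (⇑π) j := by
  apply minimalPeriod_pos_of_mem_periodicPts
  exact (π.injective).mem_periodicPts j

lemma exists_rep (j : Fin n) : ∃ r ∈ reps π, ∃ l : ℕ, (⇑π)^[l] r = j := by
  classical
  obtain ⟨l₀, hl₀⟩ : ∃ l₀ : ℕ, ∀ l : ℕ, (⇑π)^[l₀] j ≤ (⇑π)^[l] j := by
    obtain ⟨x, ⟨l₀, rfl⟩, hmin⟩ := Set.exists_min_image (Set.range fun l : ℕ => (⇑π)^[l] j) id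
      (Set.toFinite _) ⟨_, ⟨0, rfl⟩⟩
    exact ⟨l₀, fun l => hmin _ ⟨l, rfl⟩⟩
  refine ⟨(⇑π)^[l₀] j, (mem_reps π).2 fun l => ?_, ?_⟩
  · rw [← iterate_add_apply]
    exact hl₀ _
  · have hp := per_pos π j
    set f := minimalPeriod (⇑π) j with hf
    refine ⟨f * l₀ - l₀, ?_⟩
    rw [← iterate_add_apply]
    have h1 : f * l₀ - l₀ + l₀ = f * l₀ := Nat.sub_add_cancel (Nat.le_mul_of_pos_left _ hp)
    rw [h1]
    exact (isPeriodicPt_minimalPeriod (⇑π) j).mul_const l₀

lemma sum_per : ∑ r : reps π, minimalPeriod (⇑π) (r : Fin n) ≤ n := by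
  classical
  have h1 : ∑ r : reps π, minimalPeriod (⇑π) (r : Fin n) =
      Fintype.card (Σ r : reps π, Fin (minimalPeriod (⇑π) (r : Fin n))) := by
    rw [Fintype.card_sigma]
    simp
  rw [h1]
  conv_rhs => rw [← Fintype.card_fin n]
  refine Fintype.card_le_of_injective (fun x => (⇑π)^[(x.2 : ℕ)] (x.1 : Fin n)) ?_
  rintro ⟨r, l⟩ ⟨r', l'⟩ h
  have h2 : (⇑π)^[(l : ℕ)] (r : Fin n) = (⇑π)^[(l' : ℕ)] (r' : Fin n) := h
  -- each is in the orbit of the other
  have key : ∀ (r r' : Fin n) (l l' : ℕ), (⇑π)^[l] r = (⇑π)^[l'] r' → l < minimalPeriod (⇑π) r →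
      ∃ t : ℕ, (⇑π)^[t] r' = r := by
    intro r r' l l' h hl
    refine ⟨(minimalPeriod (⇑π) r - l) + l', ?_⟩
    rw [iterate_add_apply, ← h, ← iterate_add_apply, Nat.sub_add_cancel hl.le]
    exact isPeriodicPt_minimalPeriod (⇑π) r
  obtain ⟨t, ht⟩ := key r r' l l' h2 l.2
  obtain ⟨t', ht'⟩ := key r' r l' l h2.symm l'.2
  have h3 : (r : Fin n) ≤ r' := by
    rw [← ht']
    exact (mem_reps π).1 r.2 t'
  have h4 : (r' : Fin n) ≤ r := by
    rw [← ht]
    exact (mem_reps π).1 r'.2 t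
  have h5 : r = r' := Subtype.ext (le_antisymm h3 h4)
  subst h5
  have h6 : (l : ℕ) = l' := by
    have := (iterate_injOn_Iio_minimalPeriod (f := ⇑π) (x := (r : Fin n)))
      (Set.mem_Iio.2 l.2) (Set.mem_Iio.2 l'.2) h2
    exact this
  have h7 : l = l' := Fin.ext h6
  rw [h7]

end cycles


/-! ### The finite subfields -/

section sub

variable (k : Type) [Field k] (p : ℕ) [Fact p.Prime] [CharP k p] (f : ℕ)

/-- the elements with `x ^ (p ^ f) = x` -/
def kf : Subfield k := (iterateFrobenius k p f).eqLocusField (RingHom.id k)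

lemma mem_kf (x : k) : x ∈ kf k p f ↔ x ^ p ^ f = x := Iff.rfl

lemma kf_finite (hf : 0 < f) : (kf k p f : Set k).Finite ∧ (kf k p f : Set k).ncard ≤ p ^ f := by
  classical
  have hp : 1 < p := (Fact.out : p.Prime).one_lt
  have h0 := FiniteField.X_pow_card_pow_sub_X_ne_zero k hf.ne' hp
  have h1 : (kf k p f : Set k) ⊆
      ((Polynomial.X ^ p ^ f - Polynomial.X : Polynomial k).roots.toFinset : Set k) := by
    intro x hx
    rw [Finset.mem_coe, Multiset.mem_toFinset, Polynomial.mem_roots h0, Polynomial.IsRoot.def]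
    have h2 : x ^ p ^ f = x := hx
    simp [h2]
  refine ⟨(Finset.finite_toSet _).subset h1, ?_⟩
  refine (Set.ncard_le_ncard h1 (Finset.finite_toSet _)).trans ?_
  rw [Set.ncard_coe_finset]
  refine (Multiset.toFinset_card_le _).trans ?_
  refine (Polynomial.card_roots' _).trans ?_
  rw [FiniteField.X_pow_card_pow_sub_X_natDegree_eq k hf.ne' hp]

end sub

/-! ### One cycle -/

section one

variable {K : Type} [Field K] [NumberField K] {D r m κ p : ℕ} [Fact p.Prime] {L' : Type}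
  {a b : Fin r → ℤ} {Φ : L' → Pol0 (𝓞 K) r m} {d' : L' → Fin r → ℕ} {e' : L' → ℕ}

/-- the points with coordinates in `k_f` -/
def Zf (k : Type) [Field k] [CharP k p] (f : ℕ) (Φ : L' → Pol0 (𝓞 K) r m) (χ : 𝓞 K →+* k)
    (V : Fin r → Fin 3 → k) : Set (ℙ k (Fin (m + 1) → k)) :=
  {P | ∃ (y : Fin (m + 1) → kf k p f) (hy : (fun s => (y s : k)) ≠ 0),
    P = Projectivization.mk k (fun s => (y s : k)) hy ∧ ∀ l, val0 χ (Φ l) V (fun s => (y s : k)) = 0}

lemma Zf_card (hΦ : ∀ l, MHomog0 (Φ l) (d' l) (e' l)) {B : ℝ} (hB : 1 ≤ B)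
    (hF : Few p κ B D a b Φ) (k : Type) [Field k] [Algebra (ZMod p) k] [CharP k p] {f : ℕ}
    (hf : 0 < f) (hfD : f ≤ D) (χ : 𝓞 K →+* k) (V : ∀ i, Pt (a i : k) (b i : k))
    (hχ : ∀ x, χ x ^ p ^ f = χ x) (hV : ∀ i s, rep (V i) s ^ p ^ f = rep (V i) s) :
    (Zf (p := p) k f Φ χ (fun i => rep (V i))).Finite ∧
      ((Zf (p := p) k f Φ χ (fun i => rep (V i))).ncard : ℝ) ≤ B * (p : ℝ) ^ (κ * f) := by
  classical
  obtain ⟨hfin, hcard⟩ := kf_finite k p f hf
  have : Finite (kf k p f) := hfin.to_subtype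
  letI : Fintype (kf k p f) := Fintype.ofFinite _
  have hc : Fintype.card (kf k p f) ≤ p ^ f := by
    rw [← Nat.card_eq_fintype_card]
    exact hcard
  have : CharP (kf k p f) p := (kf k p f).subtype.charP Subtype.val_injective p
  letI : Algebra (ZMod p) (kf k p f) := ZMod.algebra (kf k p f) p
  -- the data over `k_f`
  let χ' : 𝓞 K →+* kf k p f := χ.codRestrict (kf k p f) hχ
  let V' : Fin r → Fin 3 → kf k p f := fun i s => ⟨rep (V i) s, hV i s⟩
  have hE : ∀ i, Pool.Agent.W659.FD.OnE (a i) (b i) (V' i) := by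
    intro i
    obtain ⟨h1, h2⟩ := Pool.Agent.W659.FD.onE_rep (V i)
    refine ⟨fun h0 => h1 ?_, ?_⟩
    · funext s
      have h3 := congrFun h0 s
      exact congrArg Subtype.val h3
    · apply Subtype.ext
      push_cast
      exact h2
  have hp1 : 1 ≤ p := (Fact.out : p.Prime).one_lt.le
  have key := hF (kf k p f) (hc.trans (Nat.pow_le_pow_right hp1 hfD)) χ' V' hE
  set S : Set (ℙ (kf k p f) (Fin (m + 1) → kf k p f)) :=
    {P | ∀ l, val0 χ' (Φ l) V' P.rep = 0} with hS
  have hval : ∀ l (y : Fin (m + 1) → kf k p f), ((val0 χ' (Φ l) V' y : kf k p f) : k) =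
      val0 χ (Φ l) (fun i => rep (V i)) (fun s => (y s : k)) := by
    intro l y
    have h1 := val0_map χ' (kf k p f).subtype (Φ l) V' y
    have h2 : (kf k p f).subtype.comp χ' = χ := RingHom.ext fun x => rfl
    rw [h2] at h1
    exact h1
  have hne : ∀ P : ℙ (kf k p f) (Fin (m + 1) → kf k p f),
      (fun s => (P.rep s : k)) ≠ 0 := by
    intro P h0
    apply P.rep_nonzero
    funext s
    exact Subtype.ext (congrFun h0 s)
  let ψ : ℙ (kf k p f) (Fin (m + 1) → kf k p f) → ℙ k (Fin (m + 1) → k) := fun P =>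
    Projectivization.mk k (fun s => (P.rep s : k)) (hne P)
  have hsub : Zf (p := p) k f Φ χ (fun i => rep (V i)) ⊆ ψ '' S := by
    rintro _ ⟨y, hy, rfl, hyl⟩
    have hy' : y ≠ 0 := by
      rintro rfl
      apply hy
      funext s
      rfl
    obtain ⟨c, hc'⟩ := Projectivization.exists_smul_eq_mk_rep (kf k p f) y hy'
    have hrep : ∀ s, (Projectivization.mk (kf k p f) y hy').rep s = (c : kf k p f) * y s := by
      intro s
      rw [← hc']
      rfl
    refine ⟨Projectivization.mk (kf k p f) y hy', ?_, ?_⟩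
    · intro l
      have h1 : (Projectivization.mk (kf k p f) y hy').rep = fun s => (c : kf k p f) * y s :=
        funext hrep
      rw [h1, val0_scale χ' (hΦ l)]
      have h2 : val0 χ' (Φ l) V' y = 0 := by
        apply Subtype.ext
        rw [hval]
        exact hyl l
      rw [h2, mul_zero]
    · rw [Projectivization.mk_eq_mk_iff']
      refine ⟨((c : kf k p f) : k), ?_⟩
      funext s
      rw [hrep s]
      rfl
  have hSfin : S.Finite := Set.toFinite _
  refine ⟨(hSfin.image ψ).subset hsub, ?_⟩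
  have h1 : (Zf (p := p) k f Φ χ (fun i => rep (V i))).ncard ≤ S.ncard :=
    (Set.ncard_le_ncard hsub (hSfin.image ψ)).trans (Set.ncard_image_le hSfin)
  have h2 : ((Zf (p := p) k f Φ χ (fun i => rep (V i))).ncard : ℝ) ≤ (S.ncard : ℝ) := by
    exact_mod_cast h1
  refine h2.trans (key.trans ?_)
  apply mul_le_mul_of_nonneg_left _ (by linarith)
  have h3 : (Fintype.card (kf k p f) : ℝ) ≤ (p : ℝ) ^ f := by exact_mod_cast hc
  calc (Fintype.card (kf k p f) : ℝ) ^ κ ≤ ((p : ℝ) ^ f) ^ κ :=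
        pow_le_pow_left₀ (Nat.cast_nonneg _) h3 κ
    _ = (p : ℝ) ^ (κ * f) := by rw [← pow_mul, mul_comm]

end one

theorem t_EQT : S_EQT := by
  classical
  intro K _ _ D r m κ p _ L' a b Φ d' e' hΦ B hB hF k _ _ n hn π χ V hχ hV
  have : CharP k p := charP_of_injective_algebraMap (algebraMap (ZMod p) k).injective p
  set A : Set (Fin n → ℙ k (Fin (m + 1) → k)) := {τ : Fin n → ℙ k (Fin (m + 1) → k) |
    (∀ j, ∃ u : k, u ≠ 0 ∧ ∀ s, (τ (π j)).rep s = u * (τ j).rep s ^ p) ∧
    ∀ j l, val0 (χ j) (Φ l) (fun i => rep (V j i)) (τ j).rep = 0} with hA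
  have itχ : ∀ (l : ℕ) j x, χ ((⇑π)^[l] j) x = χ j x ^ p ^ l := by
    intro l j x
    induction l with
    | zero => simp
    | succ l ih => rw [iterate_succ_apply', hχ, ih, ← pow_mul, ← pow_succ]
  have itV : ∀ (l : ℕ) j i s, rep (V ((⇑π)^[l] j) i) s = rep (V j i) s ^ p ^ l := by
    intro l j i s
    induction l with
    | zero => simp
    | succ l ih => rw [iterate_succ_apply', hV, ih, ← pow_mul, ← pow_succ]
  have itτ : ∀ τ ∈ A, ∀ (l : ℕ) j, ∃ u : k, u ≠ 0 ∧
      ∀ s, (τ ((⇑π)^[l] j)).rep s = u * (τ j).rep s ^ p ^ l := by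
    intro τ hτ l j
    induction l with
    | zero => exact ⟨1, one_ne_zero, fun s => by simp⟩
    | succ l ih =>
      obtain ⟨u, hu, h⟩ := ih
      obtain ⟨u', hu', h'⟩ := hτ.1 ((⇑π)^[l] j)
      refine ⟨u' * u ^ p, mul_ne_zero hu' (pow_ne_zero _ hu), fun s => ?_⟩
      rw [iterate_succ_apply', h', h, mul_pow, ← pow_mul, ← pow_succ, mul_assoc]
  have hmem : ∀ τ ∈ A, ∀ j, τ j ∈ Zf (p := p) k (minimalPeriod (⇑π) j) Φ (χ j)
      (fun i => rep (V j i)) := by
    intro τ hτ j
    set f := minimalPeriod (⇑π) j with hf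
    obtain ⟨u, hu, h⟩ := itτ τ hτ f j
    have hper : (⇑π)^[f] j = j := isPeriodicPt_minimalPeriod (⇑π) j
    rw [hper] at h
    obtain ⟨s₀, hs₀⟩ := Function.ne_iff.1 (τ j).rep_nonzero
    have hs₀' : (τ j).rep s₀ ≠ 0 := hs₀
    have hy : ∀ s, (τ j).rep s / (τ j).rep s₀ ∈ kf k p f := by
      intro s
      rw [mem_kf, div_pow]
      have h1 := h s
      have h2 := h s₀
      have h3 : (τ j).rep s₀ ^ p ^ f ≠ 0 := pow_ne_zero _ hs₀'
      rw [div_eq_div_iff h3 hs₀']
      apply mul_left_cancel₀ hu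
      calc u * ((τ j).rep s ^ p ^ f * (τ j).rep s₀) =
          (u * (τ j).rep s ^ p ^ f) * (τ j).rep s₀ := by ring
        _ = (τ j).rep s * (u * (τ j).rep s₀ ^ p ^ f) := by rw [← h1, ← h2]
        _ = u * ((τ j).rep s * (τ j).rep s₀ ^ p ^ f) := by ring
    have hne : (fun s => (((⟨(τ j).rep s / (τ j).rep s₀, hy s⟩ : kf k p f)) : k)) ≠ 0 := by
      intro h0
      have h1 := congrFun h0 s₀
      change (τ j).rep s₀ / (τ j).rep s₀ = 0 at h1
      rw [div_self hs₀'] at h1
      exact one_ne_zero h1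
    refine ⟨fun s => ⟨(τ j).rep s / (τ j).rep s₀, hy s⟩, hne, ?_, fun l => ?_⟩
    · refine (Projectivization.mk_rep (τ j)).symm.trans ?_
      rw [Projectivization.mk_eq_mk_iff']
      refine ⟨(τ j).rep s₀, ?_⟩
      funext s
      change (τ j).rep s₀ * ((τ j).rep s / (τ j).rep s₀) = (τ j).rep s
      field_simp
    · have h1 : (fun s => (((⟨(τ j).rep s / (τ j).rep s₀, hy s⟩ : kf k p f)) : k)) =
          fun s => ((τ j).rep s₀)⁻¹ * (τ j).rep s := by
        funext s
        change (τ j).rep s / (τ j).rep s₀ = _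
        rw [div_eq_mul_inv, mul_comm]
      rw [h1, val0_scale (χ j) (hΦ l)]
      have h2 := hτ.2 j l
      rw [h2, mul_zero]
  have hinj : Set.InjOn (fun (τ : Fin n → ℙ k (Fin (m + 1) → k)) (q : reps π) => τ q) A := by
    intro τ hτ τ' hτ' h
    funext j
    obtain ⟨q, hq, l, rfl⟩ := exists_rep π j
    induction l with
    | zero => exact congrFun h ⟨q, hq⟩
    | succ l ih =>
      rw [iterate_succ_apply']
      obtain ⟨u, hu, h1⟩ := hτ.1 ((⇑π)^[l] q)
      obtain ⟨u', hu', h1'⟩ := hτ'.1 ((⇑π)^[l] q)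
      rw [← Projectivization.mk_rep (τ (π ((⇑π)^[l] q))),
        ← Projectivization.mk_rep (τ' (π ((⇑π)^[l] q))), Projectivization.mk_eq_mk_iff']
      refine ⟨u / u', ?_⟩
      funext s
      change u / u' * (τ' (π ((⇑π)^[l] q))).rep s = (τ (π ((⇑π)^[l] q))).rep s
      rw [h1 s, h1' s, ih]
      field_simp
  have hperD : ∀ q : reps π, minimalPeriod (⇑π) (q : Fin n) ≤ D := by
    intro q
    refine le_trans ?_ ((sum_per π).trans hn)
    exact Finset.single_le_sum (f := fun q : reps π => minimalPeriod (⇑π) (q : Fin n))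
      (fun _ _ => Nat.zero_le _) (Finset.mem_univ q)
  have hZ := fun q : reps π => Zf_card hΦ hB hF k (per_pos π q) (hperD q) (χ q) (V q)
    (fun x => by
      rw [← itχ, isPeriodicPt_minimalPeriod (⇑π) (q : Fin n)])
    (fun i s => by
      rw [← itV, isPeriodicPt_minimalPeriod (⇑π) (q : Fin n)])
  set P : Finset (reps π → ℙ k (Fin (m + 1) → k)) :=
    Fintype.piFinset fun q => (hZ q).1.toFinset with hP
  have hsub : (fun (τ : Fin n → ℙ k (Fin (m + 1) → k)) (q : reps π) => τ q) '' A ⊆ (P : Set _) := by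
    rintro _ ⟨τ, hτ, rfl⟩
    rw [Finset.mem_coe, hP, Fintype.mem_piFinset]
    intro q
    rw [Set.Finite.mem_toFinset]
    exact hmem τ hτ q
  have hAfin : A.Finite := Set.Finite.of_finite_image (P.finite_toSet.subset hsub) hinj
  refine ⟨hAfin, ?_⟩
  have h1 : A.ncard ≤ ∏ q : reps π,
      (Zf (p := p) k (minimalPeriod (⇑π) (q : Fin n)) Φ (χ q) (fun i => rep (V q i))).ncard := by
    rw [← Set.ncard_image_of_injOn hinj]
    refine (Set.ncard_le_ncard hsub P.finite_toSet).trans ?_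
    rw [Set.ncard_coe_finset, hP, Fintype.card_piFinset]
    exact le_of_eq (Finset.prod_congr rfl fun q _ =>
      (Set.ncard_eq_toFinset_card _ (hZ q).1).symm)
  have hp1 : (1 : ℝ) ≤ p := by exact_mod_cast (Fact.out : p.Prime).one_lt.le
  calc (A.ncard : ℝ) ≤ ∏ q : reps π,
      ((Zf (p := p) k (minimalPeriod (⇑π) (q : Fin n)) Φ (χ q) (fun i => rep (V q i))).ncard : ℝ) := by
        exact_mod_cast h1
    _ ≤ ∏ q : reps π, (B * (p : ℝ) ^ (κ * minimalPeriod (⇑π) (q : Fin n))) :=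
        Finset.prod_le_prod (fun q _ => Nat.cast_nonneg _) (fun q _ => (hZ q).2)
    _ = B ^ (Fintype.card (reps π)) *
        (p : ℝ) ^ (κ * ∑ q : reps π, minimalPeriod (⇑π) (q : Fin n)) := by
        rw [Finset.prod_mul_distrib, Finset.prod_const, Finset.card_univ,
          Finset.prod_pow_eq_pow_sum, Finset.mul_sum]
    _ ≤ B ^ n * (p : ℝ) ^ (κ * n) := by
        apply mul_le_mul
        · apply pow_le_pow_right₀ hB
          rw [Fintype.card_coe]
          exact (Finset.card_le_univ _).trans (by rw [Fintype.card_fin])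
        · exact pow_le_pow_right₀ hp1 (Nat.mul_le_mul_left _ (sum_per π))
        · positivity
        · positivity

end Pool.Agent.N890.DU.EQT
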