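import Pool.Agent.N890.DU.Stm
import Pool.Agent.Y213.CT.Maps

/-!
Project DU (helper890), task EQV (helper222): families of points permuted by Frobenius with a given sum.
-/

set_option autoImplicit false

namespace Pool.Agent.N890.DU.EQV

open NumberField WeierstrassCurve IsDedekindDomain Pool.Agent.TH942 Pool.Agent.TH954
open Pool.Agent.H901R3.MS Pool.Agent.N89.CI Pool.Agent.N890.FD Pool.Agent.N890.US
open Pool.Agent.N890.DU
open Pool.Agent.Y213.CT (MapsTo crd_inj exists_mapsTo)
open scoped Classical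

/-! ### Finite abelian groups -/

/-- counting in groups -/
theorem grp {A E H : Type} [AddCommGroup A] [AddCommGroup E] [AddCommGroup H] [Finite E]
    (G : Finset A) (hadd : ∀ x ∈ G, ∀ y ∈ G, x + y ∈ G)
    (hsub : ∀ x ∈ G, ∀ y ∈ G, x - y ∈ G) (Ψ : A →+ H) (J : E →+ H) (hJ : Function.Injective J)
    (c : E → A) (hc : ∀ R, c R ∈ G) (W : ℕ) (hcW : ∀ R, Ψ (c R) = J (W • R)) (CW : ℕ)
    (hW : {P : E | W • P = 0}.ncard ≤ CW) (S : Set E) :
    (G.filter (fun v => ∃ R ∈ S, Ψ v = J R)).card * Nat.card E ≤ S.ncard * (CW * G.card) := by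
  have hSfin : S.Finite := Set.toFinite S
  set K := G.filter (fun v => Ψ v = 0) with hK
  -- the fibres
  have h3 : (G.filter (fun v => ∃ R ∈ S, Ψ v = J R)).card ≤ S.ncard * K.card := by
    have hsub' : G.filter (fun v => ∃ R ∈ S, Ψ v = J R) ⊆
        hSfin.toFinset.biUnion (fun R => G.filter (fun v => Ψ v = J R)) := by
      intro v hv
      rw [Finset.mem_filter] at hv
      obtain ⟨hv1, R, hR, hvR⟩ := hv
      rw [Finset.mem_biUnion]
      exact ⟨R, hSfin.mem_toFinset.2 hR, Finset.mem_filter.2 ⟨hv1, hvR⟩⟩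
    refine (Finset.card_le_card hsub').trans ?_
    rw [Set.ncard_eq_toFinset_card _ hSfin]
    refine Finset.card_biUnion_le_card_mul _ _ _ ?_
    intro R _
    by_cases hne : (G.filter (fun v => Ψ v = J R)).Nonempty
    · obtain ⟨v0, hv0⟩ := hne
      rw [Finset.mem_filter] at hv0
      refine Finset.card_le_card_of_injOn (fun v => v - v0) ?_ ?_
      · intro v hv
        rw [Finset.mem_coe, Finset.mem_filter] at hv
        rw [Finset.mem_coe, hK, Finset.mem_filter]
        exact ⟨hsub _ hv.1 _ hv0.1, by rw [map_sub, hv.2, hv0.2, sub_self]⟩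
      · intro x _ y _ hxy
        exact sub_left_injective hxy
    · rw [Finset.not_nonempty_iff_eq_empty.1 hne]
      simp
  have := Fintype.ofFinite E
  set T : Finset E := Finset.univ.image (fun R : E => W • R) with hT
  -- the image of multiplication by W
  have h1 : Nat.card E ≤ CW * T.card := by
    rw [Nat.card_eq_fintype_card, ← Finset.card_univ]
    refine Finset.card_le_mul_card_image _ _ ?_
    intro b hb
    obtain ⟨R0, -, hR0⟩ := Finset.mem_image.1 hb
    have hfin : {P : E | W • P = 0}.Finite := Set.toFinite _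
    refine le_trans ?_ hW
    rw [Set.ncard_eq_toFinset_card _ hfin]
    refine Finset.card_le_card_of_injOn (fun R => R - R0) ?_ ?_
    · intro R hR
      simp only [Finset.coe_filter, Finset.mem_univ, true_and, Set.mem_ofPred_eq] at hR
      rw [Set.Finite.coe_toFinset]
      show W • (R - R0) = 0
      rw [smul_sub, hR, hR0, sub_self]
    · intro x _ y _ hxy
      exact sub_left_injective hxy
  -- the kernel
  have h2 : K.card * T.card ≤ G.card := by
    have hch : ∀ t : E, t ∈ T → ∃ R, W • R = t := by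
      intro t ht
      obtain ⟨R, -, hR⟩ := Finset.mem_image.1 ht
      exact ⟨R, hR⟩
    let g : E → E := fun t => if h : ∃ R, W • R = t then h.choose else 0
    have hg : ∀ t ∈ T, W • g t = t := by
      intro t ht
      have h := hch t ht
      simp only [g, dif_pos h]
      exact h.choose_spec
    rw [← Finset.card_product]
    refine Finset.card_le_card_of_injOn (fun x => x.1 + c (g x.2)) ?_ ?_
    · rintro ⟨κ, t⟩ hx
      simp only [Finset.coe_product, Set.mem_prod, Finset.mem_coe, hK, Finset.mem_filter] at hx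
      exact hadd _ hx.1.1 _ (hc _)
    · rintro ⟨κ, t⟩ hx ⟨κ', t'⟩ hx' hxx
      simp only [Finset.coe_product, Set.mem_prod, Finset.mem_coe, hK, Finset.mem_filter] at hx hx'
      simp only at hxx
      have e1 := congrArg Ψ hxx
      rw [map_add, map_add, hx.1.2, hx'.1.2, zero_add, zero_add, hcW, hcW, hg t hx.2,
        hg t' hx'.2] at e1
      have e2 := hJ e1
      subst e2
      have e3 : κ = κ' := add_right_cancel hxx
      rw [e3]
  calc _ ≤ (S.ncard * K.card) * (CW * T.card) := Nat.mul_le_mul h3 h1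
    _ = S.ncard * (CW * (K.card * T.card)) := by ring
    _ ≤ S.ncard * (CW * G.card) := by
        apply Nat.mul_le_mul_left
        apply Nat.mul_le_mul_left
        exact h2

/-! ### Points -/

theorem rep_eq {F : Type} [Field F] {a b : F} (P : Pt a b) (j : Fin 3) : rep P j = crd P j := by
  rcases P with _ | ⟨x, y, h⟩ <;> rfl

theorem finPt (F : Type) [Field F] [Finite F] (a b : F) : Finite (Pt a b) :=
  Finite.of_injective (fun P : Pt a b => crd P) (fun _ _ h => crd_inj (fun j => congrFun h j))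

theorem core {F k : Type} [Field F] [Field k] [Finite F] (p : ℕ) [Fact p.Prime] [CharP k p]
    (a b : ℤ) (f : F →+* k) (hf : ∀ x, f x ^ p = f x)
    (hdk : Disc (a : k) (b : k)) (W CW : ℕ) (hW : {P : Pt (a : F) (b : F) | W • P = 0}.ncard ≤ CW)
    (hp : p ≤ 2 * Nat.card (Pt (a : F) (b : F))) (n : ℕ) (π : Equiv.Perm (Fin n))
    (w : Fin n → ℕ) (hw : ∑ j, w j = W)
    (hG1 : {v : Fin n → Pt (a : k) (b : k) | ∀ j s, rep (v (π j)) s = rep (v j) s ^ p}.Finite)
    (hG2 : {v : Fin n → Pt (a : k) (b : k) | ∀ j s, rep (v (π j)) s = rep (v j) s ^ p}.ncard ≤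
      4 ^ n * p ^ n) (S : Set (Pt (a : F) (b : F))) :
    {v : Fin n → Pt (a : k) (b : k) | (∀ j s, rep (v (π j)) s = rep (v j) s ^ p) ∧
      ∃ R ∈ S, ∀ s, rep (∑ j, w j • v j) s = f (rep R s)}.Finite ∧
    {v : Fin n → Pt (a : k) (b : k) | (∀ j s, rep (v (π j)) s = rep (v j) s ^ p) ∧
      ∃ R ∈ S, ∀ s, rep (∑ j, w j • v j) s = f (rep R s)}.ncard * p ≤
      S.ncard * (2 * CW * (4 ^ n * p ^ n)) := by
  have hfinF := finPt F (a : F) (b : F)
  obtain ⟨Fr, hFr⟩ := exists_mapsTo (CV (a : k) (b : k)) (CV (a : k) (b : k)) rfl rfl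
    (frobenius k p) (map_intCast _ _) (map_intCast _ _) hdk
  obtain ⟨J, hJ⟩ := exists_mapsTo (CV (a : F) (b : F)) (CV (a : k) (b : k)) rfl rfl
    f (map_intCast _ _) (map_intCast _ _) hdk
  have hJinj : Function.Injective J := by
    intro P Q h
    apply crd_inj
    intro j
    apply f.injective
    rw [← hJ, ← hJ, h]
  set Gs : Set (Fin n → Pt (a : k) (b : k)) :=
    {v : Fin n → Pt (a : k) (b : k) | ∀ j s, rep (v (π j)) s = rep (v j) s ^ p} with hGs
  have hmem : ∀ v : Fin n → Pt (a : k) (b : k), v ∈ Gs ↔ ∀ j, v (π j) = Fr (v j) := by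
    intro v
    constructor
    · intro h j
      apply crd_inj
      intro s
      rw [hFr, ← rep_eq, ← rep_eq, h j s]
      rfl
    · intro h j s
      rw [h j, rep_eq, rep_eq, hFr]
      rfl
  set G : Finset (Fin n → Pt (a : k) (b : k)) := hG1.toFinset with hG
  have hmemG : ∀ v : Fin n → Pt (a : k) (b : k), v ∈ G ↔ ∀ j, v (π j) = Fr (v j) := by
    intro v
    rw [hG, Set.Finite.mem_toFinset]
    exact hmem v
  let Ψ : (Fin n → Pt (a : k) (b : k)) →+ Pt (a : k) (b : k) :=
    { toFun := fun v => ∑ j, w j • v j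
      map_zero' := by simp
      map_add' := fun x y => by
        rw [← Finset.sum_add_distrib]
        apply Finset.sum_congr rfl
        intro j _
        rw [Pi.add_apply, smul_add] }
  have hΨ : ∀ v, Ψ v = ∑ j, w j • v j := fun v => rfl
  have hFJ : ∀ R, Fr (J R) = J R := by
    intro R
    apply crd_inj
    intro s
    rw [hFr, hJ]
    exact hf _
  have hset : {v : Fin n → Pt (a : k) (b : k) | (∀ j s, rep (v (π j)) s = rep (v j) s ^ p) ∧
      ∃ R ∈ S, ∀ s, rep (∑ j, w j • v j) s = f (rep R s)} =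
      ((G.filter (fun v => ∃ R ∈ S, Ψ v = J R) : Finset (Fin n → Pt (a : k) (b : k))) :
        Set (Fin n → Pt (a : k) (b : k))) := by
    ext v
    rw [Finset.coe_filter]
    show ((∀ j s, rep (v (π j)) s = rep (v j) s ^ p) ∧
      ∃ R ∈ S, ∀ s, rep (∑ j, w j • v j) s = f (rep R s)) ↔ (v ∈ G ∧ ∃ R ∈ S, Ψ v = J R)
    rw [hmemG, ← hmem]
    refine and_congr Iff.rfl (exists_congr fun R => and_congr Iff.rfl ?_)
    constructor
    · intro h
      apply crd_inj
      intro s
      rw [hJ, ← rep_eq, ← rep_eq]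
      exact h s
    · intro h s
      rw [← hΨ, h, rep_eq, rep_eq, hJ]
  rw [hset]
  refine ⟨Finset.finite_toSet _, ?_⟩
  rw [Set.ncard_coe_finset]
  have hcount := grp G
    (fun x hx y hy => (hmemG _).2 fun j => by
      rw [Pi.add_apply, Pi.add_apply, map_add, (hmemG x).1 hx, (hmemG y).1 hy])
    (fun x hx y hy => (hmemG _).2 fun j => by
      rw [Pi.sub_apply, Pi.sub_apply, map_sub, (hmemG x).1 hx, (hmemG y).1 hy])
    Ψ J hJinj (fun R _ => J R) (fun R => (hmemG _).2 fun j => (hFJ R).symm) W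
    (fun R => by
      rw [hΨ, ← Finset.sum_smul, hw, map_nsmul]) CW hW S
  have hGc : G.card ≤ 4 ^ n * p ^ n := by
    rw [Set.ncard_eq_toFinset_card _ hG1] at hG2
    exact hG2
  set X := (G.filter (fun v => ∃ R ∈ S, Ψ v = J R)).card with hX
  calc X * p ≤ X * (2 * Nat.card (Pt (a : F) (b : F))) := Nat.mul_le_mul_left _ hp
    _ = 2 * (X * Nat.card (Pt (a : F) (b : F))) := by ring
    _ ≤ 2 * (S.ncard * (CW * G.card)) := Nat.mul_le_mul_left _ hcount
    _ = S.ncard * (2 * CW * G.card) := by ring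
    _ ≤ S.ncard * (2 * CW * (4 ^ n * p ^ n)) := by
        apply Nat.mul_le_mul_left
        apply Nat.mul_le_mul_left
        exact hGc

theorem t_EQV : S_TOR → S_GPI → S_EQV := by
  intro hT hGP D
  choose C hC using fun W : ℕ => hT (W + 1) (by omega)
  set CM := ∑ W ∈ Finset.range D, C W with hCM
  refine ⟨2 * (CM + 1) * 4 ^ D, D + 1, ?_, ?_⟩
  · have h1 : (0 : ℝ) ≤ CM := by positivity
    have h2 : (1 : ℝ) ≤ 4 ^ D := one_le_pow₀ (by norm_num)
    nlinarith
  intro p hp hp1 k _ _ a b hd hpE n hn1 hnD π w hw1 hwD S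
  have hpp : p.Prime := Fact.out
  have hchar : CharP k p := charP_of_injective_algebraMap (algebraMap (ZMod p) k).injective p
  have hdk : Disc (a : k) (b : k) := by
    unfold Disc at hd ⊢
    have h := (algebraMap (ZMod p) k).injective.ne hd
    rw [map_zero, map_mul, map_add, map_mul, map_mul, map_pow, map_pow, map_intCast, map_intCast,
      map_ofNat, map_ofNat, map_ofNat] at h
    exact h
  obtain ⟨W, hW⟩ : ∃ W, W + 1 = ∑ j, w j := by
    have : 1 ≤ ∑ j, w j := by
      have hj : (⟨0, by omega⟩ : Fin n) ∈ Finset.univ := Finset.mem_univ _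
      exact (hw1 _).trans (Finset.single_le_sum (fun i _ => Nat.zero_le (w i)) hj)
    exact ⟨∑ j, w j - 1, by omega⟩
  have hWD : W < D := by omega
  have hCW := (hC W p hpp (by omega) (ZMod p) (a : ZMod p) (b : ZMod p) hd).2
  obtain ⟨hG1, hG2⟩ := hGP n p hpp k a b hdk π
  obtain ⟨h1, h2⟩ := core p a b (algebraMap (ZMod p) k) (fun x => by
    rw [← map_pow, ZMod.pow_card]) hdk (W + 1) (C W) hCW hpE n π w hW.symm hG1 hG2 S
  refine ⟨h1, ?_⟩
  have hp0 : (0 : ℝ) < p := by exact_mod_cast hpp.pos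
  have hCWM : C W ≤ CM := Finset.single_le_sum (fun i _ => Nat.zero_le (C i)) (Finset.mem_range.2 hWD)
  have h3 : ((({v : Fin n → Pt (a : k) (b : k) | (∀ j s, rep (v (π j)) s = rep (v j) s ^ p) ∧
      ∃ R ∈ S, ∀ s, rep (∑ j, w j • v j) s = algebraMap (ZMod p) k (rep R s)}.ncard : ℕ) : ℝ)) * p ≤
      S.ncard * (2 * C W * (4 ^ n * p ^ n)) := by exact_mod_cast h2
  have h4 : ((C W : ℕ) : ℝ) ≤ CM + 1 := by
    have : ((C W : ℕ) : ℝ) ≤ CM := by exact_mod_cast hCWM
    linarith
  have h5 : (4 : ℝ) ^ n ≤ 4 ^ D := pow_le_pow_right₀ (by norm_num) hnD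
  have e : 2 * (CM + 1) * 4 ^ D * ((p : ℝ) ^ n / p) * S.ncard =
      (S.ncard * (2 * (CM + 1) * (4 ^ D * (p : ℝ) ^ n))) / p := by
    field_simp
  rw [e, le_div_iff₀ hp0]
  refine h3.trans ?_
  apply mul_le_mul_of_nonneg_left _ (by positivity)
  have h6 : (0 : ℝ) ≤ (C W : ℝ) := by positivity
  have h7 : (0 : ℝ) ≤ (4 : ℝ) ^ n := by positivity
  have h8 : (0 : ℝ) ≤ (p : ℝ) ^ n := by positivity
  gcongr

end Pool.Agent.N890.DU.EQV
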