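import Pool.Agent.N890.DU.Stm

/-!
Project DU (helper890), task GPI (helper40): the number of the families of points which are permuted
by Frobenius.
-/

set_option autoImplicit false

namespace Pool.Agent.N890.DU.GPI

open WeierstrassCurve Pool.Agent.H901R3.MS Polynomial Pool.Agent.N890.DU

/-- the number of the families of elements permuted by Frobenius -/
theorem fix_card (n p : ℕ) (hp : 2 ≤ p) (k : Type) [Field k] (π : Equiv.Perm (Fin n)) :
    {x : Fin n → k | ∀ j, x (π j) = x j ^ p}.Finite ∧
    {x : Fin n → k | ∀ j, x (π j) = x j ^ p}.ncard ≤ p ^ n := by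
  classical
  set S : Set (Fin n → k) := {x : Fin n → k | ∀ j, x (π j) = x j ^ p} with hS
  set G := Subgroup.zpowers π with hG
  let Ω := Quotient (MulAction.orbitRel G (Fin n))
  let f : Ω → ℕ := fun ω => Function.minimalPeriod π (Quotient.out ω)
  let R : Ω → Finset k := fun ω => (X ^ (p ^ f ω) - X : k[X]).roots.toFinset
  have hpow : ∀ x ∈ S, ∀ (m : ℕ) (j : Fin n), x ((π ^ m) j) = x j ^ (p ^ m) := by
    intro x hx m
    induction m with
    | zero => intro j; simp
    | succ m ih =>
      intro j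
      rw [pow_succ', Equiv.Perm.mul_apply, hx, ih, ← pow_mul, pow_succ]
  have hf : ∀ ω, 0 < f ω := by
    intro ω
    apply Function.minimalPeriod_pos_of_mem_periodicPts
    exact Function.Injective.mem_periodicPts π.injective _
  have hdeg : ∀ ω, (X ^ (p ^ f ω) - X : k[X]).natDegree = p ^ f ω := by
    intro ω
    have h1 : 1 < p ^ f ω := Nat.one_lt_pow (hf ω).ne' (by omega)
    rw [natDegree_sub_eq_left_of_natDegree_lt] <;> simp [h1]
  have hRc : ∀ ω, (R ω).card ≤ p ^ f ω := by
    intro ω
    calc (R ω).card ≤ (X ^ (p ^ f ω) - X : k[X]).roots.card := Multiset.toFinset_card_le _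
      _ ≤ _ := card_roots' _
      _ = _ := hdeg ω
  have hsum : ∑ ω : Ω, f ω = n := by
    have h1 : Fintype.card (Fin n) = Fintype.card (Σ ω : Ω, MulAction.orbit G ω.out) :=
      Fintype.card_congr (MulAction.selfEquivSigmaOrbits G (Fin n))
    rw [Fintype.card_fin, Fintype.card_sigma] at h1
    refine (Finset.sum_congr rfl fun ω _ => ?_).trans h1.symm
    exact MulAction.minimalPeriod_eq_card (a := π) (b := ω.out)
  have hmaps : Set.MapsTo (fun (x : Fin n → k) (ω : Ω) => x ω.out) S
      (Fintype.piFinset R : Set (Ω → k)) := by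
    intro x hx
    rw [Finset.mem_coe, Fintype.mem_piFinset]
    intro ω
    rw [Multiset.mem_toFinset, mem_roots (by
      intro h
      have := hdeg ω
      rw [h, natDegree_zero] at this
      have h1 : 1 < p ^ f ω := Nat.one_lt_pow (hf ω).ne' (by omega)
      omega)]
    have h2 := hpow x hx (f ω) ω.out
    have h3 : (π ^ (f ω)) ω.out = ω.out := by
      have := Function.iterate_minimalPeriod (f := π) (x := ω.out)
      rw [← Equiv.Perm.coe_pow] at this
      exact this
    rw [h3] at h2
    simp [IsRoot.def, ← h2]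
  have hinj : Set.InjOn (fun (x : Fin n → k) (ω : Ω) => x ω.out) S := by
    intro x hx y hy hxy
    ext j
    let ω : Ω := Quotient.mk (MulAction.orbitRel G (Fin n)) j
    have hmem : j ∈ MulAction.orbit G ω.out := by
      have h : (MulAction.orbitRel G (Fin n)) ω.out j := Quotient.mk_out j
      exact MulAction.orbitRel_apply.1 ((MulAction.orbitRel G (Fin n)).symm h)
    obtain ⟨⟨g, hg⟩, hgj⟩ := hmem
    have hg' : g ∈ Submonoid.powers π := mem_powers_iff_mem_zpowers.2 hg
    obtain ⟨m, rfl⟩ := hg'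
    have h4 : (π ^ m) ω.out = j := hgj
    rw [← h4, hpow x hx, hpow y hy]
    congr 1
    exact congrFun hxy ω
  refine ⟨Set.Finite.of_injOn hmaps hinj (Finset.finite_toSet _), ?_⟩
  calc S.ncard ≤ (Fintype.piFinset R : Set (Ω → k)).ncard :=
        Set.ncard_le_ncard_of_injOn _ hmaps hinj (Finset.finite_toSet _)
    _ = ∏ ω, (R ω).card := by rw [Set.ncard_coe_finset, Fintype.card_piFinset]
    _ ≤ ∏ ω, p ^ f ω := Finset.prod_le_prod' fun ω _ => hRc ω
    _ = p ^ n := by rw [Finset.prod_pow_eq_pow_sum, hsum]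

section code
variable {k : Type} [Field k] {a b : k}

/-- a square root of `x ^ 3 + a x + b` -/
noncomputable def yy (a b x : k) : k := by
  classical exact if h : ∃ y : k, y ^ 2 = x ^ 3 + a * x + b then h.choose else 0

theorem yy_spec {a b x y : k} (h : y ^ 2 = x ^ 3 + a * x + b) :
    yy a b x ^ 2 = x ^ 3 + a * x + b := by
  have h' : ∃ y : k, y ^ 2 = x ^ 3 + a * x + b := ⟨y, h⟩
  unfold yy
  rw [dif_pos h']
  exact h'.choose_spec

/-- is the point affine? -/
def aff : Pt a b → Bool
  | Affine.Point.zero => false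
  | Affine.Point.some _ _ _ => true

/-- the first coordinate -/
def xc : Pt a b → k
  | Affine.Point.zero => 0
  | Affine.Point.some x _ _ => x

open scoped Classical in
/-- the sign of the second coordinate -/
noncomputable def sg : Pt a b → Bool
  | Affine.Point.zero => false
  | Affine.Point.some x y _ => decide (y = yy a b x)

theorem code_inj (P Q : Pt a b) (h1 : aff P = aff Q) (h2 : xc P = xc Q) (h3 : sg P = sg Q) :
    P = Q := by
  rcases P with _ | ⟨x, y, hxy⟩ <;> rcases Q with _ | ⟨x', y', hxy'⟩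
  · rfl
  · simp [aff] at h1
  · simp [aff] at h1
  · simp only [xc] at h2
    subst h2
    simp only [sg, decide_eq_decide] at h3
    have e1 : y ^ 2 = x ^ 3 + a * x + b := eqn_of hxy
    have e2 : y' ^ 2 = x ^ 3 + a * x + b := eqn_of hxy'
    have e3 := yy_spec e1
    have hyy : y = y' := by
      by_cases h : y = yy a b x
      · rw [h, h3.1 h]
      · have h' : ¬ y' = yy a b x := fun h' => h (h3.2 h')
        have f1 := (sq_eq_sq_iff_eq_or_eq_neg.1 (e1.trans e3.symm)).resolve_left h
        have f2 := (sq_eq_sq_iff_eq_or_eq_neg.1 (e2.trans e3.symm)).resolve_left h'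
        rw [f1, f2]
    subst hyy
    rfl

end code

theorem t_GPI : S_GPI := by
  intro n p hp k _ _ a b _ π
  classical
  set S : Set (Fin n → Pt (a : k) (b : k)) :=
    {v | ∀ j s, rep (v (π j)) s = rep (v j) s ^ p} with hS
  obtain ⟨hXf, hXc⟩ := fix_card n p hp.two_le k π
  set X : Set (Fin n → k) := {x : Fin n → k | ∀ j, x (π j) = x j ^ p} with hX
  let Φ : (Fin n → Pt (a : k) (b : k)) → (Fin n → Bool) × (Fin n → k) × (Fin n → Bool) :=
    fun v => (fun j => aff (v j), fun j => xc (v j), fun j => sg (v j))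
  have hmaps : Set.MapsTo Φ S (Set.univ ×ˢ (X ×ˢ Set.univ)) := by
    intro v hv
    refine ⟨Set.mem_univ _, ?_, Set.mem_univ _⟩
    intro j
    have h := hv j 0
    simp only [Φ]
    have hx0 : ∀ P : Pt (a : k) (b : k), xc P = rep P 0 := by
      intro P
      rcases P with _ | ⟨x, y, hxy⟩
      · rfl
      · rfl
    rw [hx0, hx0, h]
  have hinj : Set.InjOn Φ S := by
    intro v _ w _ h
    simp only [Φ, Prod.mk.injEq] at h
    obtain ⟨h1, h2, h3⟩ := h
    ext1 j
    exact code_inj _ _ (congrFun h1 j) (congrFun h2 j) (congrFun h3 j)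
  have hfin : (Set.univ ×ˢ (X ×ˢ Set.univ) :
      Set ((Fin n → Bool) × (Fin n → k) × (Fin n → Bool))).Finite :=
    Set.finite_univ.prod (hXf.prod Set.finite_univ)
  refine ⟨Set.Finite.of_injOn hmaps hinj hfin, ?_⟩
  calc S.ncard ≤ _ := Set.ncard_le_ncard_of_injOn _ hmaps hinj hfin
    _ = 2 ^ n * (X.ncard * 2 ^ n) := by
        rw [Set.ncard_prod, Set.ncard_prod, Set.ncard_univ, Nat.card_eq_fintype_card]
        simp
    _ ≤ 2 ^ n * (p ^ n * 2 ^ n) := by gcongr
    _ = 4 ^ n * p ^ n := by
        rw [show (4 : ℕ) = 2 * 2 by norm_num, mul_pow]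
        ring

end Pool.Agent.N890.DU.GPI
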