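import Pool.Agent.N890.DU.Stm
import Pool.Agent.N890.FD.Hyp

/-! Project DU (helper890): hypersurfaces over rings of integers modulo large primes. -/

set_option autoImplicit false

namespace Pool.Agent.N890.DU

open NumberField MvPolynomial

open scoped LinearAlgebra.Projectivization

/-- a hypersurface over `𝓞 K` modulo large primes -/
theorem hyp_countK {K : Type} [Field K] [NumberField K] (n g : ℕ)
    (f : MvPolynomial (Fin (n + 2)) (𝓞 K)) (hf : f.IsHomogeneous g)
    (hf0 : f ≠ 0) : ∃ p₁ : ℕ, ∀ (p : ℕ) [Fact p.Prime], p₁ ≤ p →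
    ∀ (k : Type) [Field k] [Fintype k] [Algebra (ZMod p) k] (χ : 𝓞 K →+* k),
    (({P : ℙ k (Fin (n + 2) → k) | eval₂ χ P.rep f = 0}.ncard : ℕ) : ℝ) ≤
      2 * g * (Fintype.card k : ℝ) ^ n := by
  obtain ⟨x, hx⟩ := MvPolynomial.support_nonempty.2 hf0
  set y := coeff x f with hy
  have hy0 : y ≠ 0 := mem_support_iff.1 hx
  set N := Ideal.absNorm (Ideal.span {y}) with hN
  have hN0 : N ≠ 0 := by
    rw [hN, Ne, Ideal.absNorm_eq_zero_iff]
    simpa using hy0
  obtain ⟨z, hz⟩ : y ∣ (N : 𝓞 K) := by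
    rw [← Ideal.mem_span_singleton]
    exact Ideal.absNorm_mem _
  refine ⟨N + 1, fun p _ hp k _ _ _ χ => ?_⟩
  have hchar : CharP k p := by
    have := ZMod.charP p
    exact charP_of_injective_algebraMap (algebraMap (ZMod p) k).injective p
  have h1 : map χ f ≠ 0 := by
    intro h
    have h2 : coeff x (map χ f) = 0 := by rw [h, coeff_zero]
    rw [coeff_map, ← hy] at h2
    have h3 : χ (N : 𝓞 K) = 0 := by rw [hz, map_mul, h2, zero_mul]
    rw [map_natCast, CharP.cast_eq_zero_iff k p] at h3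
    have h4 := Nat.le_of_dvd (Nat.pos_of_ne_zero hN0) h3
    omega
  have h2 := Pool.Agent.N890.FD.hyp_count_field n g (map χ f) (hf.map _) h1
  refine le_trans (le_of_eq ?_) h2
  congr 2
  ext P
  simp only [Set.mem_ofPred_eq]
  rw [eval_map]

end Pool.Agent.N890.DU
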