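import Pool.Agent.N890.DU.Stm

/-!
Project DU (helper890), piece IND: different points impose independent conditions (helper297)
-/

set_option autoImplicit false

namespace Pool.Agent.N890.DU.IND

open NumberField Pool.Agent.N89.CI Pool.Agent.N890.DU MvPolynomial Module

/-- solutions over the prime field of independent equations over an extension -/
theorem cnt {p : ℕ} [Fact p.Prime] {k : Type} [Field k] [Algebra (ZMod p) k] {W J : Type}
    [Fintype W] [Fintype J] (v : J → W → k) (hv : LinearIndependent k v) :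
    {c : W → ZMod p | ∀ j, ∑ x, algebraMap (ZMod p) k (c x) * v j x = 0}.ncard *
      p ^ Fintype.card J ≤ p ^ Fintype.card W := by
  classical
  let Ψ : (W → ZMod p) →ₗ[ZMod p] (J → k) :=
    { toFun := fun c j => ∑ x, algebraMap (ZMod p) k (c x) * v j x
      map_add' := by
        intro c c'
        funext j
        simp only [Pi.add_apply, map_add, add_mul, Finset.sum_add_distrib]
      map_smul' := by
        intro a c
        funext j
        simp only [Pi.smul_apply, smul_eq_mul, map_mul, RingHom.id_apply,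
          Algebra.smul_def, mul_assoc, Finset.mul_sum] }
  have hcol : ∀ x : W, (fun j => v j x) ∈ LinearMap.range Ψ := by
    intro x
    refine ⟨Pi.single x 1, ?_⟩
    funext j
    show ∑ y, algebraMap (ZMod p) k ((Pi.single x 1 : W → ZMod p) y) * v j y = v j x
    rw [Finset.sum_eq_single x]
    · rw [Pi.single_eq_same, map_one, one_mul]
    · intro y _ hy
      rw [Pi.single_eq_of_ne hy, map_zero, zero_mul]
    · intro h
      exact absurd (Finset.mem_univ x) h
  -- the columns span
  have hspan : Submodule.span k (Set.range fun x : W => fun j => v j x) = ⊤ := by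
    by_contra h
    obtain ⟨f, hf0, hf⟩ := Submodule.exists_le_ker_of_lt_top _ (lt_top_iff_ne_top.2 h)
    apply hf0
    have h1 : ∀ w : J → k, f w = ∑ j, w j * f (Pi.single j 1) := by
      intro w
      rw [LinearMap.pi_apply_eq_sum_univ f w]
      refine Finset.sum_congr rfl fun j _ => ?_
      rw [smul_eq_mul]
      congr 2
      funext i
      simp [Pi.single_apply, eq_comm]
    have h2 := Fintype.linearIndependent_iff.1 hv (fun j => f (Pi.single j 1)) (by
      funext x
      rw [Finset.sum_apply, Pi.zero_apply]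
      have h3 : f (fun j => v j x) = 0 := hf (Submodule.subset_span ⟨x, rfl⟩)
      rw [h1] at h3
      rw [← h3]
      refine Finset.sum_congr rfl fun j _ => ?_
      rw [Pi.smul_apply, smul_eq_mul, mul_comm])
    refine LinearMap.ext fun w => ?_
    rw [h1 w, LinearMap.zero_apply]
    exact Finset.sum_eq_zero fun j _ => by rw [h2 j, mul_zero]
  -- the dimension of the range
  have hrank : Fintype.card J ≤ finrank (ZMod p) (LinearMap.range Ψ) := by
    let b := Module.finBasis (ZMod p) (LinearMap.range Ψ)
    have hb : Submodule.span k (Set.range fun i => ((b i : LinearMap.range Ψ) : J → k)) = ⊤ := by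
      rw [eq_top_iff, ← hspan, Submodule.span_le]
      rintro _ ⟨x, rfl⟩
      have h1 := b.sum_repr ⟨_, hcol x⟩
      have h2 := congrArg (fun z : LinearMap.range Ψ => (z : J → k)) h1
      simp only [Submodule.coe_sum, Submodule.coe_smul] at h2
      show (fun j => v j x) ∈ Submodule.span k _
      rw [← h2]
      refine Submodule.sum_mem _ fun i _ => ?_
      have h3 : ∀ (a : ZMod p) (w : J → k), a • w = algebraMap (ZMod p) k a • w := by
        intro a w
        funext j
        rw [Pi.smul_apply, Pi.smul_apply, Algebra.smul_def, smul_eq_mul]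
      rw [h3]
      exact Submodule.smul_mem _ _ (Submodule.subset_span ⟨i, rfl⟩)
    have h4 := finrank_le_of_span_eq_top hb
    rwa [Module.finrank_fintype_fun_eq_card, Fintype.card_fin] at h4
  have hker : {c : W → ZMod p | ∀ j, ∑ x, algebraMap (ZMod p) k (c x) * v j x = 0}.ncard =
      p ^ finrank (ZMod p) (LinearMap.ker Ψ) := by
    have h1 : {c : W → ZMod p | ∀ j, ∑ x, algebraMap (ZMod p) k (c x) * v j x = 0} =
        (LinearMap.ker Ψ : Set (W → ZMod p)) := by
      ext c
      simp only [Set.mem_ofPred_eq, SetLike.mem_coe, LinearMap.mem_ker]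
      constructor
      · intro h
        funext j
        exact h j
      · intro h j
        exact congrFun h j
    rw [h1]
    have h2 := Module.natCard_eq_pow_finrank (K := ZMod p) (V := LinearMap.ker Ψ)
    rw [Nat.card_zmod] at h2
    rw [← h2]
    rfl
  rw [hker, ← pow_add]
  apply Nat.pow_le_pow_right (Fact.out : p.Prime).pos
  have h5 := LinearMap.finrank_range_add_finrank_ker Ψ
  rw [Module.finrank_fintype_fun_eq_card] at h5
  omega

/-- Dedekind's independence of characters, with repetitions -/
theorem dede {R k : Type} [CommRing R] [Field k] {n : ℕ} (χ : Fin n → (R →+* k)) (μ : Fin n → k)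
    (h : ∀ a : R, ∑ j, μ j * χ j a = 0) (j₀ : Fin n) [DecidableEq (R →+* k)] :
    ∑ j, (if χ j = χ j₀ then μ j else 0) = 0 := by
  classical
  have hli := linearIndependent_monoidHom R k
  let F : (R →* k) →₀ k := ∑ j, Finsupp.single ((χ j : R →+* k) : R →* k) (μ j)
  have hF : F = 0 := by
    apply hli
    rw [map_zero]
    show Finsupp.linearCombination k _ (∑ j, Finsupp.single ((χ j : R →+* k) : R →* k) (μ j)) = 0
    rw [map_sum]
    funext a
    rw [Finset.sum_apply, Pi.zero_apply, ← h a]
    refine Finset.sum_congr rfl fun j _ => ?_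
    rw [Finsupp.linearCombination_single, Pi.smul_apply, smul_eq_mul]
    rfl
  have h1 : F ((χ j₀ : R →+* k) : R →* k) = 0 := by rw [hF]; rfl
  refine Eq.trans ?_ h1
  show _ = (∑ j, Finsupp.single ((χ j : R →+* k) : R →* k) (μ j)) ((χ j₀ : R →+* k) : R →* k)
  rw [Finsupp.finsetSum_apply]
  refine Finset.sum_congr rfl fun j _ => ?_
  rw [Finsupp.single_apply]
  have h2 : ((χ j : R →+* k) : R →* k) = ((χ j₀ : R →+* k) : R →* k) ↔ χ j = χ j₀ := by
    constructor
    · intro h3
      ext a
      exact DFunLike.congr_fun h3 a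
    · intro h3
      rw [h3]
  by_cases h3 : χ j = χ j₀
  · rw [if_pos h3, if_pos (h2.2 h3)]
  · rw [if_neg h3, if_neg fun h4 => h3 (h2.1 h4)]

/-- a form which does not vanish at the point `j₀` and vanishes at all points which are different
from it -/
theorem one_form {k : Type} [Field k] {m n : ℕ} (P : Fin n → Fin (m + 1) → k)
    (j₀ : Fin n) (h0 : P j₀ ≠ 0) (e : ℕ) (he : n ≤ e + 1) :
    ∃ G : MvPolynomial (Fin (m + 1)) k, G.IsHomogeneous e ∧ eval (P j₀) G ≠ 0 ∧
      ∀ j, (∀ u : k, ¬ ∀ x, P j₀ x = u * P j x) → (P j ≠ 0) → eval (P j) G = 0 := by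
  classical
  obtain ⟨s, hs⟩ : ∃ s, P j₀ s ≠ 0 := by
    by_contra h
    push Not at h
    exact h0 (funext h)
  -- linear forms
  have h1 : ∀ j, ∃ ℓ : MvPolynomial (Fin (m + 1)) k, ℓ.IsHomogeneous 1 ∧
      eval (P j₀) ℓ ≠ 0 ∧ ((∀ u : k, ¬ ∀ x, P j₀ x = u * P j x) → P j ≠ 0 →
        eval (P j) ℓ = 0) := by
    intro j
    by_cases hj : (∀ u : k, ¬ ∀ x, P j₀ x = u * P j x) ∧ P j ≠ 0
    · obtain ⟨hj1, hj2⟩ := hj
      obtain ⟨y, hy⟩ : ∃ y, P j y ≠ 0 := by
        by_contra h
        push Not at h
        exact hj2 (funext h)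
      have h2 := hj1 (P j₀ y / P j y)
      push Not at h2
      obtain ⟨x, hx⟩ := h2
      refine ⟨C (P j y) * X x - C (P j x) * X y,
        (isHomogeneous_C_mul_X _ _).sub (isHomogeneous_C_mul_X _ _), ?_, ?_⟩
      · simp only [map_sub, map_mul, eval_C, eval_X]
        intro h3
        apply hx
        field_simp
        linear_combination h3
      · intro _ _
        simp only [map_sub, map_mul, eval_C, eval_X]
        ring
    · refine ⟨X s, isHomogeneous_X k s, ?_, fun h2 h3 => absurd ⟨h2, h3⟩ hj⟩
      rw [eval_X]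
      exact hs
  choose ℓ hℓ1 hℓ2 hℓ3 using h1
  refine ⟨(∏ j ∈ Finset.univ.erase j₀, ℓ j) * X s ^ (e - (n - 1)), ?_, ?_, ?_⟩
  · have h2 := IsHomogeneous.prod (Finset.univ.erase j₀) ℓ (fun _ => 1) (fun j _ => hℓ1 j)
    rw [Finset.sum_const, Finset.card_erase_of_mem (Finset.mem_univ _), Finset.card_univ,
      Fintype.card_fin, smul_eq_mul, mul_one] at h2
    have h3 := h2.mul ((isHomogeneous_X k s).pow (e - (n - 1)))
    have h4 : n - 1 + 1 * (e - (n - 1)) = e := by omega
    rwa [h4] at h3
  · rw [map_mul, map_pow, eval_X, map_prod]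
    exact mul_ne_zero (Finset.prod_ne_zero_iff.2 fun j _ => hℓ2 j) (pow_ne_zero _ hs)
  · intro j hj hj0
    have hne : j ≠ j₀ := by
      rintro rfl
      exact hj 1 fun x => by rw [one_mul]
    rw [map_mul, map_prod, Finset.prod_eq_zero (Finset.mem_erase.2 ⟨hne, Finset.mem_univ _⟩)
      (hℓ3 j hj hj0), zero_mul]

/-- the value of a monomial -/
def EM {k : Type} [Field k] {r m e : ℕ} {d : Fin r → ℕ} (V : Fin r → Fin 3 → k)
    (T : Fin (m + 1) → k) (s : MonT m e × MonV d) : k :=
  (∏ i, ∏ x, V i x ^ (s.2 i).1 x) * ∏ x, T x ^ s.1.1 x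

theorem prod_form {k : Type} [Field k] {r m e : ℕ} {d : Fin r → ℕ}
    (G : Fin r → MvPolynomial (Fin 3) k) (hG : ∀ i, (G i).IsHomogeneous (d i))
    (H : MvPolynomial (Fin (m + 1)) k) (hH : H.IsHomogeneous e) (V : Fin r → Fin 3 → k)
    (T : Fin (m + 1) → k) :
    ∑ s : MonT m e × MonV d, ((∏ i, coeff (Finsupp.equivFunOnFinite.symm (s.2 i).1) (G i)) *
      coeff (Finsupp.equivFunOnFinite.symm s.1.1) H) * EM V T s =
      (∏ i, eval (V i) (G i)) * eval T H := by
  classical
  rw [eval_homog H hH T]
  have h1 : ∀ i, eval (V i) (G i) = ∑ α : MonT 2 (d i),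
      coeff (Finsupp.equivFunOnFinite.symm α.1) (G i) * ∏ x, V i x ^ α.1 x :=
    fun i => eval_homog (m := 2) (G i) (hG i) (V i)
  rw [Finset.prod_congr rfl fun i _ => h1 i, Finset.prod_univ_sum, Finset.sum_mul_sum,
    Fintype.piFinset_univ, Fintype.sum_prod_type, Finset.sum_comm]
  refine Finset.sum_congr rfl fun a _ => Finset.sum_congr rfl fun b _ => ?_
  unfold EM
  rw [Finset.prod_mul_distrib]
  ring

/-- IND -/
theorem t_IND : S_IND := by
  classical
  intro K _ _ r m s n n₀ p _ d e hd he ω k _ _ _ χ V T hV hT hdiff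
  let v : Fin s × Fin n → Idx m d e × Fin n₀ → k := fun lj x =>
    if x.1.1 = lj.1 then EM (V lj.2) (T lj.2) x.1.2 * χ lj.2 (ω x.2) else 0
  have hv : LinearIndependent k v := by
    rw [Fintype.linearIndependent_iff]
    intro g hg
    rintro ⟨l, j₀⟩
    -- the relation for fixed `l` and monomial
    have h1 : ∀ (t : MonT m (e l) × MonV (d l)) (i : Fin n₀),
        ∑ j, (g (l, j) * EM (V j) (T j) t) * χ j (ω i) = 0 := by
      intro t i
      have h2 := congrFun hg (⟨l, t⟩, i)
      rw [Finset.sum_apply, Pi.zero_apply, Fintype.sum_prod_type,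
        Finset.sum_eq_single l] at h2
      · refine Eq.trans ?_ h2
        refine Finset.sum_congr rfl fun j _ => ?_
        rw [Pi.smul_apply, smul_eq_mul]
        show _ = g (l, j) * (if l = l then EM (V j) (T j) t * χ j (ω i) else 0)
        rw [if_pos rfl]
        ring
      · intro l' _ hl'
        refine Finset.sum_eq_zero fun j _ => ?_
        rw [Pi.smul_apply, smul_eq_mul]
        show g (l', j) * (if l = l' then EM (V j) (T j) t * χ j (ω i) else 0) = 0
        rw [if_neg (Ne.symm hl'), mul_zero]
      · intro h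
        exact absurd (Finset.mem_univ l) h
    have h3 : ∀ (t : MonT m (e l) × MonV (d l)) (a : 𝓞 K),
        ∑ j, (g (l, j) * EM (V j) (T j) t) * χ j a = 0 := by
      intro t a
      have h4 := ω.sum_repr a
      have h5 : ∀ j, χ j a = ∑ i, (ω.repr a i : k) * χ j (ω i) := by
        intro j
        conv_lhs => rw [← h4]
        rw [map_sum]
        refine Finset.sum_congr rfl fun i _ => ?_
        rw [zsmul_eq_mul, map_mul, map_intCast]
      simp only [h5, Finset.mul_sum]
      rw [Finset.sum_comm]
      refine Finset.sum_eq_zero fun i _ => ?_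
      have h6 : ∑ j, (g (l, j) * EM (V j) (T j) t) * ((ω.repr a i : k) * χ j (ω i)) =
          (ω.repr a i : k) * ∑ j, (g (l, j) * EM (V j) (T j) t) * χ j (ω i) := by
        rw [Finset.mul_sum]
        exact Finset.sum_congr rfl fun j _ => by ring
      rw [h6, h1, mul_zero]
    have h4 : ∀ t : MonT m (e l) × MonV (d l),
        ∑ j, (if χ j = χ j₀ then g (l, j) * EM (V j) (T j) t else 0) = 0 :=
      fun t => dede χ _ (h3 t) j₀
    -- the form
    have h5 : ∀ i, ∃ G : MvPolynomial (Fin 3) k, G.IsHomogeneous (d l i) ∧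
        eval (V j₀ i) G ≠ 0 ∧ ∀ j, (∀ u : k, ¬ ∀ x, V j₀ i x = u * V j i x) → V j i ≠ 0 →
          eval (V j i) G = 0 :=
      fun i => one_form (m := 2) (fun j => V j i) j₀ (hV j₀ i) (d l i) (hd l i)
    choose G hG1 hG2 hG3 using h5
    obtain ⟨H, hH1, hH2, hH3⟩ := one_form T j₀ (hT j₀) (e l) (he l)
    have h6 : ∑ j, (if χ j = χ j₀ then g (l, j) *
        ((∏ i, eval (V j i) (G i)) * eval (T j) H) else 0) = 0 := by
      have h7 : ∑ t : MonT m (e l) × MonV (d l),
          ((∏ i, coeff (Finsupp.equivFunOnFinite.symm (t.2 i).1) (G i)) *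
            coeff (Finsupp.equivFunOnFinite.symm t.1.1) H) *
          ∑ j, (if χ j = χ j₀ then g (l, j) * EM (V j) (T j) t else 0) = 0 :=
        Finset.sum_eq_zero fun t _ => by rw [h4 t, mul_zero]
      refine Eq.trans ?_ h7
      simp only [Finset.mul_sum]
      rw [Finset.sum_comm]
      refine Finset.sum_congr rfl fun j _ => ?_
      by_cases hj : χ j = χ j₀
      · simp only [if_pos hj]
        rw [← prod_form G hG1 H hH1 (V j) (T j), Finset.mul_sum]
        exact Finset.sum_congr rfl fun t _ => by ring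
      · simp only [if_neg hj, mul_zero, Finset.sum_const_zero]
    rw [Finset.sum_eq_single j₀] at h6
    · rw [if_pos rfl] at h6
      have h7 : (∏ i, eval (V j₀ i) (G i)) * eval (T j₀) H ≠ 0 :=
        mul_ne_zero (Finset.prod_ne_zero_iff.2 fun i _ => hG2 i) hH2
      exact (mul_eq_zero.1 h6).resolve_right h7
    · intro j _ hj
      by_cases hχ : χ j = χ j₀
      · rw [if_pos hχ]
        have h8 : (∏ i, eval (V j i) (G i)) * eval (T j) H = 0 := by
          by_cases hall : ∀ i, ∃ u : k, ∀ x, V j₀ i x = u * V j i x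
          · rw [hH3 j (hdiff j j₀ hj hχ hall) (hT j), mul_zero]
          · push Not at hall
            obtain ⟨i, hi⟩ := hall
            rw [Finset.prod_eq_zero (Finset.mem_univ i) (hG3 i j (by
              intro u hu
              obtain ⟨x, hx⟩ := hi u
              exact hx (hu x)) (hV j i)), zero_mul]
        rw [h8, mul_zero]
      · rw [if_neg hχ]
    · intro h
      exact absurd (Finset.mem_univ j₀) h
  have hc := cnt (p := p) v hv
  have hset : {c : Idx m d e × Fin n₀ → ZMod p | ∀ (l : Fin s) (j : Fin n),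
      valP (χ j) (gen (𝓞 K) m d e l) (V j) (T j) (par (χ j) ω c) = 0} =
      {c : Idx m d e × Fin n₀ → ZMod p | ∀ lj, ∑ x, algebraMap (ZMod p) k (c x) * v lj x = 0} := by
    ext c
    simp only [Set.mem_ofPred_eq, Prod.forall]
    refine forall_congr' fun l => forall_congr' fun j => ?_
    have h1 : valP (χ j) (gen (𝓞 K) m d e l) (V j) (T j) (par (χ j) ω c) =
        ∑ x, algebraMap (ZMod p) k (c x) * v (l, j) x := by
      have h2 : ∑ x, algebraMap (ZMod p) k (c x) * v (l, j) x =
          ∑ t : MonT m (e l) × MonV (d l), ∑ i, algebraMap (ZMod p) k (c (⟨l, t⟩, i)) *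
            (EM (V j) (T j) t * χ j (ω i)) := by
        rw [Fintype.sum_prod_type, Fintype.sum_sigma, Finset.sum_eq_single l]
        · refine Finset.sum_congr rfl fun t _ => Finset.sum_congr rfl fun i _ => ?_
          show algebraMap (ZMod p) k (c (⟨l, t⟩, i)) *
            (if l = l then EM (V j) (T j) t * χ j (ω i) else 0) = _
          rw [if_pos rfl]
        · intro l' _ hl'
          refine Finset.sum_eq_zero fun t _ => Finset.sum_eq_zero fun i _ => ?_
          show algebraMap (ZMod p) k (c (⟨l', t⟩, i)) *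
            (if l' = l then EM (V j) (T j) t * χ j (ω i) else 0) = 0
          rw [if_neg hl', mul_zero]
        · intro h
          exact absurd (Finset.mem_univ l) h
      rw [h2, valP_gen]
      unfold form par
      refine Finset.sum_congr rfl fun t _ => ?_
      rw [Finset.sum_mul]
      refine Finset.sum_congr rfl fun i _ => ?_
      unfold EM
      ring
    rw [h1]
  rw [hset]
  rwa [Fintype.card_prod, Fintype.card_prod, Fintype.card_fin, Fintype.card_fin,
    Fintype.card_fin] at hc

end Pool.Agent.N890.DU.IND
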