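import Pool.Agent.N890.DU.Stm
import Pool.Agent.Y213.CT.All
import Pool.Agent.Y213.CT.Desc

/-!
Project DU, LCF: corestriction to `ℚ` of a Selmer class over a number field `F`.
-/

set_option autoImplicit false

namespace Pool.Agent.N890.DU.LCF

open NumberField WeierstrassCurve IsDedekindDomain Pool.Agent.TH942 Pool.Agent.TH954
open Pool.Agent.H901R3.MS Pool.Agent.N89.CI Pool.Agent.N890.FD Pool.Agent.N890.US
open Pool.Agent.N890.DU
open Pool.Agent.Y213.CT
open Pool.Agent.Y213.T6 (loc_valG bc_eq shortInt_sw)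

section one

variable {K F : Type} [Field K] [NumberField K] [Field F] [NumberField F] [Algebra K F]
  [FiniteDimensional K F]

open scoped Classical in
/-- `loc_cor` of the library with given places and embeddings -/
theorem loc_cor' (hgal : StGal) (huni : StUni) (a b : K) (hd : Disc a b)
    (v : HeightOneSpectrum (𝓞 K))
    (ι : AlgebraicClosure K →ₐ[K] AlgebraicClosure (v.adicCompletion K))
    (ιw : ∀ w : HeightOneSpectrum (𝓞 F),
      AlgebraicClosure F →ₐ[F] AlgebraicClosure (w.adicCompletion F))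
    (w : Emb K F → HeightOneSpectrum (𝓞 F))
    (κ : ∀ ε, (w ε).adicCompletion F →+* AlgebraicClosure (v.adicCompletion K))
    (hκ : ∀ ε, Good v (w ε) (κ ε))
    (hκF : ∀ (ε : Emb K F) (x : F), κ ε (algebraMap F ((w ε).adicCompletion F) x) = ι (ε x)) :
    ∃ (Jκ : ∀ ε, ((EF a b F).baseChange ((w ε).adicCompletion F)).toAffine.Point →+
        AlgPt (sw a b) (v.adicCompletion K)),
      (∀ ε, MapsTo (κ ε) (Jκ ε)) ∧
      ∀ (ξ : (AlgebraicClosure F ≃ₐ[F] AlgebraicClosure F) → AlgPt (EF a b F) F)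
        (_ : ∀ σ τ, ξ (σ * τ) = ξ σ + act (EF a b F) σ (ξ τ))
        (Q : ∀ w : HeightOneSpectrum (𝓞 F), AlgPt (EF a b F) (w.adicCompletion F))
        (_ : ∀ w σ τ, Compat (ιw w) σ τ → pm (EF a b F) (ιw w) (ξ τ) =
          act (EF a b F) σ (Q w) - Q w)
        (N : ℕ) (_ : ∀ σ, N • ξ σ = 0)
        (x : ∀ w : HeightOneSpectrum (𝓞 F),
          ((EF a b F).baseChange (w.adicCompletion F)).toAffine.Point)
        (_ : ∀ w, N • Q w = incl (EF a b F) (w.adicCompletion F) (x w)),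
        ∃ R : AlgPt (sw a b) (v.adicCompletion K),
          (∀ σ g, Compat ι σ g → pm (sw a b) ι (CC a b hd ξ g) = act (sw a b) σ R - R) ∧
          N • R = ∑ ε, Jκ ε (x (w ε)) := by
  choose ψ hψ using fun ε => exists_psi (κ ε)
  have hκa : ∀ ε, ∀ x : K, κ ε (algebraMap F ((w ε).adicCompletion F) (algebraMap K F x)) =
      algebraMap K (AlgebraicClosure (v.adicCompletion K)) x := fun ε x => by
    rw [hκF, ε.commutes, ι.commutes]
  have hψa : ∀ ε, ∀ x : K, ψ ε (algebraMap F (AlgebraicClosure ((w ε).adicCompletion F))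
      (algebraMap K F x)) = algebraMap K (AlgebraicClosure (v.adicCompletion K)) x := fun ε x => by
    rw [IsScalarTower.algebraMap_apply F ((w ε).adicCompletion F)
      (AlgebraicClosure ((w ε).adicCompletion F)), hψ, hκa]
  have h2 : ∀ ε, ∃ J : ((EF a b F).baseChange ((w ε).adicCompletion F)).toAffine.Point →+
      AlgPt (sw a b) (v.adicCompletion K), MapsTo (κ ε) J := fun ε =>
    exists_mapsTo _ _ (bc_eq _ _ _) (bc_eq _ _ _) _ (hκa ε a) (hκa ε b)
      (disc_mp (algebraMap K _) hd)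
  have h3 : ∀ ε, ∃ J : AlgPt (EF a b F) ((w ε).adicCompletion F) →+
      AlgPt (sw a b) (v.adicCompletion K), MapsTo (ψ ε) J := fun ε =>
    exists_mapsTo _ _ (bc_eq _ _ _) (bc_eq _ _ _) _ (hψa ε a) (hψa ε b)
      (disc_mp (algebraMap K _) hd)
  choose Jκ hJκ using h2
  choose Jψ hJψ using h3
  have h4 : ∀ ε, ∃ u : AlgebraicClosure F ≃ₐ[F] AlgebraicClosure F, ∀ z,
      ψ ε (ιw (w ε) z) = ι (TT ε (u z)) := fun ε =>
    gal_of_two ((ψ ε).comp (ιw (w ε) : AlgebraicClosure F →+* _))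
      ((ι : AlgebraicClosure K →+* _).comp (TT ε : AlgebraicClosure F →+* AlgebraicClosure K))
      (fun x => by
        change ψ ε (ιw (w ε) (algebraMap F (AlgebraicClosure F) x)) =
          ι (TT ε (algebraMap F (AlgebraicClosure F) x))
        rw [TT_apply, ← hκF, (ιw (w ε)).commutes,
          IsScalarTower.algebraMap_apply F ((w ε).adicCompletion F)
          (AlgebraicClosure ((w ε).adicCompletion F)), hψ])
  choose u hu using h4
  refine ⟨Jκ, hJκ, ?_⟩
  intro ξ hξ Q hloc N hN x hx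
  refine ⟨∑ ε, (Jψ ε (Q (w ε)) - pm (sw a b) ι (JJ a b hd ε (ξ (u ε)))), ?_, ?_⟩
  · intro σ g hσg
    refine cor_local op op_bij hh (JJ a b hd) ξ (pm (sw a b) ι) (actH (sw a b) σ) g _ ?_
    intro ε
    have hw := huni K F v (w ε) (w (op g ε))
      ((σ : AlgebraicClosure (v.adicCompletion K) →+* AlgebraicClosure (v.adicCompletion K)).comp
        (κ ε)) (κ (op g ε)) (hgal K F v (w ε) (κ ε) σ (hκ ε)) (hκ (op g ε)) (fun x => by
          change σ (κ ε _) = κ (op g ε) _
          rw [hκF, hκF, op_apply]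
          exact (hσg _).symm)
    refine loc_abs (actH (EF a b F)) ξ hξ (JJ a b hd ε) (JJ a b hd (op g ε)) (hh g ε)
      (actH (sw a b) g) (fun x => JJ_hh a b hd g ε x) (pm (sw a b) ι) (actH (sw a b) σ)
      (fun P => (act_pm ι hσg P).symm) (u ε) (u (op g ε)) (Jψ ε (Q (w ε)))
      (Jψ (op g ε) (Q (w (op g ε)))) ?_ ?_
    · intro P
      refine mapsTo_sq (act_mapsTo _ _) (act_mapsTo _ _) (act_mapsTo _ _) (act_mapsTo _ _) ?_ P
      intro z
      change (u (op g ε)) (((u (op g ε))⁻¹ * hh g ε * u ε) z) = hh g ε (u ε z)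
      change (u (op g ε)) ((u (op g ε))⁻¹ (hh g ε (u ε z))) = _
      rw [← AlgEquiv.mul_apply, mul_inv_cancel, AlgEquiv.one_apply]
    · exact key a b hd ι ιw ξ Q hloc σ g hσg ε (u ε) (u (op g ε)) (w ε) (w (op g ε)) hw.1
        (κ ε) (κ (op g ε)) hw.2 (ψ ε) (hψ ε) (ψ (op g ε)) (hψ (op g ε)) (hu ε) (hu (op g ε))
        (Jψ ε) (hJψ ε) (Jψ (op g ε)) (hJψ (op g ε))
  · rw [Finset.smul_sum]
    refine Finset.sum_congr rfl fun ε _ => ?_
    rw [smul_sub, ← map_nsmul (Jψ ε), hx, ← map_nsmul (pm (sw a b) ι), ← map_nsmul (JJ a b hd ε),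
      hN, map_zero, map_zero, sub_zero]
    exact mapsTo_uniq (f := algebraMap ((w ε).adicCompletion F)
      (AlgebraicClosure ((w ε).adicCompletion F))) (g := ψ ε) (e := κ ε)
      (fun P j => crd_pm _ P j) (hJψ ε) (hJκ ε) (fun z => (hψ ε z).symm) (x (w ε))

/-- conjugate points -/
theorem zeq (a b : K) {Kv : Type} [Field Kv] [Algebra K Kv]
    (σ : AlgebraicClosure Kv ≃ₐ[Kv] AlgebraicClosure Kv) (w w' : HeightOneSpectrum (𝓞 F))
    (hw : w = w')
    (κ : w.adicCompletion F →+* AlgebraicClosure Kv)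
    (κ' : w'.adicCompletion F →+* AlgebraicClosure Kv)
    (hκ : HEq ((σ : AlgebraicClosure Kv →+* AlgebraicClosure Kv).comp κ) κ')
    (J : ((EF a b F).baseChange (w.adicCompletion F)).toAffine.Point → AlgPt (sw a b) Kv)
    (hJ : MapsTo κ J)
    (J' : ((EF a b F).baseChange (w'.adicCompletion F)).toAffine.Point → AlgPt (sw a b) Kv)
    (hJ' : MapsTo κ' J')
    (P : ∀ w : HeightOneSpectrum (𝓞 F),
      ((EF a b F).baseChange (w.adicCompletion F)).toAffine.Point) :
    J' (P w') = act (sw a b) σ (J (P w)) := by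
  subst hw
  have hκ' : κ' = (σ : AlgebraicClosure Kv →+* AlgebraicClosure Kv).comp κ := (eq_of_heq hκ).symm
  subst hκ'
  apply crd_inj
  intro j
  rw [hJ', act_mapsTo (sw a b) σ, hJ]
  rfl

/-- conjugate coordinates -/
theorem teq {Kv : Type} [Field Kv] {ν : Type}
    (σ : AlgebraicClosure Kv ≃ₐ[Kv] AlgebraicClosure Kv) (w w' : HeightOneSpectrum (𝓞 F))
    (hw : w = w')
    (κ : w.adicCompletion F →+* AlgebraicClosure Kv)
    (κ' : w'.adicCompletion F →+* AlgebraicClosure Kv)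
    (hκ : HEq ((σ : AlgebraicClosure Kv →+* AlgebraicClosure Kv).comp κ) κ')
    (T : ∀ w : HeightOneSpectrum (𝓞 F), ν → w.adicCompletion F) (s : ν) :
    κ' (T w' s) = σ (κ (T w s)) := by
  subst hw
  have hκ' : κ' = (σ : AlgebraicClosure Kv →+* AlgebraicClosure Kv).comp κ := (eq_of_heq hκ).symm
  subst hκ'
  rfl

end one

open scoped Classical in
theorem main_gen (K₀ : Type) [Field K₀] [NumberField K₀] (K : Type) [Field K] [NumberField K]
    (F : Type) [Field F] [NumberField F] [Algebra K F] [Algebra K₀ F] [FiniteDimensional K₀ F]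
    (D : ℕ) (hD : Module.finrank K₀ F ≤ D) (r m : ℕ) (ι' L' : Type) [Fintype ι']
    (a b : Fin r → K₀) (hd : ∀ i, Disc (a i) (b i)) (G' : L' → Pol (𝓞 K) r m ι')
    (t : ι' → 𝓞 K) (N : ℕ)
    (ξ : ∀ i : Fin r, (AlgebraicClosure F ≃ₐ[F] AlgebraicClosure F) → AlgPt (EF (a i) (b i) F) F)
    (hc : ∀ i, IsCocycle (EF (a i) (b i) F) (ξ i)) (hN : ∀ i σ, N • ξ i σ = 0)
    (hsel : ∀ v : HeightOneSpectrum (𝓞 F),
      ∃ (ι₀ : AlgebraicClosure F →ₐ[F] AlgebraicClosure (v.adicCompletion F))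
        (P : ∀ i, ((EF (a i) (b i) F).baseChange (v.adicCompletion F)).toAffine.Point)
        (Q : ∀ i, AlgPt (EF (a i) (b i) F) (v.adicCompletion F)),
        (∃ T : Fin (m + 1) → v.adicCompletion F, T ≠ 0 ∧
          ∀ l, valP ((algebraMap F (v.adicCompletion F)).comp
            ((algebraMap K F).comp (algebraMap (𝓞 K) K))) (G' l) (fun i => crd (P i)) T
            (fun s => algebraMap F (v.adicCompletion F)
              (algebraMap K F (algebraMap (𝓞 K) K (t s)))) = 0) ∧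
        (∀ i, N • Q i = incl (EF (a i) (b i) F) (v.adicCompletion F) (P i)) ∧
        ∀ i σ τ, Compat ι₀ σ τ → pm (EF (a i) (b i) F) ι₀ (ξ i τ) =
          act (EF (a i) (b i) F) σ (Q i) - Q i) :
    ∃ η : ∀ i : Fin r, (AlgebraicClosure K₀ ≃ₐ[K₀] AlgebraicClosure K₀) → AlgPt (sw (a i) (b i)) K₀,
    (∀ i, IsCocycle (sw (a i) (b i)) (η i)) ∧ (∀ i σ, N • η i σ = 0) ∧
    ∀ v : HeightOneSpectrum (𝓞 K₀),
      ∃ P : ∀ i, ((sw (a i) (b i)).baseChange (v.adicCompletion K₀)).toAffine.Point,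
        (∀ i, LocG (sw (a i) (b i)) N (η i) (v.adicCompletion K₀) (P i)) ∧
        ∃ (n : ℕ) (_ : 1 ≤ n) (_ : n ≤ D)
          (χ : Fin n → (𝓞 K →+* AlgebraicClosure (v.adicCompletion K₀)))
          (Z : Fin n → ∀ i, AlgPt (sw (a i) (b i)) (v.adicCompletion K₀))
          (T : Fin n → Fin (m + 1) → AlgebraicClosure (v.adicCompletion K₀)),
          (∀ j, T j ≠ 0) ∧
          (∀ j l, valP (χ j) (G' l) (fun i => crd (Z j i)) (T j) (fun s => χ j (t s)) = 0) ∧
          (∀ i, ∑ j, Z j i = incl (sw (a i) (b i)) (v.adicCompletion K₀) (P i)) ∧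
          ∀ σ : AlgebraicClosure (v.adicCompletion K₀) ≃ₐ[v.adicCompletion K₀]
              AlgebraicClosure (v.adicCompletion K₀), ∃ π : Equiv.Perm (Fin n), ∀ j,
            (∀ x, χ (π j) x = σ (χ j x)) ∧ (∀ i, Z (π j) i = act (sw (a i) (b i)) σ (Z j i)) ∧
            ∀ s, T (π j) s = σ (T j s) := by
  choose ιw P Q hT hQ hloc using hsel
  choose T hT0 hT1 using hT
  refine ⟨fun i => CC (a i) (b i) (hd i) (ξ i), fun i => cc_cocycle _ _ (hd i) (ξ i) (hc i),
    fun i σ => cor_smul op hh (JJ (a i) (b i) (hd i)) (ξ i) N (hN i) σ, ?_⟩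
  intro v
  let ι : AlgebraicClosure K₀ →ₐ[K₀] AlgebraicClosure (v.adicCompletion K₀) :=
    IsAlgClosed.lift (R := K₀) (S := AlgebraicClosure K₀)
        (M := AlgebraicClosure (v.adicCompletion K₀))
  have h1 : ∀ ε : Emb K₀ F, ∃ (w : HeightOneSpectrum (𝓞 F))
      (κ : w.adicCompletion F →+* AlgebraicClosure (v.adicCompletion K₀)),
      Good v w κ ∧ ∀ x : F, κ (algebraMap F (w.adicCompletion F) x) = ι (ε x) := by
    intro ε
    obtain ⟨w, κ, hκ, h⟩ := tEmb K₀ F v ((ι : AlgebraicClosure K₀ →+* _).comp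
      (ε : F →+* AlgebraicClosure K₀)) (fun x => by
        change ι (ε (algebraMap K₀ F x)) = _
        rw [ε.commutes, ι.commutes]
        rfl)
    exact ⟨w, κ, hκ, h⟩
  choose w κ hκ hκF using h1
  have h2 := fun i => loc_cor' tGal tUni (a i) (b i) (hd i) v ι ιw w κ hκ hκF
  choose Jκ hJκ hmain using h2
  have h3 := fun i => hmain i (ξ i) (hc i).1 (fun w => Q w i) (fun w σ τ h => hloc w i σ τ h)
    N (hN i) (fun w => P w i) (fun w => hQ w i)
  choose R hR1 hR2 using h3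
  have hT' : ∀ i, ∃ S, incl (sw (a i) (b i)) (v.adicCompletion K₀) S = N • R i := by
    intro i
    have hch : CharZero (v.adicCompletion K₀) :=
      charZero_of_injective_algebraMap (algebraMap K₀ (v.adicCompletion K₀)).injective
    refine exists_of_fixed _ (fun σ => ?_)
    obtain ⟨τ, hτ⟩ := exists_compat ι σ
    have h1 := hR1 i σ τ hτ
    have e1 : act (sw (a i) (b i)) σ (R i) = R i +
        pm (sw (a i) (b i)) ι (CC (a i) (b i) (hd i) (ξ i) τ) := by
      rw [h1]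
      abel
    have e2 : N • CC (a i) (b i) (hd i) (ξ i) τ = 0 :=
      cor_smul op hh (JJ (a i) (b i) (hd i)) (ξ i) N (hN i) τ
    rw [act_nsmul, e1, ns_add, ← map_nsmul, e2, map_zero, add_zero]
  choose S hS using hT'
  refine ⟨S, fun i => ⟨ι, R i, (hS i).symm, hR1 i⟩, ?_⟩
  -- the points over the algebraic closure
  have hcard : Nat.card (Emb K₀ F) = Module.finrank K₀ F := by
    have h5 := AlgHom.card K₀ F (AlgebraicClosure K₀)
    rw [← @Nat.card_eq_fintype_card (F →ₐ[K₀] AlgebraicClosure K₀)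
      (minpoly.AlgHom.fintype K₀ F (AlgebraicClosure K₀))] at h5
    exact h5
  let e : Fin (Nat.card (Emb K₀ F)) ≃ Emb K₀ F := (Finite.equivFin (Emb K₀ F)).symm
  refine ⟨Nat.card (Emb K₀ F), ?_, by rw [hcard]; exact hD,
    fun j => (κ (e j)).comp ((algebraMap F ((w (e j)).adicCompletion F)).comp
      ((algebraMap K F).comp (algebraMap (𝓞 K) K))),
    fun j i => Jκ i (e j) (P (w (e j)) i), fun j s => κ (e j) (T (w (e j)) s), ?_, ?_, ?_, ?_⟩
  · rw [hcard]
    exact Module.finrank_pos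
  · intro j h0
    apply hT0 (w (e j))
    funext s
    have h6 := congrFun h0 s
    exact (map_eq_zero (κ (e j))).1 h6
  · intro j l
    have h6 := hT1 (w (e j)) l
    have h7 := congrArg (κ (e j)) h6
    rw [valP_map, map_zero] at h7
    rw [← h7]
    congr 1
    funext i k
    exact hJκ i (e j) (P (w (e j)) i) k
  · intro i
    rw [hS, hR2]
    exact e.sum_comp (fun ε => Jκ i ε (P (w ε) i))
  · intro σ
    obtain ⟨g, hσg⟩ := exists_compat ι σ
    have key : ∀ ε ε' : Emb K₀ F, ε' = op g ε →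
        (∀ x : 𝓞 K, κ ε' (algebraMap F ((w ε').adicCompletion F)
          (algebraMap K F (algebraMap (𝓞 K) K x))) =
          σ (κ ε (algebraMap F ((w ε).adicCompletion F)
            (algebraMap K F (algebraMap (𝓞 K) K x))))) ∧
        (∀ i, Jκ i ε' (P (w ε') i) = act (sw (a i) (b i)) σ (Jκ i ε (P (w ε) i))) ∧
        ∀ s, κ ε' (T (w ε') s) = σ (κ ε (T (w ε) s)) := by
      intro ε ε' hε
      subst hε
      have hw := tUni K₀ F v (w ε) (w (op g ε))
        ((σ : AlgebraicClosure (v.adicCompletion K₀) →+*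
          AlgebraicClosure (v.adicCompletion K₀)).comp
          (κ ε)) (κ (op g ε)) (tGal K₀ F v (w ε) (κ ε) σ (hκ ε)) (hκ (op g ε)) (fun x => by
            change σ (κ ε _) = κ (op g ε) _
            rw [hκF, hκF, op_apply]
            exact (hσg _).symm)
      refine ⟨fun x => ?_, fun i => ?_, fun s => ?_⟩
      · rw [hκF, hκF, op_apply]
        exact hσg _
      · exact zeq (a i) (b i) σ (w ε) (w (op g ε)) hw.1 (κ ε) (κ (op g ε)) hw.2
          (Jκ i ε) (hJκ i ε) (Jκ i (op g ε)) (hJκ i (op g ε)) (fun w => P w i)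
      · exact teq σ (w ε) (w (op g ε)) hw.1 (κ ε) (κ (op g ε)) hw.2 T s
    refine ⟨(e.trans (Equiv.ofBijective (op g) (op_bij g))).trans e.symm, fun j => ?_⟩
    exact key (e j) _ (by simp)

open scoped Classical in
theorem main_aux (K : Type) [Field K] [NumberField K] (F : Type) [Field F] [NumberField F]
    [Algebra K F] (D : ℕ) (hD : Module.finrank ℚ F ≤ D) (r m : ℕ) (ι' L' : Type) [Fintype ι']
    (a b : Fin r → ℤ) (hab : ∀ i, 4 * a i ^ 3 + 27 * b i ^ 2 ≠ 0) (G' : L' → Pol (𝓞 K) r m ι')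
    (t : ι' → 𝓞 K) (N : ℕ) (al be : Fin r → F) (hal : al = fun i => algebraMap ℚ F (a i : ℚ))
    (hbe : be = fun i => algebraMap ℚ F (b i : ℚ))
    (ξ : ∀ i : Fin r, (AlgebraicClosure F ≃ₐ[F] AlgebraicClosure F) → AlgPt (sw (al i) (be i)) F)
    (hc : ∀ i, IsCocycle (sw (al i) (be i)) (ξ i)) (hN : ∀ i σ, N • ξ i σ = 0)
    (hsel : ∀ v : HeightOneSpectrum (𝓞 F),
      ∃ (ι₀ : AlgebraicClosure F →ₐ[F] AlgebraicClosure (v.adicCompletion F))
        (P : ∀ i, ((sw (al i) (be i)).baseChange (v.adicCompletion F)).toAffine.Point)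
        (Q : ∀ i, AlgPt (sw (al i) (be i)) (v.adicCompletion F)),
        (∃ T : Fin (m + 1) → v.adicCompletion F, T ≠ 0 ∧
          ∀ l, valP ((algebraMap F (v.adicCompletion F)).comp
            ((algebraMap K F).comp (algebraMap (𝓞 K) K))) (G' l) (fun i => crd (P i)) T
            (fun s => algebraMap F (v.adicCompletion F)
              (algebraMap K F (algebraMap (𝓞 K) K (t s)))) = 0) ∧
        (∀ i, N • Q i = incl (sw (al i) (be i)) (v.adicCompletion F) (P i)) ∧
        ∀ i σ τ, Compat ι₀ σ τ → pm (sw (al i) (be i)) ι₀ (ξ i τ) =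
          act (sw (al i) (be i)) σ (Q i) - Q i) :
    ∃ η : ∀ i : Fin r, (AlgebraicClosure ℚ ≃ₐ[ℚ] AlgebraicClosure ℚ) → AlgPt (EQ (a i) (b i)) ℚ,
    (∀ i, IsCocycle (EQ (a i) (b i)) (η i)) ∧ (∀ i σ, N • η i σ = 0) ∧
    ∀ v : HeightOneSpectrum (𝓞 ℚ),
      ∃ P : ∀ i, ((EQ (a i) (b i)).baseChange (v.adicCompletion ℚ)).toAffine.Point,
        (∀ i, LocG (EQ (a i) (b i)) N (η i) (v.adicCompletion ℚ) (P i)) ∧
        LT a b G' D t (v.adicCompletion ℚ) P := by
  subst hal
  subst hbe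
  have hd : ∀ i, Disc (a i : ℚ) (b i : ℚ) := by
    intro i
    unfold Disc
    have h1 : ((4 * a i ^ 3 + 27 * b i ^ 2 : ℤ) : ℚ) ≠ 0 := by exact_mod_cast hab i
    push_cast at h1
    exact mul_ne_zero two_ne_zero h1
  exact main_gen ℚ K F D hD r m ι' L' (fun i => (a i : ℚ)) (fun i => (b i : ℚ)) hd G' t N ξ hc hN
    hsel

open scoped Classical in
theorem t_LCF : S_LCF := by
  intro K _ _ F _ _ _ D hD r m ι' L' _ a b hab G' t N ξ hsel
  exact main_aux K F D hD r m ι' L' a b hab G' t N (fun i => (a i : F)) (fun i => (b i : F))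
    (funext fun i => (map_intCast (algebraMap ℚ F) (a i)).symm)
    (funext fun i => (map_intCast (algebraMap ℚ F) (b i)).symm) ξ hsel.1 hsel.2.1 hsel.2.2

end Pool.Agent.N890.DU.LCF
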