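import Pool.Agent.N890.DU.Stm

set_option autoImplicit false

/-!
# DU/QUO: removing multiple points (helper400)
-/

namespace Pool.Agent.N890.DU.QUO

open NumberField WeierstrassCurve
open Pool.Agent.N890.DU Pool.Agent.H901R3.MS

lemma rep_inj {F : Type} [Field F] {a b : F} {P P' : Pt a b} (h : ∀ s, rep P s = rep P' s) :
    P = P' := by
  rcases P with _ | ⟨x, y, hxy⟩ <;> rcases P' with _ | ⟨x', y', hxy'⟩
  · rfl
  · have := h 2
    simp [rep] at this
  · have := h 2
    simp [rep] at this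
  · have h0 := h 0
    have h1 := h 1
    simp only [rep, Matrix.cons_val_zero, Matrix.cons_val_one] at h0 h1
    subst h0
    subst h1
    rfl

theorem t_QUO : S_QUO := by
  classical
  intro K _ _ r m p a b k _ _ n _ hn π χ V T hC
  obtain ⟨hT, hχ, hV, hU⟩ := hC
  let R : Fin n → Fin n → Prop := fun j j' => χ j = χ j' ∧ V j = V j' ∧
    ∃ u : k, u ≠ 0 ∧ ∀ s, T j' s = u * T j s
  have hR : Equivalence R := by
    refine ⟨fun j => ⟨rfl, rfl, 1, one_ne_zero, fun s => (one_mul _).symm⟩, ?_, ?_⟩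
    · rintro j j' ⟨h1, h2, u, hu, h3⟩
      refine ⟨h1.symm, h2.symm, u⁻¹, inv_ne_zero hu, fun s => ?_⟩
      rw [h3, ← mul_assoc, inv_mul_cancel₀ hu, one_mul]
    · rintro j j' j'' ⟨h1, h2, u, hu, h3⟩ ⟨h1', h2', u', hu', h3'⟩
      refine ⟨h1.trans h1', h2.trans h2', u' * u, mul_ne_zero hu' hu, fun s => ?_⟩
      rw [h3', h3, mul_assoc]
  let S : Setoid (Fin n) := ⟨R, hR⟩
  have hπ : ∀ j j', R j j' → R (π j) (π j') := by
    rintro j j' ⟨h1, h2, u, hu, h3⟩
    refine ⟨?_, ?_, ?_⟩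
    · ext x
      rw [hχ, hχ, h1]
    · funext i
      apply rep_inj
      intro s
      rw [hV, hV, h2]
    · obtain ⟨u1, hu1, h4⟩ := hU j
      obtain ⟨u2, hu2, h5⟩ := hU j'
      refine ⟨u2 * u ^ p * u1⁻¹, mul_ne_zero (mul_ne_zero hu2 (pow_ne_zero _ hu))
        (inv_ne_zero hu1), fun s => ?_⟩
      rw [h5, h4, h3, mul_pow]
      field_simp
  let e : Quotient S ≃ Fin (Fintype.card (Quotient S)) := Fintype.equivFin _
  let f : Fin n → Fin (Fintype.card (Quotient S)) := fun j => e (Quotient.mk S j)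
  let g : Fin (Fintype.card (Quotient S)) → Fin n := fun i => (e.symm i).out
  have hfg : ∀ i, f (g i) = i := by
    intro i
    show e (Quotient.mk S (e.symm i).out) = i
    rw [Quotient.out_eq, Equiv.apply_symm_apply]
  have hf : ∀ j j', R j j' → f j = f j' := fun j j' h => congrArg e (Quotient.sound h)
  have hf' : ∀ j j', f j = f j' → R j j' := fun j j' h => Quotient.exact (e.injective h)
  have hgf : ∀ j, R (g (f j)) j := fun j => hf' _ _ (hfg _)
  have hsurj : Function.Surjective (fun i => f (π (g i))) := by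
    intro i
    refine ⟨f (π.symm (g i)), ?_⟩
    show f (π (g (f (π.symm (g i))))) = i
    rw [hf _ _ (hπ _ _ (hgf (π.symm (g i)))), Equiv.apply_symm_apply, hfg]
  have hbij : Function.Bijective (fun i => f (π (g i))) :=
    ⟨Finite.injective_iff_surjective.2 hsurj, hsurj⟩
  let π' : Equiv.Perm (Fin (Fintype.card (Quotient S))) := Equiv.ofBijective _ hbij
  have hπ' : ∀ i, π' i = f (π (g i)) := fun i => rfl
  have hgπ : ∀ i, R (g (π' i)) (π (g i)) := by
    intro i
    rw [hπ']
    exact hgf _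
  refine ⟨Fintype.card (Quotient S), ?_, ?_, f, g, π', hfg, ⟨?_, ?_, ?_, ?_⟩, ?_, ?_⟩
  · have : Nonempty (Quotient S) := ⟨Quotient.mk S ⟨0, hn⟩⟩
    exact Fintype.card_pos
  · have := Fintype.card_quotient_le S
    rwa [Fintype.card_fin] at this
  · exact fun j => hT (g j)
  · intro j x
    show χ (g (π' j)) x = χ (g j) x ^ p
    rw [(hgπ j).1, hχ]
  · intro j i s
    show rep (V (g (π' j)) i) s = rep (V (g j) i) s ^ p
    rw [(hgπ j).2.1, hV]
  · intro j
    obtain ⟨u, hu, h1⟩ := (hR.symm (hgπ j)).2.2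
    obtain ⟨u', hu', h2⟩ := hU (g j)
    refine ⟨u * u', mul_ne_zero hu hu', fun s => ?_⟩
    show T (g (π' j)) s = u * u' * T (g j) s ^ p
    rw [h1, h2, mul_assoc]
  · intro j j' hjj h1 h2 u h3
    apply hjj
    have hu : u ≠ 0 := by
      rintro rfl
      apply hT (g j')
      funext s
      have := h3 s
      rw [zero_mul] at this
      exact this
    have := hf (g j) (g j') ⟨h1, h2, u, hu, h3⟩
    rwa [hfg, hfg] at this
  · exact fun j => ⟨(hgf j).1, (hgf j).2.1⟩

end Pool.Agent.N890.DU.QUO
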