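import Pool.Agent.N890.DU.Stm
import Pool.Agent.N890.US.UNR

/-!
Project DU (helper890), subtask 4807: reduction of the local data modulo `p` (helper966).
-/

set_option autoImplicit false
set_option linter.unusedSectionVars false

namespace Pool.Agent.N890.DU.RED

open NumberField WeierstrassCurve Pool.Agent.TH942 Pool.Agent.TH954
open Pool.Agent.H901R3.MS Pool.Agent.N89.CI Pool.Agent.N890.FD Pool.Agent.N890.US
open Pool.Agent.N890.US.UNR (exists_place norm_equiv)
open Pool.Agent.Y213.T6 (exists_redW bc_eq)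
open Pool.Agent.N890.DU

/-! ### The residue field -/

section res

variable {L : Type} [NormedField L] [IsUltrametricDist L] {k : Type} [Field k] (v : Place L k)
  (hA : ∀ x, x ∈ v.A ↔ ‖x‖ ≤ 1)

include hA

lemma inf_res [IsAlgClosed L] : Infinite k := by
  by_contra hinf
  rw [not_infinite_iff_finite] at hinf
  have hF := Fintype.ofFinite k
  obtain ⟨q, hq⟩ : ∃ q, q = Fintype.card k := ⟨_, rfl⟩
  have hq1 : 1 < q := by rw [hq]; exact Fintype.one_lt_card
  set P : Polynomial L := Polynomial.X ^ q - Polynomial.X + Polynomial.C 1 with hP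
  have hd : P.natDegree = q := by
    rw [hP]
    have h1 : (-Polynomial.X + Polynomial.C 1 : Polynomial L).natDegree < q := by
      refine lt_of_le_of_lt ?_ hq1
      compute_degree
    have h2 : (Polynomial.X ^ q - Polynomial.X + Polynomial.C 1 : Polynomial L) =
        Polynomial.X ^ q + (-Polynomial.X + Polynomial.C 1) := by ring
    rw [h2, Polynomial.natDegree_add_eq_left_of_natDegree_lt (by
      rw [Polynomial.natDegree_X_pow]; exact h1), Polynomial.natDegree_X_pow]
  have hdeg : P.degree ≠ 0 := by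
    intro h
    have h1 : P.natDegree = 0 := Polynomial.natDegree_eq_zero_iff_degree_le_zero.2 h.le
    omega
  obtain ⟨x, hx⟩ := IsAlgClosed.exists_root P hdeg
  have hx' : x ^ q - x + 1 = 0 := by
    have h1 : P.eval x = 0 := hx
    simpa [hP] using h1
  have hx1 : ‖x‖ ≤ 1 := by
    by_contra hc
    push Not at hc
    have h1 : x ^ q = x - 1 := by linear_combination hx'
    have h2 : ‖x‖ ^ q = ‖x - 1‖ := by rw [← norm_pow, h1]
    have h3 : ‖x - 1‖ ≤ max ‖x‖ ‖(1 : L)‖ := by
      have := IsUltrametricDist.norm_add_le_max x (-1)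
      rwa [← sub_eq_add_neg, norm_neg] at this
    rw [norm_one, max_eq_left hc.le] at h3
    have h4 : ‖x‖ < ‖x‖ ^ q := lt_self_pow₀ hc hq1
    linarith
  have hm := (hA x).2 hx1
  have h5 : v.r x ^ q - v.r x + 1 = 0 := by
    rw [← v.r_pow hm, ← v.r_sub (v.A.pow_mem hm q) hm, ← v.r_one,
      ← v.r_add (v.A.sub_mem (v.A.pow_mem hm q) hm) v.A.one_mem, hx', v.r_zero]
  rw [hq, FiniteField.pow_card, sub_self, zero_add] at h5
  exact one_ne_zero h5

lemma int_mem' {x : L} (hx : IsIntegral ℤ x) : x ∈ v.A := by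
  rw [hA]
  have h1 : IsIntegral (NormedField.valuation (K := L)).integer x := hx.tower_top
  have h2 := (Valuation.integer.integers (NormedField.valuation (K := L))).mem_of_integral h1
  have h3 : NormedField.valuation (K := L) x ≤ 1 := h2
  rw [NormedField.valuation_apply] at h3
  exact_mod_cast h3

end res

/-! ### Coordinates -/

section coord

variable {L k : Type} [Field L] [Field k] (v : Place L k)

lemma prop_of {n : ℕ} (X : Fin n → L) {α α' : L} (hα : α ≠ 0) (W W' : Fin n → k)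
    (h : ∀ j, α * X j ∈ v.A ∧ v.r (α * X j) = W j)
    (h' : ∀ j, α' * X j ∈ v.A ∧ v.r (α' * X j) = W' j) (hW : W ≠ 0) (hW' : W' ≠ 0) :
    ∃ u : k, u ≠ 0 ∧ ∀ j, W' j = u * W j := by
  have hα' : α' ≠ 0 := by
    rintro rfl
    apply hW'
    funext j
    rw [← (h' j).2, zero_mul, v.r_zero]
    rfl
  by_cases hq : α' / α ∈ v.A
  · have h1 : ∀ j, W' j = v.r (α' / α) * W j := by
      intro j
      rw [← (h j).2, ← v.r_mul hq (h j).1, ← (h' j).2]
      congr 1
      field_simp
    refine ⟨v.r (α' / α), ?_, h1⟩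
    intro h0
    apply hW'
    funext j
    rw [h1 j, h0, zero_mul]
    rfl
  · exfalso
    have h2 := v.inv_mem_of_notMem hq
    have h3 := v.r_inv_of_notMem hq
    apply hW
    funext j
    have h4 : α * X j = (α' / α)⁻¹ * (α' * X j) := by field_simp
    rw [← (h j).2, h4, v.r_mul h2 (h' j).1, h3, zero_mul]
    rfl

/-- the shape of the coordinates of a point -/
def RL (W : Fin 3 → k) : Prop := W = ![0, 1, 0] ∨ W 2 = 1

lemma RL.ne {W : Fin 3 → k} (h : RL W) : W ≠ 0 := by
  intro h0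
  rcases h with h | h
  · have := congrFun (h0.symm.trans h) 1
    simp at this
  · rw [h0] at h
    simp at h

lemma RL_rep {a b : k} (P : Pt a b) : RL (rep P) := by
  rcases P with _ | ⟨x, y, h⟩
  · exact Or.inl rfl
  · exact Or.inr rfl

lemma RL.map {k' : Type} [Field k'] {W : Fin 3 → k} (h : RL W) (f : k → k') (h0 : f 0 = 0)
    (h1 : f 1 = 1) : RL (fun s => f (W s)) := by
  rcases h with h | h
  · left
    funext s
    rw [h]
    fin_cases s <;> simp [h0, h1]
  · right
    show f (W 2) = 1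
    rw [h, h1]

lemma RL.eq {W W' : Fin 3 → k} (h : RL W) (h' : RL W') {u : k} (hu : u ≠ 0)
    (he : ∀ j, W' j = u * W j) : W' = W := by
  rcases h with h | h
  · rcases h' with h' | h'
    · rw [h, h']
    · exfalso
      have h1 := he 2
      rw [h', h] at h1
      simp at h1
  · have h1 := he 2
    rw [h, mul_one] at h1
    rcases h' with h' | h'
    · exfalso
      rw [h'] at h1
      apply hu
      rw [← h1]
      simp
    · rw [h'] at h1
      funext j
      rw [he j, ← h1, one_mul]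

lemma uniq (X : Fin 3 → L) {α α' : L} (hα : α ≠ 0) (W W' : Fin 3 → k)
    (h : ∀ j, α * X j ∈ v.A ∧ v.r (α * X j) = W j)
    (h' : ∀ j, α' * X j ∈ v.A ∧ v.r (α' * X j) = W' j) (hW : RL W) (hW' : RL W') : W' = W := by
  obtain ⟨u, hu, he⟩ := prop_of v X hα W W' h h' hW.ne hW'.ne
  exact hW.eq hW' hu he

/-- reduction of a point of the fibre over a point with the coordinates `V`, explicit form -/
theorem local_ptE {R : Type} [CommRing R] (ι₀ : R →+* L)
    (φ : R →+* k) (hφ : ∀ x, ι₀ x ∈ v.A ∧ v.r (ι₀ x) = φ x) {r m : ℕ} {ι : Type} [Fintype ι]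
    (V : Fin r → Fin 3 → L) (W : Fin r → Fin 3 → k)
    (hVW : ∀ i, ∃ u : L, u ≠ 0 ∧ ∀ j, u * V i j ∈ v.A ∧ v.r (u * V i j) = W i j)
    {L' : Type} (G : L' → Pol R r m ι) (d : L' → Fin r → ℕ) (e : L' → ℕ)
    (hG : ∀ l, MHomog (G l) (d l) (e l)) (t : ι → L) (ht : ∀ s, t s ∈ v.A) (T : Fin (m + 1) → L)
    (h0 : ∀ l, valP ι₀ (G l) V T t = 0) (s₀ : Fin (m + 1))
    (hs1 : ∀ s, (T s₀)⁻¹ * T s ∈ v.A) (l : L') :
    valP φ (G l) W (fun s => v.r ((T s₀)⁻¹ * T s)) (fun s => v.r (t s)) = 0 := by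
  choose u hu0 hu1 using hVW
  set V' : Fin r → Fin 3 → v.A := fun i j => ⟨u i * V i j, (hu1 i j).1⟩ with hV'
  set T' : Fin (m + 1) → v.A := fun s => ⟨(T s₀)⁻¹ * T s, hs1 s⟩ with hT'
  set t' : ι → v.A := fun s => ⟨t s, ht s⟩ with ht'
  set ψ : R →+* v.A := ι₀.codRestrict v.A (fun x => (hφ x).1) with hψ
  have hψ1 : v.A.subtype.comp ψ = ι₀ := by
    ext x
    rfl
  have hψ2 : v.ρ.comp ψ = φ := by
    ext x
    have h1 := (hφ x).2
    rw [v.r_of (hφ x).1] at h1
    exact h1
  have h1 : valP ψ (G l) V' T' t' = 0 := by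
    apply Subtype.ext
    have h2 := valP_map ψ v.A.subtype (G l) V' T' t'
    have h3 : (v.A.subtype (valP ψ (G l) V' T' t')) = ((valP ψ (G l) V' T' t' : v.A) : L) := rfl
    rw [h3, hψ1] at h2
    rw [h2]
    have h4 := valP_scale ι₀ (G l) (d l) (e l) (hG l) V T t u (T s₀)⁻¹
    rw [h0 l, mul_zero] at h4
    exact h4
  have h2 := valP_map ψ v.ρ (G l) V' T' t'
  rw [h1, map_zero, hψ2] at h2
  rw [h2]
  congr 1
  · funext i j
    have h3 := (hu1 i j).2
    rw [v.r_of (hu1 i j).1] at h3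
    exact h3.symm
  · funext s
    exact v.r_of (hs1 s)
  · funext s
    exact v.r_of (ht s)

end coord

/-! ### The Galois action on the coordinates -/

lemma crd_act {K : Type} [Field K] (E : WeierstrassCurve K) {L : Type} [Field L] [Algebra K L]
    (σ : AlgebraicClosure L ≃ₐ[L] AlgebraicClosure L) (Q : AlgPt E L) (s : Fin 3) :
    crd (act E σ Q) s = σ (crd Q s) := by
  rcases Q with _ | ⟨x, y, h⟩
  · have h1 : act E σ Affine.Point.zero = Affine.Point.zero := rfl
    rw [h1]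
    show (![0, 1, 0] : Fin 3 → AlgebraicClosure L) s = σ ((![0, 1, 0] : Fin 3 → _) s)
    fin_cases s <;> simp
  · obtain ⟨h', e⟩ := pm_some (E := E)
      ((σ : AlgebraicClosure L →ₐ[L] AlgebraicClosure L).restrictScalars K) h
    unfold act
    rw [e]
    show (![_, _, 1] : Fin 3 → AlgebraicClosure L) s = σ ((![x, y, 1] : Fin 3 → _) s)
    fin_cases s
    · rfl
    · rfl
    · simp

lemma crd_incl {K : Type} [Field K] (E : WeierstrassCurve K) (L : Type) [Field L] [Algebra K L]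
    (P : (E.baseChange L).toAffine.Point) (s : Fin 3) :
    crd (incl E L P) s = algebraMap L (AlgebraicClosure L) (crd P s) := by
  rcases P with _ | ⟨x, y, h⟩
  · have h1 : incl E L Affine.Point.zero = Affine.Point.zero := rfl
    rw [h1]
    show (![0, 1, 0] : Fin 3 → AlgebraicClosure L) s =
      algebraMap L (AlgebraicClosure L) ((![0, 1, 0] : Fin 3 → L) s)
    fin_cases s <;> simp
  · obtain ⟨h', e⟩ := pm_some (E := E) (IsScalarTower.toAlgHom K L (AlgebraicClosure L)) h
    unfold incl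
    rw [e]
    show (![_, _, 1] : Fin 3 → AlgebraicClosure L) s =
      algebraMap L (AlgebraicClosure L) ((![x, y, 1] : Fin 3 → L) s)
    fin_cases s
    · rfl
    · rfl
    · simp

/-! ### The proof -/

section main

variable {p : ℕ} [Fact p.Prime]

lemma plP_comp {k : Type} [Field k] [Algebra (ZMod p) k] (v : Place (AlgebraicClosure ℚ_[p]) k)
    (hA : ∀ x, x ∈ v.A ↔ ‖x‖ ≤ 1) (hr : ∀ x, ‖x‖ < 1 → v.r x = 0) (y : ℚ_[p])
    (hy : y ∈ (plP p).A) : algebraMap ℚ_[p] (AlgebraicClosure ℚ_[p]) y ∈ v.A ∧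
      v.r (algebraMap ℚ_[p] (AlgebraicClosure ℚ_[p]) y) =
        algebraMap (ZMod p) k ((plP p).r y) := by
  have hy1 : ‖y‖ ≤ 1 := hy
  have hm : ∀ z : ℚ_[p], ‖z‖ ≤ 1 → algebraMap ℚ_[p] (AlgebraicClosure ℚ_[p]) z ∈ v.A := by
    intro z hz
    rw [hA, PadicAlgCl.norm_extends]
    exact hz
  refine ⟨hm y hy1, ?_⟩
  set y' : ℤ_[p] := ⟨y, hy1⟩ with hy'
  obtain ⟨n, hn⟩ : ∃ n : ℕ, n = (PadicInt.toZMod y').val := ⟨_, rfl⟩
  have h1 : PadicInt.toZMod (y' - (n : ℤ_[p])) = 0 := by
    rw [map_sub, map_natCast, hn, ZMod.natCast_zmod_val, sub_self]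
  have h2 : ‖y' - (n : ℤ_[p])‖ < 1 := by
    have h3 : y' - (n : ℤ_[p]) ∈ RingHom.ker (PadicInt.toZMod : ℤ_[p] →+* ZMod p) := h1
    rw [PadicInt.ker_toZMod, IsLocalRing.mem_maximalIdeal, PadicInt.mem_nonunits] at h3
    exact h3
  have h4 : ‖y - (n : ℚ_[p])‖ < 1 := by
    have h5 : ((y' - (n : ℤ_[p]) : ℤ_[p]) : ℚ_[p]) = y - n := by
      rw [PadicInt.coe_sub, PadicInt.coe_natCast]
    rw [← h5]
    exact h2
  have h6 : v.r (algebraMap ℚ_[p] (AlgebraicClosure ℚ_[p]) (y - n)) = 0 := by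
    apply hr
    rw [PadicAlgCl.norm_extends]
    exact h4
  have h7 : (plP p).r y = (n : ZMod p) := by
    rw [(plP p).r_of hy, hn, ZMod.natCast_zmod_val]
    rfl
  rw [map_sub, map_natCast, v.r_sub (hm y hy1) (v.nat_mem n), v.r_nat, sub_eq_zero] at h6
  rw [h6, h7, map_natCast]

open scoped Classical in
theorem t_RED : S_FROB → S_RED := by
  intro hFR p _
  obtain ⟨σ, hσ⟩ := hFR p
  obtain ⟨k, fk, v, hA, hr⟩ := exists_place (AlgebraicClosure ℚ_[p])
  have hp : p.Prime := Fact.out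
  have hr0 : ∀ x, ‖x‖ < 1 → v.r x = 0 := by
    intro x hx
    have h1 := (hA x).2 hx.le
    rw [v.r_of h1, hr]
    exact hx
  -- the residue characteristic
  have hpk : (p : k) = 0 := by
    rw [← v.r_nat]
    apply hr0
    have e : ((p : ℕ) : AlgebraicClosure ℚ_[p]) =
        algebraMap ℚ_[p] (AlgebraicClosure ℚ_[p]) (p : ℚ_[p]) := by rw [map_natCast]
    rw [e, PadicAlgCl.norm_extends]
    exact Padic.norm_p_lt_one
  have hchar : CharP k p := (CharP.charP_iff_prime_eq_zero hp).2 hpk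
  letI alg : Algebra (ZMod p) k := ZMod.algebra k p
  refine ⟨k, fk, alg, inf_res v hA, ?_⟩
  have hσA : ∀ y, y ∈ v.A → σ y ∈ v.A ∧ v.r (σ y) = v.r y ^ p := by
    intro y hy
    have h1 : ‖y‖ ≤ 1 := (hA y).1 hy
    have h2 : σ y ∈ v.A := (hA _).2 (by rw [norm_equiv]; exact h1)
    refine ⟨h2, ?_⟩
    have h5 := hr0 _ (hσ y h1)
    rw [v.r_sub h2 (v.A.pow_mem hy p), v.r_pow hy, sub_eq_zero] at h5
    exact h5
  intro K _ _ D r m n₀ ι L' _ a b hdisc G' d e hG' ω c P R hPR hLT
  obtain ⟨n, hn1, hnD, χ, Z, T, hT0, hval, hsum, hgal⟩ := hLT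
  obtain ⟨π, hπ⟩ := hgal σ
  have hdk : ∀ i, Disc (a i : k) (b i : k) := by
    intro i
    have h1 := hdisc i
    unfold Disc at h1 ⊢
    intro h0
    apply h1
    apply (algebraMap (ZMod p) k).injective
    rw [map_zero, ← h0]
    simp only [map_mul, map_add, map_pow, map_intCast, map_ofNat]
  have hχA : ∀ j x, χ j x ∈ v.A := fun j x =>
    int_mem' v hA ((RingOfIntegers.isIntegral x).map (χ j).toIntAlgHom)
  set χb : Fin n → (𝓞 K →+* k) := fun j => v.ρ.comp ((χ j).codRestrict v.A (hχA j)) with hχbd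
  have hχb : ∀ j x, χb j x = v.r (χ j x) := fun j x => (v.r_of (hχA j x)).symm
  have hW : ∀ i, (EQ (a i) (b i)).baseChange (AlgebraicClosure ℚ_[p]) =
      CV (a i : AlgebraicClosure ℚ_[p]) (b i : AlgebraicClosure ℚ_[p]) := by
    intro i
    rw [bc_eq, map_intCast, map_intCast]
  have hred := fun i => exists_redW v (v.int_mem (a i)) (v.int_mem (b i))
    (v.r_int (a i)) (v.r_int (b i)) (hdk i) _ (hW i)
  choose red hred0 hred1 using hred
  choose s₀ hs0 hs1 using fun j => exists_primitive v (T j) (hT0 j)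
  have hT' : ∀ j, (fun s => v.r ((T j (s₀ j))⁻¹ * T j s)) ≠ 0 := by
    intro j h
    have h1 := congrFun h (s₀ j)
    simp only [Pi.zero_apply] at h1
    rw [inv_mul_cancel₀ (hs0 j), v.r_one] at h1
    exact one_ne_zero h1
  refine ⟨n, hn1, hnD, π, χb, fun j i => red i (Z j i),
    fun j s => v.r ((T j (s₀ j))⁻¹ * T j s), ⟨hT', ?_, ?_, ?_⟩, ?_, ?_⟩
  · intro j x
    rw [hχb, hχb, (hπ j).1 x]
    exact (hσA _ (hχA j x)).2
  · intro j i s
    obtain ⟨u, hu, hu1⟩ := hred1 i (Z j i)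
    obtain ⟨u', hu', hu1'⟩ := hred1 i (Z (π j) i)
    have h := uniq v (crd (Z (π j) i)) (α := σ u) (α' := u')
      (fun h => hu (σ.injective (h.trans (map_zero σ).symm)))
      (fun s => rep (red i (Z j i)) s ^ p) (rep (red i (Z (π j) i)))
      (fun s => by
        have h1 := hσA _ (hu1 s).1
        have h2 : σ u * crd (Z (π j) i) s = σ (u * crd (Z j i) s) := by
          rw [(hπ j).2.1 i, crd_act, map_mul]
        rw [h2, (hu1 s).2] at *
        exact h1) hu1'
      ((RL_rep _).map (fun x => x ^ p) (zero_pow hp.ne_zero) (one_pow p)) (RL_rep _)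
    exact congrFun h s
  · intro j
    refine prop_of v (T (π j)) (α := (σ (T j (s₀ j)))⁻¹) (α' := (T (π j) (s₀ (π j)))⁻¹)
      (inv_ne_zero fun h => hs0 j (σ.injective (h.trans (map_zero σ).symm)))
      (fun s => v.r ((T j (s₀ j))⁻¹ * T j s) ^ p) _ (fun s => ?_) (fun s => ⟨hs1 (π j) s, rfl⟩)
      (fun h => ?_) (hT' (π j))
    · have h1 := hσA _ (hs1 j s)
      have h2 : (σ (T j (s₀ j)))⁻¹ * T (π j) s = σ ((T j (s₀ j))⁻¹ * T j s) := by
        rw [(hπ j).2.2 s, map_mul, map_inv₀]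
      rw [h2]
      exact h1
    · have h1 := congrFun h (s₀ j)
      simp only [Pi.zero_apply] at h1
      rw [inv_mul_cancel₀ (hs0 j), v.r_one, one_pow] at h1
      exact one_ne_zero h1
  · intro j l
    have h := local_ptE v (χ j) (χb j) (fun x => ⟨hχA j x, (hχb j x).symm⟩)
      (fun i => crd (Z j i)) (fun i => rep (red i (Z j i))) (fun i => hred1 i (Z j i)) G' d e hG'
      (fun s => χ j (∑ i, c (s, i) • ω i)) (fun s => hχA j _) (T j) (fun l => hval j l) (s₀ j)
      (hs1 j) l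
    have hpar : (fun s => v.r (χ j (∑ i, c (s, i) • ω i))) =
        par (χb j) ω (fun x => (c x : ZMod p)) := by
      funext s
      rw [← hχb, map_sum]
      unfold par
      refine Finset.sum_congr rfl fun i _ => ?_
      rw [map_zsmul, zsmul_eq_mul, map_intCast]
    rw [hpar] at h
    exact h
  · intro i s
    have h1 : ∑ j, red i (Z j i) = red i (incl (EQ (a i) (b i)) ℚ_[p] (P i)) :=
      (map_sum (red i) (fun j => Z j i) Finset.univ).symm.trans (congrArg (red i) (hsum i))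
    rw [h1]
    obtain ⟨u, hu, hu1⟩ := hPR i
    obtain ⟨u', hu', hu1'⟩ := hred1 i (incl (EQ (a i) (b i)) ℚ_[p] (P i))
    have h := uniq v (crd (incl (EQ (a i) (b i)) ℚ_[p] (P i)))
      (α := algebraMap ℚ_[p] (AlgebraicClosure ℚ_[p]) u) (α' := u')
      (fun h => hu ((algebraMap ℚ_[p] (AlgebraicClosure ℚ_[p])).injective
        (h.trans (map_zero _).symm)))
      (fun s => algebraMap (ZMod p) k (rep (R i) s)) (rep (red i (incl _ _ (P i))))
      (fun s => by
        rw [crd_incl, ← map_mul]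
        have h2 := plP_comp v hA hr0 _ (hu1 s).1
        rw [(hu1 s).2] at h2
        exact h2) hu1'
      ((RL_rep _).map _ (map_zero _) (map_one _)) (RL_rep _)
    exact congrFun h s

end main

end Pool.Agent.N890.DU.RED

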