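import Pool.Agent.N890.DU.Stm
import Pool.Agent.N890.US.SecU
import Pool.Agent.N890.US.Pnt

/-! Project DU (helper890): sections and points over number fields give Selmer classes. -/

set_option autoImplicit false

namespace Pool.Agent.N890.DU

open NumberField WeierstrassCurve IsDedekindDomain Pool.Agent.TH942 Pool.Agent.TH954
open Pool.Agent.W620.SC Pool.Agent.N89.CI Pool.Agent.N890.FD Pool.Agent.N890.US

open scoped Classical in
/-- the Selmer class of a section over a number field `F` which is given by places everywhere -/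
theorem isSel_of_large {F : Type} [Field F] [NumberField F] {r m : ℕ} {ι L' R₀ : Type} [Fintype ι]
    [CommRing R₀] (ρ : R₀ →+* F) (a b : Fin r → ℤ)
    (hdisc : ∀ i, 4 * a i ^ 3 + 27 * b i ^ 2 ≠ 0) (G' : L' → Pol R₀ r m ι)
    (d : L' → Fin r → ℕ) (e : L' → ℕ) (hG' : ∀ l, MHomog (G' l) (d l) (e l)) (N : ℕ) (hN : 1 ≤ N)
    (t : ι → F) {L Ω M B : Type} [Field L] [Field Ω] [Field M]
    [Field B] [Algebra F L] [Algebra L Ω] [Algebra F Ω] [IsScalarTower F L Ω] [Algebra L M]
    [Algebra F M] [IsScalarTower F L M] [Algebra F B] [IsAlgClosure L Ω] [IsAlgClosure F B]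
    (emb : M →ₐ[L] Ω) (P : ∀ i, ((sw (a i : F) (b i : F)).baseChange L).toAffine.Point)
    (hP : PtOver ρ (a := a) (b := b) G' t L P)
    (s : GalSection F L M B)
    (hdiv : (∀ i, ∃ Q : ((sw (a i : F) (b i : F)).baseChange M).toAffine.Point,
      N • Q = pm (sw (a i : F) (b i : F)) (IsScalarTower.toAlgHom F L M) (P i)) ∨
      ∃ U : Set (ValuationSubring L), (∀ O ∈ U, ∀ x : F, algebraMap F L x ∈ O) ∧
        unramified L Ω U ≤ emb.fieldRange)
    (hp : ∀ w : HeightOneSpectrum (𝓞 F),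
      ∃ p : Plc F M (AlgebraicClosure (w.adicCompletion F)), s.GivenBy (w.adicCompletion F) p) :
    ∃ ξ, IsSel ρ a b G' t N ξ := by
  have hD : ∀ i, 4 * (a i : F) ^ 3 + 27 * (b i : F) ^ 2 ≠ 0 := fun i => by
    exact_mod_cast hdisc i
  have hdiv' : ∀ i, ∃ Q : ((sw (a i : F) (b i : F)).baseChange M).toAffine.Point,
      N • Q = pm (sw (a i : F) (b i : F)) (IsScalarTower.toAlgHom F L M) (P i) := by
    rcases hdiv with h | ⟨U, hU, he⟩
    · exact h
    · intro i
      exact div_of_large (a i : F) (b i : F) (hD i) emb s U hU he (P i) hN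
  obtain ⟨T, hT, h0⟩ := hP
  obtain ⟨ξ, h1, h2, h3⟩ := sel_of_section_K ρ a b hD G' d e hG' t emb P T hT h0 s N hN hdiv'
  refine ⟨ξ, h1, h2, fun w => ?_⟩
  have : CharZero (w.adicCompletion F) :=
    charZero_of_injective_algebraMap (algebraMap F (w.adicCompletion F)).injective
  obtain ⟨p, hp⟩ := hp w
  exact h3 (w.adicCompletion F) p hp

open scoped Classical in
/-- the Selmer class of a point over a number field -/
theorem isSel_of_point {F : Type} [Field F] [NumberField F] {r m : ℕ} {ι L' R₀ : Type}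
    [CommRing R₀] (ρ : R₀ →+* F) (a b : Fin r → ℤ)
    (hdisc : ∀ i, 4 * a i ^ 3 + 27 * b i ^ 2 ≠ 0) (G' : L' → Pol R₀ r m ι) (N : ℕ) (hN : 1 ≤ N)
    (t : ι → F) (P : ∀ i, (sw (a i : F) (b i : F)).toAffine.Point) (T : Fin (m + 1) → F)
    (hT : T ≠ 0) (h0 : ∀ l, valP ρ (G' l) (fun i => crd (P i)) T t = 0) :
    ∃ ξ, IsSel ρ a b G' t N ξ := by
  have hD : ∀ i, 4 * (a i : F) ^ 3 + 27 * (b i : F) ^ 2 ≠ 0 := fun i => by
    exact_mod_cast hdisc i
  obtain ⟨ξ, h1, h2, h3⟩ := kummer_full (fun i => (a i : F)) (fun i => (b i : F)) hD N hN P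
  refine ⟨ξ, h1, h2, fun w => ?_⟩
  obtain ⟨ι₀, Q, h4, h5⟩ := h3 (w.adicCompletion F)
  refine ⟨ι₀, fun i => locHom (L := w.adicCompletion F) (sw (a i : F) (b i : F)) (P i), Q,
    ⟨fun s => algebraMap F _ (T s), ?_, fun l => ?_⟩, h4, h5⟩
  · intro h
    apply hT
    funext s
    have h1 := congrFun h s
    simp only [Pi.zero_apply] at h1
    exact (map_eq_zero _).1 h1
  · have h1 := valP_map ρ (algebraMap F (w.adicCompletion F)) (G' l) (fun i => crd (P i)) T t
    rw [h0 l, map_zero] at h1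
    rw [h1]
    congr 1
    funext i j
    exact crd_locHom (sw (a i : F) (b i : F)) (P i) j

end Pool.Agent.N890.DU
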