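import Pool.Agent.N890.DU.Stm

/-!
Project DU, TRP (helper42): transport of the local data from the completion of `ℚ` at the place of `p`
to `ℚ_p` along an isomorphism of `ℚ`-algebras and its extension to the algebraic closures.
-/

set_option autoImplicit false

namespace Pool.Agent.N890.DU.TRP

open NumberField WeierstrassCurve IsDedekindDomain Pool.Agent.TH942 Pool.Agent.TH954
open Pool.Agent.H901R3.MS Pool.Agent.N89.CI Pool.Agent.N890.FD Pool.Agent.N890.US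
open Pool.Agent.N890.DU

section gen

variable {L L' : Type} [Field L] [Field L'] [Algebra ℚ L] [Algebra ℚ L']

/-- an isomorphism of two fields extends to their algebraic closures -/
theorem exists_ext (φ : L ≃ₐ[ℚ] L') : ∃ Φ : AlgebraicClosure L ≃ₐ[ℚ] AlgebraicClosure L',
    ∀ x : L, Φ (algebraMap L (AlgebraicClosure L) x) = algebraMap L' (AlgebraicClosure L') (φ x) := by
  obtain ⟨e, he⟩ : ∃ e : AlgebraicClosure L ≃+* AlgebraicClosure L',
      ∀ x : L, e (algebraMap L (AlgebraicClosure L) x) =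
        algebraMap L' (AlgebraicClosure L') (φ x) :=
    ⟨IsAlgClosure.equivOfEquiv (AlgebraicClosure L) (AlgebraicClosure L') φ.toRingEquiv,
      fun x => IsAlgClosure.equivOfEquiv_algebraMap _ _ _ x⟩
  refine ⟨AlgEquiv.ofRingEquiv (f := e) fun q => ?_, fun x => he x⟩
  rw [IsScalarTower.algebraMap_apply ℚ L (AlgebraicClosure L), he, φ.commutes,
    ← IsScalarTower.algebraMap_apply]

variable (φ : L ≃ₐ[ℚ] L') (Φ : AlgebraicClosure L ≃ₐ[ℚ] AlgebraicClosure L')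

/-- conjugation of automorphisms -/
noncomputable def cj (hΦ : ∀ x : L, Φ (algebraMap L (AlgebraicClosure L) x) =
    algebraMap L' (AlgebraicClosure L') (φ x))
    (σ : AlgebraicClosure L' ≃ₐ[L'] AlgebraicClosure L') :
    AlgebraicClosure L ≃ₐ[L] AlgebraicClosure L :=
  AlgEquiv.ofRingEquiv (f := ((Φ.toRingEquiv.trans σ.toRingEquiv).trans Φ.symm.toRingEquiv))
    fun x => by
      show Φ.symm (σ (Φ (algebraMap L (AlgebraicClosure L) x))) = _
      rw [hΦ, σ.commutes, ← hΦ, Φ.symm_apply_apply]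

theorem cj_apply (hΦ : ∀ x : L, Φ (algebraMap L (AlgebraicClosure L) x) =
    algebraMap L' (AlgebraicClosure L') (φ x))
    (σ : AlgebraicClosure L' ≃ₐ[L'] AlgebraicClosure L') (z : AlgebraicClosure L) :
    Φ (cj φ Φ hΦ σ z) = σ (Φ z) := by
  show Φ (Φ.symm (σ (Φ z))) = _
  rw [Φ.apply_symm_apply]

theorem pm_congr {K : Type} [Field K] {E : WeierstrassCurve K} {L₁ L₂ : Type} [Field L₁]
    [Algebra K L₁] [Field L₂] [Algebra K L₂] {f g : L₁ →ₐ[K] L₂} (h : ∀ x, f x = g x)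
    (P : (E.baseChange L₁).toAffine.Point) : pm E f P = pm E g P := by
  have : f = g := AlgHom.ext h
  rw [this]

theorem crd_pm {K : Type} [Field K] {E : WeierstrassCurve K} {L₁ L₂ : Type} [Field L₁]
    [Algebra K L₁] [Field L₂] [Algebra K L₂] (f : L₁ →ₐ[K] L₂)
    (P : (E.baseChange L₁).toAffine.Point) (j : Fin 3) : crd (pm E f P) j = f (crd P j) := by
  match P with
  | .zero =>
    have h1 : pm E f (.zero : (E.baseChange L₁).toAffine.Point) = .zero := map_zero (pm E f)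
    rw [h1]
    fin_cases j <;> simp [Pool.Agent.TH954.crd]
  | .some x y h =>
    have h1 : pm E f (.some x y h : (E.baseChange L₁).toAffine.Point) =
      .some (f x) (f y) ((E.toAffine.baseChange_nonsingular f.injective x y).2 h) := rfl
    rw [h1]
    fin_cases j <;> simp [Pool.Agent.TH954.crd]

end gen

section tr

variable {L L' : Type} [Field L] [Field L'] [Algebra ℚ L] [Algebra ℚ L']

open scoped Classical in
theorem act_tr {E : WeierstrassCurve ℚ} (φ : L ≃ₐ[ℚ] L')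
    (Φ : AlgebraicClosure L ≃ₐ[ℚ] AlgebraicClosure L')
    (hΦ : ∀ x : L, Φ (algebraMap L (AlgebraicClosure L) x) =
      algebraMap L' (AlgebraicClosure L') (φ x))
    (σ : AlgebraicClosure L' ≃ₐ[L'] AlgebraicClosure L') (Q : AlgPt E L) :
    pm E (Φ : AlgebraicClosure L →ₐ[ℚ] AlgebraicClosure L') (act E (cj φ Φ hΦ σ) Q) =
      act E σ (pm E (Φ : AlgebraicClosure L →ₐ[ℚ] AlgebraicClosure L') Q) := by
  unfold act
  rw [pm_pm, pm_pm]
  exact pm_congr (fun x => cj_apply φ Φ hΦ σ x) Q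

open scoped Classical in
theorem incl_tr {E : WeierstrassCurve ℚ} (φ : L ≃ₐ[ℚ] L')
    (Φ : AlgebraicClosure L ≃ₐ[ℚ] AlgebraicClosure L')
    (hΦ : ∀ x : L, Φ (algebraMap L (AlgebraicClosure L) x) =
      algebraMap L' (AlgebraicClosure L') (φ x)) (P : (E.baseChange L).toAffine.Point) :
    pm E (Φ : AlgebraicClosure L →ₐ[ℚ] AlgebraicClosure L') (incl E L P) =
      incl E L' (pm E (φ : L →ₐ[ℚ] L') P) := by
  unfold incl
  rw [pm_pm, pm_pm]
  exact pm_congr (fun x => hΦ x) P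

open scoped Classical in
theorem locG_tr {E : WeierstrassCurve ℚ} (φ : L ≃ₐ[ℚ] L')
    (Φ : AlgebraicClosure L ≃ₐ[ℚ] AlgebraicClosure L')
    (hΦ : ∀ x : L, Φ (algebraMap L (AlgebraicClosure L) x) =
      algebraMap L' (AlgebraicClosure L') (φ x)) (N : ℕ)
    (ξ : (AlgebraicClosure ℚ ≃ₐ[ℚ] AlgebraicClosure ℚ) → AlgPt E ℚ)
    (P : (E.baseChange L).toAffine.Point) (h : LocG E N ξ L P) :
    LocG E N ξ L' (pm E (φ : L →ₐ[ℚ] L') P) := by
  obtain ⟨ι, Q, hQ, h⟩ := h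
  refine ⟨(Φ : AlgebraicClosure L →ₐ[ℚ] AlgebraicClosure L').comp ι,
    pm E (Φ : AlgebraicClosure L →ₐ[ℚ] AlgebraicClosure L') Q, ?_, ?_⟩
  · rw [← map_nsmul, hQ, incl_tr φ Φ hΦ]
  · intro σ τ hc
    have h1 : Compat ι (cj φ Φ hΦ σ) τ := by
      intro z
      apply Φ.injective
      rw [cj_apply]
      exact hc z
    rw [← pm_pm, h _ _ h1, map_sub, act_tr φ Φ hΦ]

open scoped Classical in
theorem lT_tr {K : Type} [Field K] [NumberField K] {r m : ℕ} {ι J : Type} (a b : Fin r → ℤ)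
    (G' : J → Pol (𝓞 K) r m ι) (D : ℕ) (t : ι → 𝓞 K) (φ : L ≃ₐ[ℚ] L')
    (Φ : AlgebraicClosure L ≃ₐ[ℚ] AlgebraicClosure L')
    (hΦ : ∀ x : L, Φ (algebraMap L (AlgebraicClosure L) x) =
      algebraMap L' (AlgebraicClosure L') (φ x))
    (P : ∀ i, ((EQ (a i) (b i)).baseChange L).toAffine.Point) (h : LT a b G' D t L P) :
    LT a b G' D t L' (fun i => pm (EQ (a i) (b i)) (φ : L →ₐ[ℚ] L') (P i)) := by
  obtain ⟨n, hn1, hnD, χ, Z, T, hT, hv, hs, hσ⟩ := h
  refine ⟨n, hn1, hnD, fun j => (Φ.toRingEquiv.toRingHom).comp (χ j),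
    fun j i => pm (EQ (a i) (b i)) (Φ : AlgebraicClosure L →ₐ[ℚ] AlgebraicClosure L') (Z j i),
    fun j s => Φ (T j s), ?_, ?_, ?_, ?_⟩
  · intro j h0
    apply hT j
    funext s
    have h1 := congrFun h0 s
    simpa using h1
  · intro j l
    have h1 := congrArg (Φ.toRingEquiv.toRingHom) (hv j l)
    rw [valP_map, map_zero] at h1
    rw [← h1]
    congr 1
    funext i s
    exact crd_pm _ _ _
  · intro i
    rw [← map_sum, hs, incl_tr φ Φ hΦ]
  · intro σ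
    obtain ⟨π, hπ⟩ := hσ (cj φ Φ hΦ σ)
    refine ⟨π, fun j => ?_⟩
    obtain ⟨h1, h2, h3⟩ := hπ j
    refine ⟨fun x => ?_, fun i => ?_, fun s => ?_⟩
    · show Φ (χ (π j) x) = σ (Φ (χ j x))
      rw [h1, cj_apply]
    · show pm (EQ (a i) (b i)) (Φ : AlgebraicClosure L →ₐ[ℚ] AlgebraicClosure L') (Z (π j) i) =
        act (EQ (a i) (b i)) σ
          (pm (EQ (a i) (b i)) (Φ : AlgebraicClosure L →ₐ[ℚ] AlgebraicClosure L') (Z j i))
      rw [h2, act_tr φ Φ hΦ]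
    · show Φ (T (π j) s) = σ (Φ (T j s))
      rw [h3, cj_apply]

end tr

theorem t_TRP : S_TRP := by
  intro p hp
  obtain ⟨v, ⟨φ⟩⟩ : ∃ v : HeightOneSpectrum (𝓞 ℚ), Nonempty (v.adicCompletion ℚ ≃ₐ[ℚ] ℚ_[p]) :=
    ⟨Rat.HeightOneSpectrum.primesEquiv.symm ⟨p, hp.out⟩,
      ⟨((Padic.adicCompletionEquiv (R := 𝓞 ℚ) ⟨p, hp.out⟩).symm).toAlgEquiv⟩⟩
  obtain ⟨Φ, hΦ⟩ := exists_ext φ
  refine ⟨v, fun K _ _ D r m ι L' a b _ G' t N η P hP hLT =>
    ⟨fun i => pm (EQ (a i) (b i)) (φ : v.adicCompletion ℚ →ₐ[ℚ] ℚ_[p]) (P i), fun i => ?_,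
      lT_tr a b G' D t φ Φ hΦ P hLT⟩⟩
  exact locG_tr φ Φ hΦ N (η i) (P i) (hP i)

end Pool.Agent.N890.DU.TRP
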