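import Pool.Agent.N890.DU.MainD
import Pool.Agent.N890.DU.Hyp
import Pool.Agent.N890.DU.SecF
import Pool.Agent.N890.DU.LCF
import Pool.Agent.N890.DU.TRP
import Pool.Agent.N890.DU.FROB
import Pool.Agent.N890.DU.RED
import Pool.Agent.N890.DU.QUO
import Pool.Agent.N890.DU.IND
import Pool.Agent.N890.DU.TOR
import Pool.Agent.N890.DU.GPI
import Pool.Agent.N890.DU.EQV
import Pool.Agent.N890.DU.EQT
import Pool.Agent.N890.DU.CHI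
import Pool.Agent.N890.DU.ASM
import Pool.Agent.N890.US.All

set_option autoImplicit false

namespace Pool.Agent.N890.DU

open NumberField Pool.Agent.N89.CI Pool.Agent.N890.US

theorem s_LCF : S_LCF := LCF.t_LCF
theorem s_TRP : S_TRP := TRP.t_TRP
theorem s_RED : S_RED := RED.t_RED FROB.t_FROB
theorem s_COUNT : S_COUNT :=
  ASM.t_COUNT QUO.t_QUO IND.t_IND (EQV.t_EQV TOR.t_TOR GPI.t_GPI) EQT.t_EQT CHI.t_CHI

/-- the main theorem with all its inputs -/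
theorem mainF (K : Type) [Field K] [NumberField K]
    (r m κ s D n₀ : ℕ) (hD : 1 ≤ D) (hs : s ≤ r + κ) (hr : 2 * (D * (r + κ - s)) < r)
    (a b : Fin r → ℤ)
    (hdisc : ∀ i, 4 * a i ^ 3 + 27 * b i ^ 2 ≠ 0) (M₁ D₁ : ℕ) (hM₁ : 0 < M₁) (hD₁ : 0 < D₁)
    (hss : ∀ i, ∀ p : ℕ, p.Prime → ¬ p ∣ D₁ → M₁ ∣ p + 1 →
      Nat.card {z : ZMod p × ZMod p // z.2 ^ 2 = z.1 ^ 3 + a i * z.1 + b i} = p)
    {L' : Type} (Φ : L' → Pol0 (𝓞 K) r m) (d' : L' → Fin r → ℕ) (e' : L' → ℕ)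
    (hΦ : ∀ l, MHomog0 (Φ l) (d' l) (e' l)) (ω : Module.Basis (Fin n₀) ℤ (𝓞 K))
    (d : Fin s → Fin r → ℕ) (e : Fin s → ℕ) (hd : ∀ j i, D ≤ d j i + 1) (he : ∀ j, D ≤ e j + 1)
    (B : ℝ) (M p₁ : ℕ) (hM1 : 0 < M)
    (hpts : ∀ (p : ℕ) [Fact p.Prime], p₁ ≤ p → M ∣ p + 1 → Few p κ B D a b Φ)
    (ε δ : ℝ) (hε : 0 < ε) (hδ : 0 < δ) :
    ∃ H₀ : ℕ, ∀ H : ℕ, H₀ ≤ H → ∃ N : ℕ, 1 ≤ N ∧ Squarefree N ∧
      Real.log N ≤ Real.log H ^ δ ∧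
      (({c : Idx m d e × Fin n₀ → ℤ | (∀ x, |c x| ≤ H) ∧
        SelD a b (Sum.elim (fun l => lift0 (Idx m d e) (Φ l)) (gen (𝓞 K) m d e)) ω D N
          c}.ncard : ℕ) : ℝ) ≤
        (H : ℝ) ^ ((Fintype.card (Idx m d e × Fin n₀) : ℝ) -
          ((r : ℝ) - (D * (r + κ - s) : ℕ) - r / 2) + ε) :=
  mainD s_CNT s_PRS s_COS s_BOX s_LCF s_TRP s_RED s_COUNT K r m κ s D n₀ hD hs hr a b hdisc
    M₁ D₁ hM₁ hD₁ hss Φ d' e' hΦ ω d e hd he B M p₁ hM1 hpts ε δ hε hδ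

end Pool.Agent.N890.DU
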