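import Pool.Agent.N890.DU.Stm

/-!
Project DU (helper890), piece CHI (helper933): the number of the homomorphisms from the ring of
integers to a field.
-/

set_option autoImplicit false

namespace Pool.Agent.N890.DU.CHI

open NumberField Pool.Agent.N890.DU

theorem lin_ind {K : Type} [Field K] [NumberField K] {n₀ : ℕ}
    (ω : Module.Basis (Fin n₀) ℤ (𝓞 K)) (k : Type) [Field k] :
    LinearIndependent k (fun (χ : 𝓞 K →+* k) (i : Fin n₀) => χ (ω i)) := by
  have h := linearIndependent_monoidHom (𝓞 K) k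
  have h1 : LinearIndependent k (fun χ : 𝓞 K →+* k => ((χ : 𝓞 K →* k) : 𝓞 K → k)) := by
    have hinj : Function.Injective (fun χ : 𝓞 K →+* k => (χ : 𝓞 K →* k)) := by
      intro a b hab
      ext x
      exact congrArg (fun f : 𝓞 K →* k => f x) hab
    exact h.comp _ hinj
  rw [linearIndependent_iff'] at h1 ⊢
  intro s g hg
  refine h1 s g ?_
  funext x
  have hx : ∀ χ : 𝓞 K →+* k, χ x = ∑ i, ((ω.repr x i : ℤ) : k) * χ (ω i) := by
    intro χ
    conv_lhs => rw [← ω.sum_repr x]
    rw [map_sum]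
    refine Finset.sum_congr rfl fun i _ => ?_
    rw [zsmul_eq_mul, map_mul, map_intCast]
  have e1 : (∑ χ ∈ s, g χ • ((χ : 𝓞 K →* k) : 𝓞 K → k)) x = ∑ χ ∈ s, g χ * χ x := by
    rw [Finset.sum_apply]
    rfl
  rw [e1]
  have e2 : ∀ i, ∑ χ ∈ s, g χ * χ (ω i) = 0 := by
    intro i
    have := congrFun hg i
    rw [Finset.sum_apply] at this
    simpa using this
  calc ∑ χ ∈ s, g χ * χ x = ∑ χ ∈ s, ∑ i, ((ω.repr x i : ℤ) : k) * (g χ * χ (ω i)) := by
        refine Finset.sum_congr rfl fun χ _ => ?_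
        rw [hx χ, Finset.mul_sum]
        exact Finset.sum_congr rfl fun i _ => by ring
    _ = ∑ i, ((ω.repr x i : ℤ) : k) * ∑ χ ∈ s, g χ * χ (ω i) := by
        rw [Finset.sum_comm]
        exact Finset.sum_congr rfl fun i _ => by rw [Finset.mul_sum]
    _ = 0 := Finset.sum_eq_zero fun i _ => by rw [e2 i, mul_zero]

theorem t_CHI : S_CHI := by
  intro K _ _ n₀ ω k _
  have h := lin_ind ω k
  have hfin : Finite (𝓞 K →+* k) := h.finite
  refine ⟨hfin, ?_⟩
  have : Fintype (𝓞 K →+* k) := Fintype.ofFinite _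
  have h2 := h.fintype_card_le_finrank
  rw [Module.finrank_fin_fun] at h2
  rwa [Nat.card_eq_fintype_card]

end Pool.Agent.N890.DU.CHI
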