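import Pool.Agent.N890.DU.Stm
import Pool.Agent.N890.US.Main

/-! Project DU (helper890): the sieve with abstract local conditions. -/

set_option autoImplicit false

namespace Pool.Agent.N890.DU

open NumberField WeierstrassCurve Pool.Agent.TH942 Pool.Agent.TH954 Pool.Agent.H901R3.MS
open Pool.Agent.N89.CI Pool.Agent.N890.FD Pool.Agent.N890.US
open Pool.Agent.Y213.T6 (exists_redW bc_eq)

/-- `R` is the reduction of `P` -/
def IsRed {r : ℕ} (a b : Fin r → ℤ) (p : ℕ) [Fact p.Prime]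
    (P : ∀ i, ((EQ (a i) (b i)).baseChange ℚ_[p]).toAffine.Point)
    (R : ∀ i, Pt (a i : ZMod p) (b i : ZMod p)) : Prop :=
  ∀ i, ∃ u : ℚ_[p], u ≠ 0 ∧ ∀ j, u * crd (P i) j ∈ (plP p).A ∧
    (plP p).r (u * crd (P i) j) = rep (R i) j

open scoped Classical in
theorem exists_redA {r : ℕ} (a b : Fin r → ℤ) (p : ℕ) [Fact p.Prime]
    (hd : ∀ i, Disc (a i : ZMod p) (b i : ZMod p)) :
    ∃ red : ∀ i, ((EQ (a i) (b i)).baseChange ℚ_[p]).toAffine.Point →+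
        Pt (a i : ZMod p) (b i : ZMod p),
      ∀ P : ∀ i, ((EQ (a i) (b i)).baseChange ℚ_[p]).toAffine.Point,
        IsRed a b p P fun i => red i (P i) := by
  have hint : ∀ x : ℤ, algebraMap ℚ ℚ_[p] (x : ℚ) = (x : ℚ_[p]) := fun x => map_intCast _ x
  have hW : ∀ i, (EQ (a i) (b i)).baseChange ℚ_[p] = CV (a i : ℚ_[p]) (b i : ℚ_[p]) := by
    intro i
    rw [bc_eq, hint, hint]
  have hred := fun i => exists_redW (plP p) ((plP p).int_mem (a i)) ((plP p).int_mem (b i))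
    ((plP p).r_int (a i)) ((plP p).r_int (b i)) (hd i) _ (hW i)
  choose red hred0 hred1 using hred
  exact ⟨red, fun P i => hred1 i (P i)⟩

open scoped Classical in
/-- the local and global data of one class -/
def Has {r : ℕ} {ι : Type} (a b : Fin r → ℤ) (N : ℕ)
    (Ω : ∀ (p : ℕ) [Fact p.Prime], (∀ i, Pt (a i : ZMod p) (b i : ZMod p)) → Set (ι → ZMod p))
    (Q : ℕ → Prop) (t : ι → ℤ) : Prop :=
  ∃ ξ : ∀ i : Fin r, (AlgebraicClosure ℚ ≃ₐ[ℚ] AlgebraicClosure ℚ) → AlgPt (EQ (a i) (b i)) ℚ,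
    (∀ i, IsCocycle (EQ (a i) (b i)) (ξ i)) ∧ (∀ i σ, N • ξ i σ = 0) ∧
    ∀ (p : ℕ) [Fact p.Prime], ∃ P : ∀ i, ((EQ (a i) (b i)).baseChange ℚ_[p]).toAffine.Point,
      (∀ i, LocAt (a i) (b i) N (ξ i) p (P i)) ∧
      (Q p → ∀ R, IsRed a b p P R → (fun j => (t j : ZMod p)) ∈ Ω p R)

open scoped Classical in
theorem coreA (hBOX : S_BOX) {r : ℕ} {ι : Type} [Fintype ι] (a b : Fin r → ℤ)
    (N : ℕ) (hN : Squarefree N) (Wb : Fin r → ℕ → ℝ)
    (hW : ∀ i, ∀ l ∈ N.primeFactors, (Zset (a i) (b i) l).Finite ∧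
      ((Zset (a i) (b i) l).ncard : ℝ) ≤ Wb i l)
    (T : Finset ℕ) (hT : ∀ p ∈ T, p.Prime)
    (hd : ∀ (p : ℕ) [Fact p.Prime], p ∈ T → ∀ i, Disc (a i : ZMod p) (b i : ZMod p))
    (θ : ℕ → ℝ) (hθ : ∀ p ∈ T, 0 ≤ θ p)
    (Ωf : ∀ (p : ℕ) [Fact p.Prime], (∀ i, Pt (a i : ZMod p) (b i : ZMod p)) → Set (ι → ZMod p))
    (hloc : ∀ (p : ℕ) [Fact p.Prime], p ∈ T → ∀ P₀ : ∀ i, Pt (a i : ZMod p) (b i : ZMod p),
      (({t : ι → ZMod p | ∃ (R : ∀ i, Pt (a i : ZMod p) (b i : ZMod p)),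
        t ∈ Ωf p (fun i => P₀ i + N • R i)}.ncard : ℕ) : ℝ) ≤
        θ p * (p : ℝ) ^ Fintype.card ι)
    (S' : Set (ι → ℤ)) (hS' : ∀ t ∈ S', Has a b N Ωf (fun p => p ∈ T) t)
    (H : ℕ) (hH : ∏ p ∈ T, p ≤ 2 * H + 1) :
    (({t : ι → ℤ | (∀ j, |t j| ≤ H) ∧ t ∈ S'}.ncard : ℕ) : ℝ) ≤
      (∏ i, ∏ l ∈ N.primeFactors, Wb i l) *
        ((2 * (2 * (H : ℝ) + 1)) ^ Fintype.card ι * ∏ p ∈ T, θ p) := by
  set S : Set (ι → ℤ) := {t : ι → ℤ | (∀ j, |t j| ≤ H) ∧ t ∈ S'} with hS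
  have hξ0 : ∀ t : S, Has a b N Ωf (fun p => p ∈ T) t.1 := fun t => hS' t.1 t.2.2
  choose ξ hξ1 hξ2 hξ3 using hξ0
  have hl : ∀ l ∈ N.primeFactors, N = N / l * l := fun l hl =>
    (Nat.div_mul_cancel (Nat.dvd_of_mem_primeFactors hl)).symm
  have hmem : ∀ (t : S) (i : Fin r) (l : ↥N.primeFactors),
      (fun σ => (N / l.1) • ξ t i σ) ∈ Zset (a i) (b i) l.1 := by
    intro t i l
    refine mem_Zset (hl l.1 l.2) (hξ1 t i) (hξ2 t i) (fun q _ => ?_)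
    obtain ⟨P, h, -⟩ := hξ3 t q
    exact ⟨P i, h i⟩
  let β : Type := ∀ (i : Fin r) (l : ↥N.primeFactors), ↥(Zset (a i) (b i) l.1)
  have hfin : ∀ (i : Fin r) (l : ↥N.primeFactors), Finite ↥(Zset (a i) (b i) l.1) :=
    fun i l => (hW i l.1 l.2).1.to_subtype
  have hβ : Finite β := inferInstance
  let f : S → β := fun t i l => ⟨_, hmem t i l⟩
  have hcardβ : (Nat.card β : ℝ) ≤ ∏ i, ∏ l ∈ N.primeFactors, Wb i l := by
    have h1 : Nat.card β = ∏ i : Fin r, ∏ l : ↥N.primeFactors,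
        Nat.card ↥(Zset (a i) (b i) l.1) := by
      simp only [β]
      rw [Nat.card_pi]
      exact Finset.prod_congr rfl fun i _ => Nat.card_pi
    rw [h1]
    push_cast
    refine Finset.prod_le_prod (fun i _ => Finset.prod_nonneg fun l _ => Nat.cast_nonneg _)
      fun i _ => ?_
    rw [← Finset.prod_coe_sort N.primeFactors (fun l => Wb i l)]
    refine Finset.prod_le_prod (fun l _ => Nat.cast_nonneg _) fun l _ => ?_
    rw [Nat.card_coe_set_eq]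
    exact (hW i l.1 l.2).2
  have hM0 : 0 ≤ (2 * (2 * (H : ℝ) + 1)) ^ Fintype.card ι * ∏ p ∈ T, θ p :=
    mul_nonneg (by positivity) (Finset.prod_nonneg hθ)
  refine (card_fiber S f ((2 * (2 * (H : ℝ) + 1)) ^ Fintype.card ι * ∏ p ∈ T, θ p) ?_).trans
    (mul_le_mul_of_nonneg_right hcardβ hM0)
  intro w
  by_cases hw : ∃ t₀ : S, f t₀ = w
  swap
  · refine ⟨∅, Set.finite_empty, by simpa using hM0, fun t ht => absurd ⟨t, ht⟩ hw⟩
  obtain ⟨t₀, ht₀⟩ := hw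
  -- the local conditions of the class `w`
  have key : ∀ p ∈ T, ∃ Ω : Set (ι → ZMod p),
      ((Ω.ncard : ℕ) : ℝ) ≤ θ p * (p : ℝ) ^ Fintype.card ι ∧
      ∀ t : S, f t = w → (fun j => (t.1 j : ZMod p)) ∈ Ω := by
    intro p hpT
    have : Fact p.Prime := ⟨hT p hpT⟩
    obtain ⟨red, hred⟩ := exists_redA a b p (hd p hpT)
    obtain ⟨P, hP2, -⟩ := hξ3 t₀ p
    refine ⟨_, hloc p hpT (fun i => red i (P i)), fun t ht => ?_⟩
    obtain ⟨P', hP'2, hP'1⟩ := hξ3 t p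
    have hdiff : ∀ i, ∃ R : Pt (a i : ZMod p) (b i : ZMod p),
        red i (P' i) - red i (P i) = N • R := by
      intro i
      refine exists_smul_of_sqf _ N hN fun l hlN => ?_
      have e1 : (fun σ => (N / l) • ξ t i σ) = fun σ => (N / l) • ξ t₀ i σ := by
        have h1 := congrFun (congrFun (ht.trans ht₀.symm) i) ⟨l, hlN⟩
        exact congrArg Subtype.val h1
      have h1 : LocAt (a i) (b i) l (fun σ => (N / l) • ξ t i σ) p (P' i) :=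
        locG_nsmul (hl l hlN) (hP'2 i)
      have h2 : LocAt (a i) (b i) l (fun σ => (N / l) • ξ t i σ) p (P i) := by
        rw [e1]
        exact locG_nsmul (hl l hlN) (hP2 i)
      have h3 := hmem t i ⟨l, hlN⟩
      obtain ⟨Z, hZ⟩ := locAt_unique h3.1 h3.2.1 h1 h2
      refine ⟨red i Z, ?_⟩
      rw [← map_sub, hZ, map_nsmul]
    choose R hR using hdiff
    refine ⟨R, ?_⟩
    have h2 : (fun i => red i (P i) + N • R i) = fun i => red i (P' i) := by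
      funext i
      rw [← hR i]
      abel
    rw [h2]
    exact hP'1 hpT _ (hred P')
  choose Ω hΩ1 hΩ2 using key
  refine ⟨{c : ι → ℤ | (∀ j, |c j| ≤ H) ∧ ∀ p ∈ T, (fun j => (c j : ZMod p)) ∈
    {x | ∃ h : p ∈ T, x ∈ Ω p h}}, ?_, ?_, ?_⟩
  · have : {c : ι → ℤ | ∀ j, c j ∈ Set.Icc (-(H : ℤ)) (H : ℤ)}.Finite :=
      Set.Finite.pi' fun _ => Set.finite_Icc _ _
    apply Set.Finite.subset this
    rintro c ⟨hc, -⟩ j
    exact ⟨(abs_le.1 (hc j)).1, (abs_le.1 (hc j)).2⟩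
  · refine hBOX ι T hT (fun p => {x | ∃ h : p ∈ T, x ∈ Ω p h}) θ hθ (fun p hp => ?_) H hH
    have : {x | ∃ h : p ∈ T, x ∈ Ω p h} = Ω p hp := by
      ext x
      exact ⟨fun ⟨_, h⟩ => h, fun h => ⟨hp, h⟩⟩
    rw [this]
    exact hΩ1 p hp
  · intro t ht
    exact ⟨t.2.1, fun p hp => ⟨hp, hΩ2 p hp t ht⟩⟩

end Pool.Agent.N890.DU
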