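import Pool.Agent.N890.DU.CoreA

/-! Project DU (helper890): the abstract main theorem. -/

set_option autoImplicit false

namespace Pool.Agent.N890.DU

open NumberField WeierstrassCurve Pool.Agent.TH942 Pool.Agent.TH954 Pool.Agent.H901R3.MS
open Pool.Agent.N89.CI Pool.Agent.N890.FD Pool.Agent.N890.US Filter

/-- large primes of good reduction -/
def GoodP {r : ℕ} (a b : Fin r → ℤ) (p₁ p : ℕ) : Prop :=
  p₁ ≤ p ∧ ∀ [Fact p.Prime] (i : Fin r), Disc (a i : ZMod p) (b i : ZMod p)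

open scoped Classical in
/-- **the abstract main theorem** -/
theorem mainA (hCNT : S_CNT) (hPRS : S_PRS) (hCOS : S_COS) (hBOX : S_BOX) (r κ s : ℕ)
    (hs : (r : ℝ) / 2 + κ < s) (a b : Fin r → ℤ)
    (hdisc : ∀ i, 4 * a i ^ 3 + 27 * b i ^ 2 ≠ 0) (M₁ D₁ : ℕ) (hM₁ : 0 < M₁) (hD₁ : 0 < D₁)
    (hss : ∀ i, ∀ p : ℕ, p.Prime → ¬ p ∣ D₁ → M₁ ∣ p + 1 →
      Nat.card {z : ZMod p × ZMod p // z.2 ^ 2 = z.1 ^ 3 + a i * z.1 + b i} = p)
    (M p₁ : ℕ) (hM1 : 0 < M) (B₀ : ℝ) (hB₀1 : 1 ≤ B₀) (ι : Type) [Fintype ι]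
    (Ωf : ∀ (p : ℕ) [Fact p.Prime], (∀ i, Pt (a i : ZMod p) (b i : ZMod p)) → Set (ι → ZMod p))
    (SN : ℕ → Set (ι → ℤ))
    (hSN : ∀ N, ∀ t ∈ SN N, Has a b N Ωf
      (GoodP a b p₁) t)
    (hΩ : ∀ (p : ℕ) [Fact p.Prime], p₁ ≤ p → M ∣ p + 1 →
      (∀ i, Disc (a i : ZMod p) (b i : ZMod p)) →
      (∀ i, p ≤ 2 * Nat.card (Pt (a i : ZMod p) (b i : ZMod p))) →
      ∀ Ks : ∀ i, Set (Pt (a i : ZMod p) (b i : ZMod p)),
        (({t : ι → ZMod p | ∃ R : ∀ i, Pt (a i : ZMod p) (b i : ZMod p), (∀ i, R i ∈ Ks i) ∧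
          t ∈ Ωf p R}.ncard : ℕ) : ℝ) ≤ (B₀ * (p : ℝ) ^ κ / (p : ℝ) ^ s) *
          (p : ℝ) ^ Fintype.card ι * ∏ i, ((Ks i).ncard : ℝ))
    (ε δ : ℝ) (hε : 0 < ε) (hδ : 0 < δ) :
    ∃ H₀ : ℕ, ∀ H : ℕ, H₀ ≤ H → ∃ N : ℕ, 1 ≤ N ∧ Squarefree N ∧
      Real.log N ≤ Real.log H ^ δ ∧
      (({c : ι → ℤ | (∀ x, |c x| ≤ H) ∧ c ∈ SN N}.ncard : ℕ) : ℝ)
        ≤ (H : ℝ) ^ ((Fintype.card ι : ℝ) - ((s : ℝ) - κ - r / 2) + ε) := by
  obtain ⟨A, C, hAC⟩ := cnt_common hCNT a b hdisc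
  have hκs : κ ≤ s := by
    have h1 : (κ : ℝ) < s := by
      have : (0 : ℝ) ≤ (r : ℝ) / 2 := by positivity
      linarith
    exact_mod_cast h1.le
  have hκsR : (κ : ℝ) ≤ s := by exact_mod_cast hκs
  set β : ℝ := (s : ℝ) - κ - r / 2 with hβ
  have hβ0 : 0 < β := by rw [hβ]; linarith
  set r' : ℝ := (r : ℝ) + s - κ with hr'
  have hr'0 : 0 ≤ r' := by
    have : (0 : ℝ) ≤ r := Nat.cast_nonneg _
    rw [hr']
    linarith
  set B₁ : ℝ := 2 ^ r * B₀ with hB₁
  have hB₁1 : 1 ≤ B₁ := by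
    have : (1 : ℝ) ≤ 2 ^ r := one_le_pow₀ (by norm_num)
    rw [hB₁]
    nlinarith
  -- the parameter `η`
  obtain ⟨η, hη0, hη1, hη2, hη3, hη4, hη5⟩ : ∃ η : ℝ, 0 < η ∧ η < 1 / 4 ∧
      4 * (η * (A + 1)) ≤ 1 ∧ η * r' ≤ ε / 2 ∧ η * r' ≤ β ∧ 4 * η ≤ δ := by
    refine ⟨min (min (1 / 8) (1 / (4 * ((A : ℝ) + 1)))) (min (min (ε / 2 / (r' + 1))
      (β / (r' + 1))) (δ / 4)), ?_, ?_, ?_, ?_, ?_, ?_⟩
    · refine lt_min (lt_min (by norm_num) (by positivity)) (lt_min (lt_min ?_ ?_) (by positivity))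
      · positivity
      · positivity
    · exact ((min_le_left _ _).trans (min_le_left _ _)).trans_lt (by norm_num)
    · have h1 : min (min (1 / 8) (1 / (4 * ((A : ℝ) + 1)))) (min (min (ε / 2 / (r' + 1))
        (β / (r' + 1))) (δ / 4)) ≤ 1 / (4 * ((A : ℝ) + 1)) :=
        (min_le_left _ _).trans (min_le_right _ _)
      rw [le_div_iff₀ (by positivity)] at h1
      linarith
    · have h1 : min (min (1 / 8) (1 / (4 * ((A : ℝ) + 1)))) (min (min (ε / 2 / (r' + 1))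
        (β / (r' + 1))) (δ / 4)) ≤ ε / 2 / (r' + 1) :=
        (min_le_right _ _).trans ((min_le_left _ _).trans (min_le_left _ _))
      have h2 := mul_le_mul_of_nonneg_right h1 hr'0
      refine h2.trans ?_
      rw [div_mul_eq_mul_div, div_le_iff₀ (by linarith)]
      nlinarith
    · have h1 : min (min (1 / 8) (1 / (4 * ((A : ℝ) + 1)))) (min (min (ε / 2 / (r' + 1))
        (β / (r' + 1))) (δ / 4)) ≤ β / (r' + 1) :=
        (min_le_right _ _).trans ((min_le_left _ _).trans (min_le_right _ _))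
      have h2 := mul_le_mul_of_nonneg_right h1 hr'0
      refine h2.trans ?_
      rw [div_mul_eq_mul_div, div_le_iff₀ (by linarith)]
      nlinarith
    · have h1 : min (min (1 / 8) (1 / (4 * ((A : ℝ) + 1)))) (min (min (ε / 2 / (r' + 1))
        (β / (r' + 1))) (δ / 4)) ≤ δ / 4 := (min_le_right _ _).trans (min_le_right _ _)
      linarith
  set γ : ℝ := β - η * r' with hγ
  set Δ : ℕ := ∏ i, (4 * a i ^ 3 + 27 * b i ^ 2).natAbs with hΔ
  have hΔ0 : 0 < Δ := by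
    refine Nat.pos_of_ne_zero ?_
    rw [hΔ, Finset.prod_ne_zero_iff]
    intro i _
    exact Int.natAbs_ne_zero.2 (hdisc i)
  obtain ⟨X₀, hX₀⟩ := hPRS (M₁ * M) (D₁ * Δ) 3 (Nat.mul_pos hM₁ hM1) (Nat.mul_pos hD₁ hΔ0) η hη0 hη1
  set n : ℕ := Fintype.card ι with hn
  have hev := (((ev_main (r * C : ℝ) (n * Real.log 6) (Real.log B₁) (2 * β) (ε / 2)
    (Real.log_nonneg hB₁1) (by linarith)).and (eventually_ge_atTop (max 4 (p₁ : ℝ)))).and
    (eventually_ge_atTop X₀))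
  have hev2 := (Real.tendsto_log_atTop.comp tendsto_natCast_atTop_atTop).eventually hev
  obtain ⟨H₀, hH₀⟩ := (hev2.and (eventually_ge_atTop 1)).exists_forall_of_atTop
  refine ⟨H₀, fun H hH => ?_⟩
  obtain ⟨⟨⟨h1, h2⟩, h3⟩, hH1⟩ := hH₀ H hH
  simp only [Function.comp_apply] at h1 h2 h3
  set L : ℝ := Real.log H with hL
  have hL4 : 4 ≤ L := (le_max_left _ _).trans h2
  have hLp : (p₁ : ℝ) ≤ L := (le_max_right _ _).trans h2
  have hHR : (1 : ℝ) ≤ H := by exact_mod_cast hH1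
  have hH0 : (0 : ℝ) < H := by linarith
  have hL0 : 0 < L := by linarith
  set X : ℝ := L ^ 2 with hX
  have hXL : L ≤ X := by rw [hX]; nlinarith
  have hX1 : 1 ≤ X := by linarith
  have hX0 : 0 < X := by linarith
  obtain ⟨S, N, hN1, hN, hN2, hS, hScard⟩ := hX₀ X (h3.trans hXL)
  obtain ⟨hc1, hc2⟩ := level_bounds N hN (X ^ η) (Real.one_le_rpow hX1 hη0.le)
    (fun l hl hlN => (hN2 l hl hlN).2)
  refine ⟨N, hN1, hN, ?_, ?_⟩
  · refine hc2.trans ?_
    rw [hX, ← Real.rpow_natCast L 2, ← Real.rpow_natCast _ 2, ← Real.rpow_mul hL0.le,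
      ← Real.rpow_mul hL0.le]
    apply Real.rpow_le_rpow_of_exponent_le (by linarith)
    push_cast
    linarith
  -- a lower bound for the primes
  have hXL2 : 2 + L ≤ X ^ (1 - η) := by
    have h4 : X ^ (3 / 4 : ℝ) ≤ X ^ (1 - η) :=
      Real.rpow_le_rpow_of_exponent_le hX1 (by linarith)
    have h5 : X ^ (3 / 4 : ℝ) = L * L ^ (1 / 2 : ℝ) := by
      rw [hX, ← Real.rpow_natCast L 2, ← Real.rpow_mul hL0.le]
      nth_rw 2 [← Real.rpow_one L]
      rw [← Real.rpow_add hL0]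
      norm_num
    have h6 : (2 : ℝ) ≤ L ^ (1 / 2 : ℝ) := by
      rw [← Real.sqrt_eq_rpow]
      apply Real.le_sqrt_of_sq_le
      linarith
    rw [h5] at h4
    nlinarith
  set k : ℕ := ⌊Real.log (2 * H + 1) / Real.log X⌋₊ with hk
  have hlogX : 1 ≤ Real.log X := by
    rw [Real.le_log_iff_exp_le hX0]
    have := Real.exp_one_lt_d9
    nlinarith
  have h21 : Real.log (2 * H + 1) ≤ 2 + L := by
    have h4 : Real.log (2 * H + 1) ≤ Real.log (3 * H) :=
      Real.log_le_log (by linarith) (by linarith)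
    rw [Real.log_mul (by norm_num) hH0.ne', ← hL] at h4
    have h5 : Real.log 3 ≤ 3 - 1 := Real.log_le_sub_one_of_pos (by norm_num)
    linarith
  have h210 : 0 ≤ Real.log (2 * H + 1) := Real.log_nonneg (by linarith)
  have hkS : k ≤ S.card := by
    have h4 : (k : ℝ) ≤ Real.log (2 * H + 1) / Real.log X :=
      Nat.floor_le (div_nonneg h210 (by linarith))
    have h5 : Real.log (2 * H + 1) / Real.log X ≤ Real.log (2 * H + 1) :=
      div_le_self h210 hlogX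
    exact_mod_cast ((h4.trans h5).trans (h21.trans hXL2)).trans hScard
  obtain ⟨T, hTS, hTk⟩ := Finset.exists_subset_card_eq hkS
  have hTprod : ∏ p ∈ T, p ≤ 2 * H + 1 := by
    have h4 : ((∏ p ∈ T, p : ℕ) : ℝ) ≤ X ^ k := by
      push_cast
      calc ∏ p ∈ T, (p : ℝ) ≤ ∏ _p ∈ T, X :=
            Finset.prod_le_prod (fun p _ => Nat.cast_nonneg _) fun p hp => (hS p (hTS hp)).2.2.1
        _ = X ^ k := by rw [Finset.prod_const, hTk]
    have h5 : X ^ k ≤ 2 * H + 1 := by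
      have h6 : (k : ℝ) * Real.log X ≤ Real.log (2 * H + 1) := by
        have h7 : (k : ℝ) ≤ Real.log (2 * H + 1) / Real.log X :=
          Nat.floor_le (div_nonneg h210 (by linarith))
        rwa [le_div_iff₀ (by linarith)] at h7
      rw [← Real.log_pow] at h6
      exact (Real.log_le_log_iff (by positivity) (by positivity)).1 h6
    exact_mod_cast h4.trans h5
  -- the primes of `T`
  have hT : ∀ p ∈ T, p.Prime ∧ 2 < p ∧ p₁ ≤ p ∧ (∀ i, ¬ (p : ℤ) ∣ 4 * a i ^ 3 + 27 * b i ^ 2) ∧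
      ¬ p ∣ D₁ ∧ M₁ ∣ p + 1 ∧ M ∣ p + 1 := by
    intro p hp
    obtain ⟨g1, g2, g3, g4, g5, g6⟩ := hS p (hTS hp)
    have g7 : 2 + L ≤ p := hXL2.trans g2
    refine ⟨g1, ?_, ?_, ?_, fun h => g4 (h.mul_right _), (Dvd.intro _ rfl).trans g5,
      (Dvd.intro_left _ rfl).trans g5⟩
    · have : (2 : ℝ) < p := by linarith
      exact_mod_cast this
    · have : (p₁ : ℝ) ≤ p := by linarith
      exact_mod_cast this
    · intro i h
      apply g4
      apply Dvd.dvd.mul_left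
      exact (Int.natCast_dvd.1 h).trans (Finset.dvd_prod_of_mem _ (Finset.mem_univ i))
  have hDisc : ∀ (p : ℕ) [Fact p.Prime], p ∈ T → ∀ i, Disc (a i : ZMod p) (b i : ZMod p) := by
    intro p _ hp i
    have h2p : (2 : ZMod p) ≠ 0 := by
      intro h
      have h3 : ((2 : ℕ) : ZMod p) = 0 := by exact_mod_cast h
      rw [ZMod.natCast_eq_zero_iff] at h3
      have := Nat.le_of_dvd (by norm_num) h3
      have := (hT p hp).2.1
      omega
    exact Pool.Agent.W659.FD.disc_of h2p (by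
      intro h
      exact (hT p hp).2.2.2.1 i ((ZMod.intCast_zmod_eq_zero_iff_dvd _ p).1 h))
  have hcore := coreA hBOX a b N hN
    (fun _ l => Real.exp (C * (l : ℝ) ^ A)) (fun i l hl => by
      have hlp := Nat.prime_of_mem_primeFactors hl
      exact hAC i l hlp (hN2 l hlp (Nat.dvd_of_mem_primeFactors hl)).1)
    T (fun p hp => (hT p hp).1) (fun p _ hp i => hDisc p hp i)
    (fun _ => B₁ * X ^ (-γ)) (fun p _ => by positivity) Ωf (fun p _ hp P₀ => by
      obtain ⟨g1, g2, g3, g4, g5, g6, g7⟩ := hT p hp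
      obtain ⟨-, k2, k3, -, -, k6⟩ := hS p (hTS hp)
      have hpR : (0 : ℝ) < p := by exact_mod_cast g1.pos
      have hpt := fun i => card_pt p (a i) (b i) g2 (g4 i) (hss i p g1 g5 g6)
      have hfinPt : ∀ i, Finite (Pt (a i : ZMod p) (b i : ZMod p)) := fun i => (hpt i).1
      have hg0 : 0 < Nat.gcd (p + 1) N := Nat.gcd_pos_of_pos_left _ (Nat.succ_pos p)
      have hgR : (0 : ℝ) < (Nat.gcd (p + 1) N : ℝ) := by exact_mod_cast hg0
      have h5 := hΩ p g3 g7 (hDisc p hp) (fun i => by rw [(hpt i).2]; omega)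
        (fun i => Set.range fun R : Pt (a i : ZMod p) (b i : ZMod p) => P₀ i + N • R)
      have h7 : ∀ i, (((Set.range fun R : Pt (a i : ZMod p) (b i : ZMod p) =>
          P₀ i + N • R).ncard : ℕ) : ℝ) ≤ ((p : ℝ) + 1) / (Nat.gcd (p + 1) N : ℝ) := by
        intro i
        rw [le_div_iff₀ hgR]
        have h3 := card_range_le hCOS (Pt (a i : ZMod p) (b i : ZMod p)) N hN
        rw [(hpt i).2] at h3
        have h4 : (Set.range fun R : Pt (a i : ZMod p) (b i : ZMod p) => P₀ i + N • R) =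
            (fun x => P₀ i + x) '' Set.range fun R : Pt (a i : ZMod p) (b i : ZMod p) => N • R := by
          ext x
          simp only [Set.mem_range, Set.mem_image, exists_exists_eq_and]
        rw [h4, Set.ncard_image_of_injective _ (add_right_injective _), ← Nat.card_coe_set_eq]
        exact_mod_cast h3
      have h8 : ∏ i, (((Set.range fun R : Pt (a i : ZMod p) (b i : ZMod p) =>
          P₀ i + N • R).ncard : ℕ) : ℝ) ≤ (((p : ℝ) + 1) / (Nat.gcd (p + 1) N : ℝ)) ^ r := by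
        calc _ ≤ ∏ _i : Fin r, ((p : ℝ) + 1) / (Nat.gcd (p + 1) N : ℝ) :=
              Finset.prod_le_prod (fun i _ => Nat.cast_nonneg _) fun i _ => h7 i
          _ = _ := by rw [Finset.prod_const, Finset.card_univ, Fintype.card_fin]
      have h9 : {t : ι → ZMod p | ∃ R : ∀ i, Pt (a i : ZMod p) (b i : ZMod p),
          t ∈ Ωf p (fun i => P₀ i + N • R i)}.ncard ≤
          {t : ι → ZMod p | ∃ R : ∀ i, Pt (a i : ZMod p) (b i : ZMod p),
          (∀ i, R i ∈ Set.range fun R : Pt (a i : ZMod p) (b i : ZMod p) => P₀ i + N • R) ∧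
          t ∈ Ωf p R}.ncard := by
        refine Set.ncard_le_ncard ?_ (Set.toFinite _)
        rintro t ⟨R, hR⟩
        exact ⟨_, fun i => ⟨R i, rfl⟩, hR⟩
      refine (Nat.cast_le.2 h9).trans (h5.trans ?_)
      have h6 := theta_bound r κ s hκs η B₀ X p (Nat.gcd (p + 1) N : ℝ) hη0.le (by linarith)
        (by linarith) hX1 k2 k3 k6
      calc B₀ * (p : ℝ) ^ κ / (p : ℝ) ^ s * (p : ℝ) ^ Fintype.card ι *
            ∏ i, (((Set.range fun R : Pt (a i : ZMod p) (b i : ZMod p) =>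
              P₀ i + N • R).ncard : ℕ) : ℝ)
          ≤ B₀ * (p : ℝ) ^ κ / (p : ℝ) ^ s * (p : ℝ) ^ Fintype.card ι *
            (((p : ℝ) + 1) / (Nat.gcd (p + 1) N : ℝ)) ^ r :=
            mul_le_mul_of_nonneg_left h8 (by positivity)
        _ = ((((p : ℝ) + 1) / (Nat.gcd (p + 1) N : ℝ)) ^ r *
            (B₀ * (p : ℝ) ^ κ / (p : ℝ) ^ s)) * (p : ℝ) ^ Fintype.card ι := by ring
        _ ≤ (B₁ * X ^ (-γ)) * (p : ℝ) ^ Fintype.card ι := by
            refine mul_le_mul_of_nonneg_right (h6.trans (le_of_eq ?_)) (by positivity)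
            rw [hB₁, hγ]
            congr 2
            ring)
    (SN N) (fun t ht => by
      obtain ⟨ξ, h4, h5, h6⟩ := hSN N t ht
      refine ⟨ξ, h4, h5, fun p _ => ?_⟩
      obtain ⟨P, h7, h8⟩ := h6 p
      exact ⟨P, h7, fun hp => h8 ⟨(hT p hp).2.2.1, fun i => hDisc p hp i⟩⟩)
    H hTprod
  refine hcore.trans ?_
  -- the bound for the number of the classes
  have hW : (∏ _i : Fin r, ∏ l ∈ N.primeFactors, Real.exp (C * (l : ℝ) ^ A)) ≤
      Real.exp (r * (X ^ η * (C * (X ^ η) ^ A))) := by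
    rw [Finset.prod_const, Finset.card_univ, Fintype.card_fin, ← Real.exp_sum, ← Real.exp_nat_mul]
    apply Real.exp_le_exp.2
    apply mul_le_mul_of_nonneg_left _ (Nat.cast_nonneg _)
    calc ∑ l ∈ N.primeFactors, (C : ℝ) * (l : ℝ) ^ A
        ≤ ∑ _l ∈ N.primeFactors, (C : ℝ) * (X ^ η) ^ A := by
          refine Finset.sum_le_sum fun l hl => ?_
          have hlp := Nat.prime_of_mem_primeFactors hl
          exact mul_le_mul_of_nonneg_left (pow_le_pow_left₀ (Nat.cast_nonneg _)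
            (hN2 l hlp (Nat.dvd_of_mem_primeFactors hl)).2 A) (Nat.cast_nonneg _)
      _ = N.primeFactors.card * ((C : ℝ) * (X ^ η) ^ A) := by
          rw [Finset.sum_const, nsmul_eq_mul]
      _ ≤ X ^ η * (C * (X ^ η) ^ A) :=
          mul_le_mul_of_nonneg_right hc1 (by positivity)
  have hprodT : ∏ _p ∈ T, B₁ * X ^ (-γ) = (B₁ * X ^ (-γ)) ^ k := by
    rw [Finset.prod_const, hTk]
  rw [hprodT]
  refine (mul_le_mul_of_nonneg_right hW (by positivity)).trans ?_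
  exact final_ineq n r A C β γ η ε B₁ L X H k hH1 hL hL4 hX hB₁1 (by rw [hγ]; linarith)
    (by
      rw [hγ]
      have : 0 ≤ η * r' := by positivity
      linarith) (by rw [hγ]; linarith) hη0.le hη2 hk h1

end Pool.Agent.N890.DU
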