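import Pool.Agent.N890.DU.MainA

/-! Project DU (helper890): the main theorem from its inputs. -/

set_option autoImplicit false

namespace Pool.Agent.N890.DU

open NumberField WeierstrassCurve Pool.Agent.TH942 Pool.Agent.TH954 Pool.Agent.H901R3.MS
open Pool.Agent.N89.CI Pool.Agent.N890.FD Pool.Agent.N890.US

/-- the parameters `∑ c (s, i) ω i` in the field `F` -/
noncomputable def parF {K : Type} [Field K] [NumberField K] {n₀ : ℕ} {ι : Type} (F : Type) [Field F]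
    [Algebra K F] (ω : Fin n₀ → 𝓞 K) (c : ι × Fin n₀ → ℤ) : ι → F :=
  fun s => algebraMap K F (algebraMap (𝓞 K) K (∑ i, c (s, i) • ω i))

/-- there is a Selmer class of level `N` over some extension `F` of `K` with `[F : ℚ] ≤ D` -/
def SelD {K : Type} [Field K] [NumberField K] {r m n₀ : ℕ} {ι L' : Type} (a b : Fin r → ℤ)
    (G' : L' → Pol (𝓞 K) r m ι) (ω : Fin n₀ → 𝓞 K) (D N : ℕ) (c : ι × Fin n₀ → ℤ) : Prop :=
  ∃ (F : Type) (_ : Field F) (_ : NumberField F) (_ : Algebra K F), Module.finrank ℚ F ≤ D ∧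
    ∃ ξ, IsSel ((algebraMap K F).comp (algebraMap (𝓞 K) K)) a b G' (parF F ω c) N ξ

open scoped Classical in
theorem mainD (hCNT : S_CNT) (hPRS : S_PRS) (hCOS : S_COS) (hBOX : S_BOX) (hLCF : S_LCF)
    (hTRP : S_TRP) (hRED : S_RED) (hCOUNT : S_COUNT) (K : Type) [Field K] [NumberField K]
    (r m κ s D n₀ : ℕ) (hD : 1 ≤ D) (hs : s ≤ r + κ) (hr : 2 * (D * (r + κ - s)) < r)
    (a b : Fin r → ℤ)
    (hdisc : ∀ i, 4 * a i ^ 3 + 27 * b i ^ 2 ≠ 0) (M₁ D₁ : ℕ) (hM₁ : 0 < M₁) (hD₁ : 0 < D₁)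
    (hss : ∀ i, ∀ p : ℕ, p.Prime → ¬ p ∣ D₁ → M₁ ∣ p + 1 →
      Nat.card {z : ZMod p × ZMod p // z.2 ^ 2 = z.1 ^ 3 + a i * z.1 + b i} = p)
    {L' : Type} (Φ : L' → Pol0 (𝓞 K) r m) (d' : L' → Fin r → ℕ) (e' : L' → ℕ)
    (hΦ : ∀ l, MHomog0 (Φ l) (d' l) (e' l)) (ω : Module.Basis (Fin n₀) ℤ (𝓞 K))
    (d : Fin s → Fin r → ℕ) (e : Fin s → ℕ) (hd : ∀ j i, D ≤ d j i + 1) (he : ∀ j, D ≤ e j + 1)
    (B : ℝ) (M p₁ : ℕ) (hM1 : 0 < M)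
    (hpts : ∀ (p : ℕ) [Fact p.Prime], p₁ ≤ p → M ∣ p + 1 → Few p κ B D a b Φ)
    (ε δ : ℝ) (hε : 0 < ε) (hδ : 0 < δ) :
    ∃ H₀ : ℕ, ∀ H : ℕ, H₀ ≤ H → ∃ N : ℕ, 1 ≤ N ∧ Squarefree N ∧
      Real.log N ≤ Real.log H ^ δ ∧
      (({c : Idx m d e × Fin n₀ → ℤ | (∀ x, |c x| ≤ H) ∧
        SelD a b (Sum.elim (fun l => lift0 (Idx m d e) (Φ l)) (gen (𝓞 K) m d e)) ω D N
          c}.ncard : ℕ) : ℝ) ≤
        (H : ℝ) ^ ((Fintype.card (Idx m d e × Fin n₀) : ℝ) -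
          ((r : ℝ) - (D * (r + κ - s) : ℕ) - r / 2) + ε) := by
  obtain ⟨C, p₂, hC, hcount⟩ := hCOUNT K r m κ s D n₀ hD hs L' a b Φ d' e' hΦ ω d e hd he B
  choose k hk1 hk2 hk3 hk4 using hRED
  refine mainA hCNT hPRS hCOS hBOX r (D * (r + κ - s)) r ?_ a b hdisc M₁ D₁ hM₁ hD₁ hss M
    (max p₁ p₂) hM1 C hC (Idx m d e × Fin n₀)
    (fun p _ R => {c | KD a b (Sum.elim (fun l => lift0 (Idx m d e) (Φ l)) (gen (𝓞 K) m d e))
      ω D p (k p) c R})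
    (fun N => {c | SelD a b (Sum.elim (fun l => lift0 (Idx m d e) (Φ l)) (gen (𝓞 K) m d e)) ω D N
      c}) ?_ ?_ ε δ hε hδ
  · have h1 : ((2 * (D * (r + κ - s)) : ℕ) : ℝ) < r := by exact_mod_cast hr
    push_cast at h1 ⊢
    linarith
  · rintro N c ⟨F, _, _, _, hF, ξ, hξ⟩
    obtain ⟨η, h1, h2, h3⟩ := hLCF K F D hF r m (Idx m d e) (L' ⊕ Fin s) a b hdisc _
      (fun s => ∑ i, c (s, i) • ω i) N ξ hξ
    refine ⟨η, h1, h2, fun p _ => ?_⟩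
    obtain ⟨v, hv⟩ := hTRP p
    obtain ⟨P, h4, h5⟩ := h3 v
    obtain ⟨P', h6, h7⟩ := hv K D r m (Idx m d e) (L' ⊕ Fin s) a b hdisc _
      (fun s => ∑ i, c (s, i) • ω i) N η P h4 h5
    refine ⟨P', h6, fun hQ R hR => ?_⟩
    exact hk4 p K D r m n₀ (Idx m d e) (L' ⊕ Fin s) a b (fun i => hQ.2 i) _
      (Sum.elim d' d) (Sum.elim e' e) (mhomog_family Φ d' e' hΦ d e) ω c P' R hR h7
  · intro p _ hp hM hdp hcard Ks
    have := hk3 p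
    refine (hcount p ((le_max_right _ _).trans hp) hdp hcard
      (hpts p ((le_max_left _ _).trans hp) hM) (k p) Ks).trans (le_of_eq ?_)
    rw [Fintype.card_prod, Fintype.card_fin]
    ring

end Pool.Agent.N890.DU
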