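import Pool.Agent.N890.US.Core

/-!
Project DU (helper890), pages MP_308fa9_nt and MP_2f3286_ag: the statements of the pieces.

Selmer sets over all number fields `F` of degree at most `D` for random intersections `X_c` over a
number field `K` in families over products `A = E_1 × … × E_r` of elliptic curves over `ℚ`. A class
over `F` is mapped to `ℚ` by corestriction; its local point over `ℚ_p` is the sum of the conjugates of
the local points over the completions of `F`.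
-/

set_option autoImplicit false

namespace Pool.Agent.N890.DU

open NumberField WeierstrassCurve IsDedekindDomain Pool.Agent.TH942 Pool.Agent.TH954
open Pool.Agent.H901R3.MS Pool.Agent.N89.CI Pool.Agent.N890.FD Pool.Agent.N890.US

open scoped LinearAlgebra.Projectivization

section defs

variable {K : Type} [Field K] [NumberField K] {r m : ℕ} {ι L' : Type}

open scoped Classical in
/-- The point `P` of `A(L)` is the sum of `n ≤ D` points over the algebraic closure of `L`, permuted by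
the Galois group, on conjugates of the member with the parameters `t`. -/
def LT (a b : Fin r → ℤ) (G' : L' → Pol (𝓞 K) r m ι) (D : ℕ) (t : ι → 𝓞 K) (L : Type) [Field L]
    [Algebra ℚ L] (P : ∀ i, ((EQ (a i) (b i)).baseChange L).toAffine.Point) : Prop :=
  ∃ (n : ℕ) (_ : 1 ≤ n) (_ : n ≤ D) (χ : Fin n → (𝓞 K →+* AlgebraicClosure L))
    (Z : Fin n → ∀ i, AlgPt (EQ (a i) (b i)) L) (T : Fin n → Fin (m + 1) → AlgebraicClosure L),
    (∀ j, T j ≠ 0) ∧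
    (∀ j l, valP (χ j) (G' l) (fun i => crd (Z j i)) (T j) (fun s => χ j (t s)) = 0) ∧
    (∀ i, ∑ j, Z j i = incl (EQ (a i) (b i)) L (P i)) ∧
    ∀ σ : AlgebraicClosure L ≃ₐ[L] AlgebraicClosure L, ∃ π : Equiv.Perm (Fin n), ∀ j,
      (∀ x, χ (π j) x = σ (χ j x)) ∧ (∀ i, Z (π j) i = act (EQ (a i) (b i)) σ (Z j i)) ∧
      ∀ s, T (π j) s = σ (T j s)

/-- the parameters `∑ c (s, i) χ (ω i)` -/
noncomputable def par {p : ℕ} {n₀ : ℕ} {k : Type} [Field k] [Algebra (ZMod p) k]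
    (χ : 𝓞 K →+* k) (ω : Fin n₀ → 𝓞 K) (c : ι × Fin n₀ → ZMod p) : ι → k :=
  fun s => ∑ i, algebraMap (ZMod p) k (c (s, i)) * χ (ω i)

/-- `n` points over `k`, with homomorphisms from the ring of integers of `K`, which are permuted by
the Frobenius automorphism -/
def Conf (a b : Fin r → ℤ) (p : ℕ) (k : Type) [Field k] (n : ℕ) (π : Equiv.Perm (Fin n))
    (χ : Fin n → (𝓞 K →+* k)) (V : Fin n → ∀ i, Pt (a i : k) (b i : k))
    (T : Fin n → Fin (m + 1) → k) : Prop :=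
  (∀ j, T j ≠ 0) ∧ (∀ j x, χ (π j) x = χ j x ^ p) ∧
  (∀ j i s, rep (V (π j) i) s = rep (V j i) s ^ p) ∧
  ∀ j, ∃ u : k, u ≠ 0 ∧ ∀ s, T (π j) s = u * T j s ^ p

/-- the points are different -/
def Diff (a b : Fin r → ℤ) (k : Type) [Field k] (n : ℕ)
    (χ : Fin n → (𝓞 K →+* k)) (V : Fin n → ∀ i, Pt (a i : k) (b i : k))
    (T : Fin n → Fin (m + 1) → k) : Prop :=
  ∀ j j', j ≠ j' → χ j = χ j' → V j = V j' → ∀ u : k, ¬ ∀ s, T j' s = u * T j s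

open scoped Classical in
/-- The point `R` of `A` over `𝔽_p` is the sum of `n ≤ D` points over `k`, permuted by Frobenius, on
conjugates of the member with the parameters `∑ c (s, i) ω i`. -/
def KD (a b : Fin r → ℤ) (G' : L' → Pol (𝓞 K) r m ι) {n₀ : ℕ} (ω : Fin n₀ → 𝓞 K) (D p : ℕ)
    [Fact p.Prime] (k : Type) [Field k] [Algebra (ZMod p) k] (c : ι × Fin n₀ → ZMod p)
    (R : ∀ i, Pt (a i : ZMod p) (b i : ZMod p)) : Prop :=
  ∃ (n : ℕ) (_ : 1 ≤ n) (_ : n ≤ D) (π : Equiv.Perm (Fin n)) (χ : Fin n → (𝓞 K →+* k))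
    (V : Fin n → ∀ i, Pt (a i : k) (b i : k)) (T : Fin n → Fin (m + 1) → k),
    Conf a b p k n π χ V T ∧
    (∀ j l, valP (χ j) (G' l) (fun i => rep (V j i)) (T j) (par (χ j) ω c) = 0) ∧
    ∀ i s, rep (∑ j, V j i) s = algebraMap (ZMod p) k (rep (R i) s)

/-- the fibres of the family over the finite fields with at most `p ^ D` elements are small -/
def Few (p κ : ℕ) (B : ℝ) (D : ℕ) (a b : Fin r → ℤ) (Φ : L' → Pol0 (𝓞 K) r m) : Prop :=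
  ∀ (k : Type) [Field k] [Fintype k] [Algebra (ZMod p) k], Fintype.card k ≤ p ^ D →
    ∀ (χ : 𝓞 K →+* k) (V : Fin r → Fin 3 → k), (∀ i, Pool.Agent.W659.FD.OnE (a i) (b i) (V i)) →
    (({P : ℙ k (Fin (m + 1) → k) | ∀ l, val0 χ (Φ l) V P.rep = 0}.ncard : ℕ) : ℝ) ≤
      B * (Fintype.card k : ℝ) ^ κ

end defs

/-! ### Corestriction and the change of the local field -/

open scoped Classical in
/-- LCF. A Selmer class over `F` gives by corestriction a class over `ℚ`. -/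
def S_LCF : Prop := ∀ (K : Type) [Field K] [NumberField K] (F : Type) [Field F] [NumberField F]
  [Algebra K F] (D : ℕ), Module.finrank ℚ F ≤ D → ∀ (r m : ℕ) (ι L' : Type) [Fintype ι]
  (a b : Fin r → ℤ), (∀ i, 4 * a i ^ 3 + 27 * b i ^ 2 ≠ 0) → ∀ (G' : L' → Pol (𝓞 K) r m ι)
  (t : ι → 𝓞 K) (N : ℕ) (ξ : ∀ i : Fin r, (AlgebraicClosure F ≃ₐ[F] AlgebraicClosure F) →
    AlgPt (sw (a i : F) (b i : F)) F),
  IsSel ((algebraMap K F).comp (algebraMap (𝓞 K) K)) a b G'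
    (fun s => algebraMap K F (algebraMap (𝓞 K) K (t s))) N ξ →
  ∃ η : ∀ i : Fin r, (AlgebraicClosure ℚ ≃ₐ[ℚ] AlgebraicClosure ℚ) → AlgPt (EQ (a i) (b i)) ℚ,
    (∀ i, IsCocycle (EQ (a i) (b i)) (η i)) ∧ (∀ i σ, N • η i σ = 0) ∧
    ∀ v : HeightOneSpectrum (𝓞 ℚ),
      ∃ P : ∀ i, ((EQ (a i) (b i)).baseChange (v.adicCompletion ℚ)).toAffine.Point,
        (∀ i, LocG (EQ (a i) (b i)) N (η i) (v.adicCompletion ℚ) (P i)) ∧
        LT a b G' D t (v.adicCompletion ℚ) P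

open scoped Classical in
/-- TRP. From the completion of `ℚ` at the place of `p` to `ℚ_p`. -/
def S_TRP : Prop := ∀ (p : ℕ) [Fact p.Prime], ∃ v : HeightOneSpectrum (𝓞 ℚ),
  ∀ (K : Type) [Field K] [NumberField K] (D r m : ℕ) (ι L' : Type) (a b : Fin r → ℤ),
  (∀ i, 4 * a i ^ 3 + 27 * b i ^ 2 ≠ 0) → ∀ (G' : L' → Pol (𝓞 K) r m ι)
  (t : ι → 𝓞 K) (N : ℕ)
  (η : ∀ i : Fin r, (AlgebraicClosure ℚ ≃ₐ[ℚ] AlgebraicClosure ℚ) → AlgPt (EQ (a i) (b i)) ℚ)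
  (P : ∀ i, ((EQ (a i) (b i)).baseChange (v.adicCompletion ℚ)).toAffine.Point),
  (∀ i, LocG (EQ (a i) (b i)) N (η i) (v.adicCompletion ℚ) (P i)) →
  LT a b G' D t (v.adicCompletion ℚ) P →
  ∃ P' : ∀ i, ((EQ (a i) (b i)).baseChange ℚ_[p]).toAffine.Point,
    (∀ i, LocAt (a i) (b i) N (η i) p (P' i)) ∧ LT a b G' D t ℚ_[p] P'

/-! ### Reduction modulo `p` -/

/-- FROB. A lift of the Frobenius automorphism. -/
def S_FROB : Prop := ∀ (p : ℕ) [Fact p.Prime],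
  ∃ σ : AlgebraicClosure ℚ_[p] ≃ₐ[ℚ_[p]] AlgebraicClosure ℚ_[p],
    ∀ x : AlgebraicClosure ℚ_[p], ‖x‖ ≤ 1 → ‖σ x - x ^ p‖ < 1

/-- RED. From FROB. -/
def S_RED : Prop := ∀ (p : ℕ) [Fact p.Prime], ∃ (k : Type) (_ : Field k) (_ : Algebra (ZMod p) k),
  Infinite k ∧ ∀ (K : Type) [Field K] [NumberField K] (D r m n₀ : ℕ) (ι L' : Type) [Fintype ι]
  (a b : Fin r → ℤ), (∀ i, Disc (a i : ZMod p) (b i : ZMod p)) →
  ∀ (G' : L' → Pol (𝓞 K) r m ι) (d : L' → Fin r → ℕ) (e : L' → ℕ),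
  (∀ l, MHomog (G' l) (d l) (e l)) → ∀ (ω : Fin n₀ → 𝓞 K) (c : ι × Fin n₀ → ℤ)
  (P : ∀ i, ((EQ (a i) (b i)).baseChange ℚ_[p]).toAffine.Point)
  (R : ∀ i, Pt (a i : ZMod p) (b i : ZMod p)),
  (∀ i, ∃ u : ℚ_[p], u ≠ 0 ∧ ∀ j, u * crd (P i) j ∈ (plP p).A ∧
    (plP p).r (u * crd (P i) j) = rep (R i) j) →
  LT a b G' D (fun s => ∑ i, c (s, i) • ω i) ℚ_[p] P →
  KD a b G' ω D p k (fun x => (c x : ZMod p)) R

/-! ### Counting -/

/-- QUO. Removing multiple points. -/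
def S_QUO : Prop := ∀ (K : Type) [Field K] [NumberField K] (r m p : ℕ) (a b : Fin r → ℤ)
  (k : Type) [Field k] [CharP k p] (n : ℕ), p.Prime → 1 ≤ n → ∀ (π : Equiv.Perm (Fin n))
  (χ : Fin n → (𝓞 K →+* k)) (V : Fin n → ∀ i, Pt (a i : k) (b i : k))
  (T : Fin n → Fin (m + 1) → k), Conf a b p k n π χ V T →
  ∃ (n' : ℕ) (_ : 1 ≤ n') (_ : n' ≤ n) (f : Fin n → Fin n') (g : Fin n' → Fin n)
    (π' : Equiv.Perm (Fin n')), (∀ j, f (g j) = j) ∧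
    Conf a b p k n' π' (χ ∘ g) (V ∘ g) (T ∘ g) ∧ Diff a b k n' (χ ∘ g) (V ∘ g) (T ∘ g) ∧
    ∀ j, χ (g (f j)) = χ j ∧ V (g (f j)) = V j

/-- IND. Different points impose independent conditions on forms of sufficiently large degrees. -/
def S_IND : Prop := ∀ (K : Type) [Field K] [NumberField K] (r m s n n₀ p : ℕ) [Fact p.Prime]
  (d : Fin s → Fin r → ℕ) (e : Fin s → ℕ), (∀ j i, n ≤ d j i + 1) → (∀ j, n ≤ e j + 1) →
  ∀ (ω : Module.Basis (Fin n₀) ℤ (𝓞 K)) (k : Type) [Field k] [Algebra (ZMod p) k] [Infinite k]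
  (χ : Fin n → (𝓞 K →+* k)) (V : Fin n → Fin r → Fin 3 → k) (T : Fin n → Fin (m + 1) → k),
  (∀ j i, V j i ≠ 0) → (∀ j, T j ≠ 0) →
  (∀ j j', j ≠ j' → χ j = χ j' → (∀ i, ∃ u : k, ∀ x, V j' i x = u * V j i x) →
    ∀ u : k, ¬ ∀ x, T j' x = u * T j x) →
  {c : Idx m d e × Fin n₀ → ZMod p | ∀ (l : Fin s) (j : Fin n),
    valP (χ j) (gen (𝓞 K) m d e l) (V j) (T j) (par (χ j) ω c) = 0}.ncard * p ^ (s * n) ≤
    p ^ (Fintype.card (Idx m d e) * n₀)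

open scoped Classical in
/-- TOR. Torsion points in positive characteristic. -/
def S_TOR : Prop := ∀ W : ℕ, 1 ≤ W → ∃ C : ℕ, ∀ p : ℕ, p.Prime → W < p → ∀ (k : Type) [Field k]
  [CharP k p] (a b : k), Disc a b →
  {P : Pt a b | W • P = 0}.Finite ∧ {P : Pt a b | W • P = 0}.ncard ≤ C

/-- GPI. The number of the families of points which are permuted by Frobenius. -/
def S_GPI : Prop := ∀ (n p : ℕ), p.Prime → ∀ (k : Type) [Field k] [CharP k p] (a b : ℤ),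
  Disc (a : k) (b : k) → ∀ π : Equiv.Perm (Fin n),
  {v : Fin n → Pt (a : k) (b : k) | ∀ j s, rep (v (π j)) s = rep (v j) s ^ p}.Finite ∧
  {v : Fin n → Pt (a : k) (b : k) | ∀ j s, rep (v (π j)) s = rep (v j) s ^ p}.ncard ≤
    4 ^ n * p ^ n

open scoped Classical in
/-- EQV. From TOR and GPI. The same with the sum in a given set. -/
def S_EQV : Prop := ∀ D : ℕ, ∃ (C : ℝ) (p₁ : ℕ), 1 ≤ C ∧ ∀ (p : ℕ) [Fact p.Prime], p₁ ≤ p →
  ∀ (k : Type) [Field k] [Algebra (ZMod p) k] (a b : ℤ), Disc (a : ZMod p) (b : ZMod p) →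
  p ≤ 2 * Nat.card (Pt (a : ZMod p) (b : ZMod p)) → ∀ n : ℕ, 1 ≤ n → n ≤ D →
  ∀ (π : Equiv.Perm (Fin n)) (w : Fin n → ℕ), (∀ j, 1 ≤ w j) → ∑ j, w j ≤ D →
  ∀ S : Set (Pt (a : ZMod p) (b : ZMod p)),
  {v : Fin n → Pt (a : k) (b : k) | (∀ j s, rep (v (π j)) s = rep (v j) s ^ p) ∧
    ∃ R ∈ S, ∀ s, rep (∑ j, w j • v j) s = algebraMap (ZMod p) k (rep R s)}.Finite ∧
  (({v : Fin n → Pt (a : k) (b : k) | (∀ j s, rep (v (π j)) s = rep (v j) s ^ p) ∧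
    ∃ R ∈ S, ∀ s, rep (∑ j, w j • v j) s = algebraMap (ZMod p) k (rep R s)}.ncard : ℕ) : ℝ) ≤
    C * ((p : ℝ) ^ n / p) * S.ncard

/-- EQT. The number of the points of the projective space. -/
def S_EQT : Prop := ∀ (K : Type) [Field K] [NumberField K] (D r m κ p : ℕ) [Fact p.Prime]
  (L' : Type) (a b : Fin r → ℤ) (Φ : L' → Pol0 (𝓞 K) r m) (d' : L' → Fin r → ℕ) (e' : L' → ℕ),
  (∀ l, MHomog0 (Φ l) (d' l) (e' l)) → ∀ B : ℝ, 1 ≤ B → Few p κ B D a b Φ →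
  ∀ (k : Type) [Field k] [Algebra (ZMod p) k] (n : ℕ), n ≤ D → ∀ (π : Equiv.Perm (Fin n))
  (χ : Fin n → (𝓞 K →+* k)) (V : Fin n → ∀ i, Pt (a i : k) (b i : k)),
  (∀ j x, χ (π j) x = χ j x ^ p) → (∀ j i s, rep (V (π j) i) s = rep (V j i) s ^ p) →
  {τ : Fin n → ℙ k (Fin (m + 1) → k) |
    (∀ j, ∃ u : k, u ≠ 0 ∧ ∀ s, (τ (π j)).rep s = u * (τ j).rep s ^ p) ∧
    ∀ j l, val0 (χ j) (Φ l) (fun i => rep (V j i)) (τ j).rep = 0}.Finite ∧
  (({τ : Fin n → ℙ k (Fin (m + 1) → k) |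
    (∀ j, ∃ u : k, u ≠ 0 ∧ ∀ s, (τ (π j)).rep s = u * (τ j).rep s ^ p) ∧
    ∀ j l, val0 (χ j) (Φ l) (fun i => rep (V j i)) (τ j).rep = 0}.ncard : ℕ) : ℝ) ≤
    B ^ n * (p : ℝ) ^ (κ * n)

/-- CHI. The number of the homomorphisms. -/
def S_CHI : Prop := ∀ (K : Type) [Field K] [NumberField K] (n₀ : ℕ)
  (_ : Module.Basis (Fin n₀) ℤ (𝓞 K)) (k : Type) [Field k],
  Finite (𝓞 K →+* k) ∧ Nat.card (𝓞 K →+* k) ≤ n₀

open scoped Classical in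
/-- COUNT. From QUO, IND, EQV, EQT, CHI. -/
def S_COUNT : Prop := ∀ (K : Type) [Field K] [NumberField K] (r m κ s D n₀ : ℕ), 1 ≤ D →
  s ≤ r + κ → ∀ (L' : Type) (a b : Fin r → ℤ) (Φ : L' → Pol0 (𝓞 K) r m)
  (d' : L' → Fin r → ℕ) (e' : L' → ℕ), (∀ l, MHomog0 (Φ l) (d' l) (e' l)) →
  ∀ (ω : Module.Basis (Fin n₀) ℤ (𝓞 K)) (d : Fin s → Fin r → ℕ) (e : Fin s → ℕ),
  (∀ j i, D ≤ d j i + 1) → (∀ j, D ≤ e j + 1) → ∀ B : ℝ,
  ∃ (C : ℝ) (p₁ : ℕ), 1 ≤ C ∧ ∀ (p : ℕ) [Fact p.Prime], p₁ ≤ p →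
  (∀ i, Disc (a i : ZMod p) (b i : ZMod p)) →
  (∀ i, p ≤ 2 * Nat.card (Pt (a i : ZMod p) (b i : ZMod p))) → Few p κ B D a b Φ →
  ∀ (k : Type) [Field k] [Algebra (ZMod p) k] [Infinite k]
  (Ks : ∀ i, Set (Pt (a i : ZMod p) (b i : ZMod p))),
  (({c : Idx m d e × Fin n₀ → ZMod p | ∃ R : ∀ i, Pt (a i : ZMod p) (b i : ZMod p),
    (∀ i, R i ∈ Ks i) ∧ KD a b (Sum.elim (fun l => lift0 (Idx m d e) (Φ l)) (gen (𝓞 K) m d e))
      ω D p k c R}.ncard : ℕ) : ℝ) ≤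
    C * ((p : ℝ) ^ (Fintype.card (Idx m d e) * n₀) * (p : ℝ) ^ (D * (r + κ - s)) / (p : ℝ) ^ r) *
      ∏ i, ((Ks i).ncard : ℝ)

end Pool.Agent.N890.DU
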